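import Pool.Agent.NGN.B.Om

/-!
# NGN, part B: the boundary integral of the regular polygon

The side `[regP n j, regP n (j + 1)]` is parametrised by `t ↦ ω^j (1 + i (2t - 1) τ)`.
-/

set_option autoImplicit false

noncomputable section

namespace Pool.Agent.NGN

open MeasureTheory

theorem regP_succ {n : ℕ} [NeZero n] (hn : 3 ≤ n) (j : ZMod n) :
    regP n (j + 1) = (1 + tauN n * Complex.I) * omN n ^ j.val := by
  have h1 : (omN n) ^ n = 1 := (omN_primitive (by omega)).pow_eq_one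
  have hv : (j + 1).val = (j.val + 1) % n := by
    rw [ZMod.val_add]
    have hf : Fact (1 < n) := ⟨by omega⟩
    rw [ZMod.val_one]
  have h2 : omN n ^ ((j.val + 1) % n) = omN n ^ (j.val + 1) :=
    (pow_eq_pow_mod (j.val + 1) h1).symm
  unfold regP
  rw [hv, h2, pow_succ]
  have h3 := omN_mul hn
  calc (1 - (tauN n : ℂ) * Complex.I) * (omN n ^ j.val * omN n)
      = ((1 - (tauN n : ℂ) * Complex.I) * omN n) * omN n ^ j.val := by ring
    _ = _ := by rw [h3]

private theorem Bdn_seg {n : ℕ} [NeZero n] (hn : 3 ≤ n) (f : ℂ → ℝ) (j : ZMod n) :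
    Stk.segInt (regP n j) (regP n (j + 1)) f =
      ∫ y in (-tauN n)..(tauN n), f (omN n ^ j.val * ⟨1, y⟩) := by
  have ht := tauN_pos' hn
  have hd : dist (regP n j) (regP n (j + 1)) = 2 * tauN n := by
    rw [regP_succ hn, dist_comm, dist_eq_norm]
    unfold regP
    have e : (1 + (tauN n : ℂ) * Complex.I) * omN n ^ j.val
        - (1 - (tauN n : ℂ) * Complex.I) * omN n ^ j.val
        = ((2 * tauN n : ℝ) : ℂ) * Complex.I * omN n ^ j.val := by
      push_cast
      ring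
    rw [e, norm_mul, norm_mul, norm_pow, norm_omN, Complex.norm_I, one_pow, mul_one, mul_one,
      Complex.norm_real, Real.norm_eq_abs, abs_of_pos (by linarith)]
  have hp : ∀ t : ℝ, regP n j + (t : ℂ) * (regP n (j + 1) - regP n j)
      = omN n ^ j.val * (⟨1, 2 * tauN n * t + -tauN n⟩ : ℂ) := by
    intro t
    rw [regP_succ hn]
    unfold regP
    have e : (⟨1, 2 * tauN n * t + -tauN n⟩ : ℂ)
        = 1 + ((2 * tauN n * t + -tauN n : ℝ) : ℂ) * Complex.I := by
      apply Complex.ext <;> simp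
    rw [e]
    push_cast
    ring
  unfold Stk.segInt
  rw [hd]
  have hc : 2 * tauN n * (∫ t in (0 : ℝ)..1,
      (fun y => f (omN n ^ j.val * (⟨1, y⟩ : ℂ))) (2 * tauN n * t + -tauN n))
      = ∫ y in (2 * tauN n * 0 + -tauN n)..(2 * tauN n * 1 + -tauN n),
        (fun y => f (omN n ^ j.val * (⟨1, y⟩ : ℂ))) y :=
    intervalIntegral.mul_integral_comp_mul_add (f := fun y => f (omN n ^ j.val * (⟨1, y⟩ : ℂ)))
      (2 * tauN n) (-tauN n)
  have e1 : (∫ t in (0 : ℝ)..1, f (regP n j + (t : ℂ) * (regP n (j + 1) - regP n j)))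
      = ∫ t in (0 : ℝ)..1, f (omN n ^ j.val * (⟨1, 2 * tauN n * t + -tauN n⟩ : ℂ)) := by
    refine intervalIntegral.integral_congr fun t _ => ?_
    simp only [hp t]
  simp only at hc
  rw [e1, hc]
  have e2 : 2 * tauN n * 0 + -tauN n = -tauN n := by ring
  have e3 : 2 * tauN n * 1 + -tauN n = tauN n := by ring
  rw [e2, e3]

private theorem Bdn_sum {n : ℕ} [NeZero n] (F : ℕ → ℝ) :
    ∑ i : ZMod n, F i.val = ∑ j ∈ Finset.range n, F j := by
  obtain ⟨m, rfl⟩ : ∃ m, n = m + 1 := ⟨n - 1, (Nat.succ_pred_eq_of_ne_zero (NeZero.ne n)).symm⟩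
  exact Fin.sum_univ_eq_sum_range F (m + 1)

theorem bdN_regP {n : ℕ} [NeZero n] (hn : 3 ≤ n) (f : ℂ → ℝ) :
    bdN (regP n) f =
      ∑ j ∈ Finset.range n, ∫ y in (-tauN n)..(tauN n), f (omN n ^ j * ⟨1, y⟩) := by
  unfold bdN
  rw [Finset.sum_congr rfl fun i _ => Bdn_seg hn f i]
  exact Bdn_sum fun j => ∫ y in (-tauN n)..(tauN n), f (omN n ^ j * ⟨1, y⟩)

end Pool.Agent.NGN
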