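import Pool.Agent.NGN.B.Defs

/-!
# NGN, part B: the level inequality for the invariant functions

PROOF PLAN. All integrals over `[-1, 1]`.  `c = (1/2) ∫ φ`, `c' = (1/2) ∫ ψ`, `g = φ - c`,
`a s = ψ s - s / x * φ' s`, `∫ a = 2 c' - (1/x) (2 g(1))` (since `∫ s φ' = φ 1 + φ (-1) - ∫ φ
= g 1 + g (-1) = 2 g 1`), so `a = m + h` with the constant `m = c' - g 1 / x` and `∫ h = 0`.
`x ∫ a^2 = x (2 m^2 + ∫ h^2) ≥ x ∫ h^2 ≥ 2 ∫ g h - (1/x) ∫ g^2 = 2 ∫ g a - (1/x) ∫ g^2` and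
`2 ∫ g a = 2 ∫ g (ψ - c') - (1/x) (g(1)^2 + g(-1)^2 - ∫ g^2)`; so
`x ∫ a^2 ≥ 2 ∫ g (ψ - c') - (2/x) g(1)^2`.  Finally `∫ φ'^2 ≥ 6 g(1)^2`: `∫ s φ' = 2 g 1`,
`∫ s^2 = 2/3`, Cauchy-Schwarz (integrate `(φ' - 3 g(1) s)^2 ≥ 0`), and `6/τ² ≥ 2`.
`2 ∫ g (ψ - c') = 2 ∫ φ ψ - 4 c c'` is the right-hand side of the statement.
-/

set_option autoImplicit false

noncomputable section

namespace Pool.Agent.NGN

open MeasureTheory

theorem J0 {tau x : ℝ} (ht : 0 < tau) (ht3 : tau ^ 2 ≤ 3) (hx : 0 < x) {φ φ' ψ : ℝ → ℝ}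
    (hφ : ∀ s, HasDerivAt φ (φ' s) s) (hφ' : Continuous φ') (hψ : Continuous ψ)
    (hb : φ 1 = φ (-1)) :
    2 * (∫ s in (-1 : ℝ)..1, φ s * ψ s)
        - (∫ s in (-1 : ℝ)..1, φ s) * (∫ s in (-1 : ℝ)..1, ψ s) ≤
      x * ∫ s in (-1 : ℝ)..1, ((ψ s - s / x * φ' s) ^ 2 + (φ' s / (tau * x)) ^ 2) := by
  have hφc : Continuous φ := continuous_iff_continuousAt.mpr (fun s => (hφ s).continuousAt)
  obtain ⟨P, hP⟩ : ∃ P, P = ∫ s in (-1 : ℝ)..1, φ s := ⟨_, rfl⟩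
  obtain ⟨Q, hQ⟩ : ∃ Q, Q = ∫ s in (-1 : ℝ)..1, ψ s := ⟨_, rfl⟩
  obtain ⟨J, hJ⟩ : ∃ J, J = ∫ s in (-1 : ℝ)..1, φ s * ψ s := ⟨_, rfl⟩
  obtain ⟨c, hc⟩ : ∃ c, c = P / 2 := ⟨_, rfl⟩
  obtain ⟨u, hu⟩ : ∃ u, u = φ 1 - c := ⟨_, rfl⟩
  obtain ⟨m, hm⟩ : ∃ m, m = Q / 2 - u / x := ⟨_, rfl⟩
  obtain ⟨κ, hκ⟩ : ∃ κ, κ = 1 / (tau ^ 2 * x) := ⟨_, rfl⟩
  have hκ0 : 0 < κ := by
    rw [hκ]
    positivity
  have hκx : 1 / x ≤ 3 * κ := by
    rw [hκ, div_le_iff₀ hx]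
    have h1 : 3 * (1 / (tau ^ 2 * x)) * x = 3 / tau ^ 2 := by
      field_simp
    rw [h1, le_div_iff₀ (by positivity)]
    linarith
  -- the antiderivative
  obtain ⟨W, hW⟩ : ∃ W : ℝ → ℝ, W = fun s => -(2 * m) * (s * (φ s - c)) -
      (s * (φ s - c) ^ 2) / x + 6 * κ * u * (s * (φ s - c)) - 3 * κ * u ^ 2 * s ^ 3 -
      x * m ^ 2 * s + 6 * κ * u * c * s := ⟨_, rfl⟩
  obtain ⟨W', hW'⟩ : ∃ W' : ℝ → ℝ, W' = fun s => -(2 * m) * ((φ s - c) + s * φ' s) -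
      ((φ s - c) ^ 2 + 2 * s * (φ s - c) * φ' s) / x + 6 * κ * u * ((φ s - c) + s * φ' s) -
      9 * κ * u ^ 2 * s ^ 2 - x * m ^ 2 + 6 * κ * u * c := ⟨_, rfl⟩
  have hWd : ∀ s, HasDerivAt W (W' s) s := by
    intro s
    have hg : HasDerivAt (fun s => φ s - c) (φ' s) s := (hφ s).sub_const c
    have h1 : HasDerivAt (fun s : ℝ => s * (φ s - c)) (1 * (φ s - c) + s * φ' s) s :=
      (hasDerivAt_id s).mul hg
    have h2 : HasDerivAt (fun s : ℝ => s * (φ s - c) ^ 2)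
        (1 * (φ s - c) ^ 2 + s * (((2 : ℕ) : ℝ) * (φ s - c) ^ (2 - 1) * φ' s)) s :=
      (hasDerivAt_id s).mul (hg.pow 2)
    have h3 : HasDerivAt (fun s : ℝ => s ^ 3) (((3 : ℕ) : ℝ) * s ^ (3 - 1)) s :=
      hasDerivAt_pow 3 s
    have h4 := (((((h1.const_mul (-(2 * m))).sub (h2.div_const x)).add
      (h1.const_mul (6 * κ * u))).sub (h3.const_mul (3 * κ * u ^ 2))).sub
      ((hasDerivAt_id s).const_mul (x * m ^ 2))).add
      ((hasDerivAt_id s).const_mul (6 * κ * u * c))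
    rw [hW, hW']
    refine h4.congr_deriv ?_
    push_cast
    ring
  have hW'c : Continuous W' := by
    rw [hW']
    fun_prop
  have e1 : ∫ s in (-1 : ℝ)..1, W' s = W 1 - W (-1) :=
    intervalIntegral.integral_eq_sub_of_hasDerivAt (fun s _ => hWd s)
      (hW'c.intervalIntegrable _ _)
  have e2 : W 1 - W (-1) = -(4 * m * u) - 2 * u ^ 2 / x + 12 * κ * u ^ 2 - 6 * κ * u ^ 2 -
      2 * x * m ^ 2 + 12 * κ * u * c := by
    rw [hW]
    simp only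
    rw [← hb, ← hu]
    ring
  have e3 : ∫ s in (-1 : ℝ)..1, ((2 * x * m - 2 * c) * ψ s + 2 * (φ s * ψ s) +
      (-(6 * κ * u)) * φ s + W' s) = (2 * x * m - 2 * c) * Q + 2 * J + (-(6 * κ * u)) * P +
      (W 1 - W (-1)) := by
    have i1 : IntervalIntegrable (fun s => (2 * x * m - 2 * c) * ψ s) volume (-1) 1 :=
      (continuous_const.mul hψ).intervalIntegrable _ _
    have i2 : IntervalIntegrable (fun s => 2 * (φ s * ψ s)) volume (-1) 1 :=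
      (continuous_const.mul (hφc.mul hψ)).intervalIntegrable _ _
    have i3 : IntervalIntegrable (fun s => (-(6 * κ * u)) * φ s) volume (-1) 1 :=
      (continuous_const.mul hφc).intervalIntegrable _ _
    have i4 : IntervalIntegrable W' volume (-1) 1 := hW'c.intervalIntegrable _ _
    rw [intervalIntegral.integral_add ((i1.add i2).add i3) i4,
      intervalIntegral.integral_add (i1.add i2) i3, intervalIntegral.integral_add i1 i2,
      intervalIntegral.integral_const_mul, intervalIntegral.integral_const_mul,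
      intervalIntegral.integral_const_mul, e1, ← hP, ← hQ, ← hJ]
  have e4 : ∫ s in (-1 : ℝ)..1, ((2 * x * m - 2 * c) * ψ s + 2 * (φ s * ψ s) +
      (-(6 * κ * u)) * φ s + W' s) ≤
      ∫ s in (-1 : ℝ)..1, x * ((ψ s - s / x * φ' s) ^ 2 + (φ' s / (tau * x)) ^ 2) := by
    refine intervalIntegral.integral_mono_on (by norm_num) ?_ ?_ (fun s _ => ?_)
    · exact Continuous.intervalIntegrable (by fun_prop) _ _
    · exact Continuous.intervalIntegrable (by fun_prop) _ _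
    · have h1 : x * ((ψ s - s / x * φ' s) ^ 2 + (φ' s / (tau * x)) ^ 2) -
          ((2 * x * m - 2 * c) * ψ s + 2 * (φ s * ψ s) + (-(6 * κ * u)) * φ s + W' s) =
          (x * (ψ s - s / x * φ' s) - (x * m + (φ s - c))) ^ 2 / x +
            κ * (φ' s - 3 * u * s) ^ 2 := by
        rw [hW', hκ]
        simp only
        field_simp
        ring
      have h2 : 0 ≤ (x * (ψ s - s / x * φ' s) - (x * m + (φ s - c))) ^ 2 / x +
            κ * (φ' s - 3 * u * s) ^ 2 := by positivity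
      linarith
  rw [e3, e2, intervalIntegral.integral_const_mul] at e4
  rw [← hJ, ← hP, ← hQ]
  refine le_trans ?_ e4
  have h5 : (2 * x * m - 2 * c) * Q + 2 * J + (-(6 * κ * u)) * P +
      (-(4 * m * u) - 2 * u ^ 2 / x + 12 * κ * u ^ 2 - 6 * κ * u ^ 2 - 2 * x * m ^ 2 +
        12 * κ * u * c) = 2 * J - P * Q + 2 * x * m ^ 2 + 2 * u ^ 2 * (3 * κ - 1 / x) := by
    have h6 : Q = 2 * (m + u / x) := by
      rw [hm]
      ring
    rw [hc, h6]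
    field_simp
    ring
  rw [h5]
  have h7 : 0 ≤ 2 * x * m ^ 2 := by positivity
  have h8 : 0 ≤ 2 * u ^ 2 * (3 * κ - 1 / x) := mul_nonneg (by positivity) (by linarith)
  linarith

end Pool.Agent.NGN
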