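import Pool.Agent.NGN.B.Defs

/-!
# NGN, part B: derivatives of level integrals

PROOF PLAN. `pt tau x s` is smooth in `(x, s)`; chain rule `HasFDerivAt.comp_hasDerivAt` for the
first two.  `hasDerivAt_level`: differentiation under the integral sign with a continuous
derivative on the compact set `[x-1, x+1] × [-1, 1]`
(`intervalIntegral.hasDerivAt_integral_of_dominated_loc_of_deriv_le`, the bound is the maximum of
`|g s * Dx tau f x' s|` on that compact set, or any parametric-integral lemma of Mathlib).
`continuous_level`: `intervalIntegral.continuous_parametric_intervalIntegral_of_continuous'`.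
`grad2_pt`: `fderiv f p ⟨1, τ s⟩ = f_x + τ s f_y` by linearity.
-/

set_option autoImplicit false

noncomputable section

namespace Pool.Agent.NGN

open MeasureTheory

variable {tau : ℝ} {f : ℂ → ℝ}

private theorem Par_pt_eq (x s : ℝ) :
    pt tau x s = (x : ℂ) + ((tau * x * s : ℝ) : ℂ) * Complex.I := by
  apply Complex.ext <;> simp [pt]

private theorem Par_vec_eq (s : ℝ) :
    (⟨1, tau * s⟩ : ℂ) = (1 : ℂ) + ((tau * s : ℝ) : ℂ) * Complex.I := by
  apply Complex.ext <;> simp

theorem continuous_pt : Continuous fun p : ℝ × ℝ => pt tau p.1 p.2 := by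
  simp only [Par_pt_eq]
  fun_prop

private theorem Par_continuous_vec : Continuous fun p : ℝ × ℝ => (⟨1, tau * p.2⟩ : ℂ) := by
  simp only [Par_vec_eq]
  fun_prop

theorem continuous_Dx (hf : ContDiff ℝ 1 f) : Continuous fun p : ℝ × ℝ => Dx tau f p.1 p.2 := by
  have h := (hf.continuous_fderiv (by norm_num)).comp (continuous_pt (tau := tau))
  exact h.clm_apply Par_continuous_vec

theorem continuous_Ds (hf : ContDiff ℝ 1 f) : Continuous fun p : ℝ × ℝ => Ds tau f p.1 p.2 := by
  have h := (hf.continuous_fderiv (by norm_num)).comp (continuous_pt (tau := tau))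
  have h2 : Continuous fun p : ℝ × ℝ => fderiv ℝ f (pt tau p.1 p.2) Complex.I :=
    h.clm_apply continuous_const
  exact (continuous_const.mul continuous_fst).mul h2

theorem hasDerivAt_pt_x (hf : ContDiff ℝ 1 f) (x s : ℝ) :
    HasDerivAt (fun x => f (pt tau x s)) (Dx tau f x s) x := by
  have h1 : HasDerivAt (fun x : ℝ => pt tau x s) (⟨1, tau * s⟩ : ℂ) x := by
    simp only [Par_pt_eq, Par_vec_eq]
    have h2 : HasDerivAt (fun x : ℝ => (x : ℂ)) (1 : ℂ) x := by
      simpa using (hasDerivAt_id x).ofReal_comp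
    have h3 : HasDerivAt (fun x : ℝ => tau * x * s) (tau * s) x := by
      have h4 := ((hasDerivAt_id x).const_mul tau).mul_const s
      simpa using h4
    exact h2.add (h3.ofReal_comp.mul_const Complex.I)
  have h5 : HasFDerivAt f (fderiv ℝ f (pt tau x s)) (pt tau x s) :=
    (hf.differentiable (by norm_num) (pt tau x s)).hasFDerivAt
  exact h5.comp_hasDerivAt x h1

theorem hasDerivAt_pt_s (hf : ContDiff ℝ 1 f) (x s : ℝ) :
    HasDerivAt (fun s => f (pt tau x s)) (Ds tau f x s) s := by
  have h1 : HasDerivAt (fun s : ℝ => pt tau x s) ((tau * x) • Complex.I) s := by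
    simp only [Par_pt_eq]
    have h3 : HasDerivAt (fun s : ℝ => tau * x * s) (tau * x) s := by
      have h4 := (hasDerivAt_id s).const_mul (tau * x)
      simpa using h4
    have h6 := (h3.ofReal_comp.mul_const Complex.I).const_add (x : ℂ)
    rw [Complex.real_smul]
    exact h6
  have h5 : HasFDerivAt f (fderiv ℝ f (pt tau x s)) (pt tau x s) :=
    (hf.differentiable (by norm_num) (pt tau x s)).hasFDerivAt
  have h7 := h5.comp_hasDerivAt s h1
  rw [map_smul, smul_eq_mul] at h7
  exact h7

/-- differentiation under the integral sign for jointly continuous data -/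
private theorem Par_param {F F' : ℝ → ℝ → ℝ} (hF : Continuous (Function.uncurry F))
    (hF' : Continuous (Function.uncurry F'))
    (hd : ∀ x t, HasDerivAt (fun x => F x t) (F' x t) x) (x0 : ℝ) :
    HasDerivAt (fun x => ∫ t in (-1 : ℝ)..1, F x t) (∫ t in (-1 : ℝ)..1, F' x0 t) x0 := by
  have hK : IsCompact (Set.Icc (x0 - 1) (x0 + 1) ×ˢ Set.Icc (-1 : ℝ) 1) :=
    isCompact_Icc.prod isCompact_Icc
  obtain ⟨C, hC⟩ := hK.exists_bound_of_continuousOn hF'.continuousOn
  have hs : Set.Icc (x0 - 1) (x0 + 1) ∈ nhds x0 := Icc_mem_nhds (by linarith) (by linarith)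
  have hcF : ∀ x, Continuous (F x) := fun x => hF.comp (Continuous.prodMk_right x)
  have hcF' : ∀ x, Continuous (F' x) := fun x => hF'.comp (Continuous.prodMk_right x)
  refine (intervalIntegral.hasDerivAt_integral_of_dominated_loc_of_deriv_le (μ := volume)
    (F := F) (F' := F') (bound := fun _ => C) hs ?_ ?_ ?_ ?_ ?_ ?_).2
  · exact Filter.Eventually.of_forall fun x => (hcF x).aestronglyMeasurable
  · exact (hcF x0).intervalIntegrable _ _
  · exact (hcF' x0).aestronglyMeasurable
  · refine Filter.Eventually.of_forall fun t ht x hx => ?_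
    have ht2 : t ∈ Set.Icc (-1 : ℝ) 1 := by
      rw [Set.uIoc_of_le (by norm_num)] at ht
      exact ⟨ht.1.le, ht.2⟩
    exact hC (x, t) ⟨hx, ht2⟩
  · exact intervalIntegrable_const
  · exact Filter.Eventually.of_forall fun t _ x _ => hd x t

/-- Differentiation of a level integral with weight. -/
theorem hasDerivAt_level (hf : ContDiff ℝ 1 f) {g : ℝ → ℝ} (hg : Continuous g) (x : ℝ) :
    HasDerivAt (fun x => ∫ s in (-1 : ℝ)..1, g s * f (pt tau x s))
      (∫ s in (-1 : ℝ)..1, g s * Dx tau f x s) x := by
  have hfc : Continuous fun p : ℝ × ℝ => f (pt tau p.1 p.2) := hf.continuous.comp continuous_pt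
  refine Par_param (F := fun x s => g s * f (pt tau x s)) (F' := fun x s => g s * Dx tau f x s)
    ?_ ?_ ?_ x
  · exact (hg.comp continuous_snd).mul hfc
  · exact (hg.comp continuous_snd).mul (continuous_Dx hf)
  · exact fun x t => (hasDerivAt_pt_x hf x t).const_mul (g t)

/-- The case of a square. -/
theorem hasDerivAt_level_sq (hf : ContDiff ℝ 1 f) (x : ℝ) :
    HasDerivAt (fun x => ∫ s in (-1 : ℝ)..1, f (pt tau x s) ^ 2)
      (2 * ∫ s in (-1 : ℝ)..1, f (pt tau x s) * Dx tau f x s) x := by
  have hfc : Continuous fun p : ℝ × ℝ => f (pt tau p.1 p.2) := hf.continuous.comp continuous_pt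
  rw [← intervalIntegral.integral_const_mul]
  refine Par_param (F := fun x s => f (pt tau x s) ^ 2)
    (F' := fun x s => 2 * (f (pt tau x s) * Dx tau f x s)) ?_ ?_ ?_ x
  · exact hfc.pow 2
  · exact continuous_const.mul (hfc.mul (continuous_Dx hf))
  · intro x t
    have h := (hasDerivAt_pt_x (tau := tau) hf x t).pow 2
    have e : 2 * (f (pt tau x t) * Dx tau f x t)
        = ((2 : ℕ) : ℝ) * f (pt tau x t) ^ (2 - 1) * Dx tau f x t := by
      norm_num
      ring
    rw [e]
    exact h

theorem continuous_level {h : ℝ → ℝ → ℝ} (hh : Continuous (Function.uncurry h)) :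
    Continuous fun x => ∫ s in (-1 : ℝ)..1, h x s :=
  intervalIntegral.continuous_parametric_intervalIntegral_of_continuous' hh _ _

theorem continuous_grad2 (hf : ContDiff ℝ 1 f) : Continuous (grad2 f) := by
  have h := hf.continuous_fderiv (by norm_num)
  have h1 : Continuous fun z => fderiv ℝ f z 1 := h.clm_apply continuous_const
  have h2 : Continuous fun z => fderiv ℝ f z Complex.I := h.clm_apply continuous_const
  exact (h1.pow 2).add (h2.pow 2)

/-- The gradient in fan coordinates. -/
theorem grad2_pt (ht : tau ≠ 0) (x s : ℝ) (hx : x ≠ 0) :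
    grad2 f (pt tau x s) =
      (Dx tau f x s - s / x * Ds tau f x s) ^ 2 + (Ds tau f x s / (tau * x)) ^ 2 := by
  have e1 : (⟨1, tau * s⟩ : ℂ) = (1 : ℂ) + (tau * s) • Complex.I := by
    rw [Par_vec_eq, Complex.real_smul]
  have e2 : Dx tau f x s = fderiv ℝ f (pt tau x s) 1
      + tau * s * fderiv ℝ f (pt tau x s) Complex.I := by
    unfold Dx
    rw [e1, map_add, map_smul, smul_eq_mul]
  have e3 : Dx tau f x s - s / x * Ds tau f x s = fderiv ℝ f (pt tau x s) 1 := by
    rw [e2]
    unfold Ds
    field_simp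
    ring
  have e4 : Ds tau f x s / (tau * x) = fderiv ℝ f (pt tau x s) Complex.I := by
    unfold Ds
    field_simp
  rw [e3, e4]
  rfl

end Pool.Agent.NGN
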