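import Pool.Agent.NGN.B.Fan
import Pool.Agent.NGN.B.Par
import Pool.Agent.NGN.B.J0

/-!
# NGN, part B: the invariant functions (blueprint (B2), m = 0)

PROOF PLAN. As in `Class2.lean`, with `J0`: let `N x = ∫ f (pt tau x s)^2 ds`,
`C x = ∫ f (pt tau x s) ds` (`hasDerivAt_level` with `g = 1`); `G x = N x - C x ^ 2 / 2` has the
derivative `2 ∫ f Dx - C x * ∫ Dx`, which is at most `x ∫ grad2 f` for `x > 0` by `J0`.
`ER = τ ∫_0^1 x ∫ grad2 ≥ τ (G 1 - G 0)`; `G 1 = N 1` (`hm`), `τ N 1 = MR`, and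
`G 0 = 2 f(0)^2 - (2 f(0))^2/2 = 0`.
-/

set_option autoImplicit false

noncomputable section

namespace Pool.Agent.NGN

open MeasureTheory

theorem class0_ge {tau : ℝ} (ht : 0 < tau) (ht3 : tau ^ 2 ≤ 3) {f : ℂ → ℝ}
    (hf : ContDiff ℝ 1 f) (hb : ∀ x, f (pt tau x 1) = f (pt tau x (-1)))
    (hm : ∫ s in (-1 : ℝ)..1, f (pt tau 1 s) = 0) :
    MR tau f ≤ ER tau f := by
  have hfc : Continuous fun q : ℝ × ℝ => f (pt tau q.1 q.2) := hf.continuous.comp continuous_pt
  have hDx := continuous_Dx (tau := tau) hf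
  have hDs := continuous_Ds (tau := tau) hf
  obtain ⟨G, hG⟩ : ∃ G : ℝ → ℝ, G = fun x => (∫ s in (-1 : ℝ)..1, f (pt tau x s) ^ 2) -
      (∫ s in (-1 : ℝ)..1, f (pt tau x s)) ^ 2 / 2 := ⟨_, rfl⟩
  obtain ⟨G', hG'⟩ : ∃ G' : ℝ → ℝ, G' = fun x =>
      2 * (∫ s in (-1 : ℝ)..1, f (pt tau x s) * Dx tau f x s) -
      (∫ s in (-1 : ℝ)..1, f (pt tau x s)) * (∫ s in (-1 : ℝ)..1, Dx tau f x s) := ⟨_, rfl⟩
  have hd : ∀ x, HasDerivAt G (G' x) x := by
    intro x
    have h1 := hasDerivAt_level_sq (tau := tau) hf x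
    have h2 := hasDerivAt_level (tau := tau) hf (g := fun _ => 1) continuous_const x
    simp only [one_mul] at h2
    have h3 := h1.sub ((h2.pow 2).div_const 2)
    rw [hG, hG']
    refine h3.congr_deriv ?_
    push_cast
    ring
  have hc1 : Continuous fun x => ∫ s in (-1 : ℝ)..1, f (pt tau x s) * Dx tau f x s :=
    continuous_level (h := fun x s => f (pt tau x s) * Dx tau f x s) (hfc.mul hDx)
  have hc2 : Continuous fun x => ∫ s in (-1 : ℝ)..1, f (pt tau x s) :=
    continuous_level (h := fun x s => f (pt tau x s)) hfc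
  have hc3 : Continuous fun x => ∫ s in (-1 : ℝ)..1, Dx tau f x s :=
    continuous_level (h := fun x s => Dx tau f x s) hDx
  have hc4 : Continuous fun x => ∫ s in (-1 : ℝ)..1, grad2 f (pt tau x s) :=
    continuous_level (h := fun x s => grad2 f (pt tau x s))
      ((continuous_grad2 hf).comp continuous_pt)
  have hG'c : Continuous G' := by
    rw [hG']
    exact (continuous_const.mul hc1).sub (hc2.mul hc3)
  have e1 : ∫ x in (0 : ℝ)..1, G' x = G 1 - G 0 :=
    intervalIntegral.integral_eq_sub_of_hasDerivAt (fun x _ => hd x)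
      (hG'c.intervalIntegrable _ _)
  have e2 : ∫ x in (0 : ℝ)..1, G' x ≤
      ∫ x in (0 : ℝ)..1, x * ∫ s in (-1 : ℝ)..1, grad2 f (pt tau x s) := by
    refine intervalIntegral.integral_mono_on (by norm_num) (hG'c.intervalIntegrable _ _)
      ((continuous_id.mul hc4).intervalIntegrable _ _) ?_
    rintro x ⟨hx0, hx1⟩
    rcases hx0.eq_or_lt with h0 | hx
    · subst h0
      have p0 : ∀ s, pt tau 0 s = 0 := by
        intro s
        apply Complex.ext <;> simp [pt]
      rw [hG']
      simp only [p0, intervalIntegral.integral_const_mul, intervalIntegral.integral_const,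
        smul_eq_mul, zero_mul]
      apply le_of_eq
      ring
    · have h := J0 (tau := tau) (x := x) ht ht3 hx (φ := fun s => f (pt tau x s))
        (φ' := fun s => Ds tau f x s) (ψ := fun s => Dx tau f x s)
        (fun s => hasDerivAt_pt_s hf x s) (hDs.comp (Continuous.prodMk_right x))
        (hDx.comp (Continuous.prodMk_right x)) (hb x)
      have e : (fun s => (Dx tau f x s - s / x * Ds tau f x s) ^ 2 +
          (Ds tau f x s / (tau * x)) ^ 2) = fun s => grad2 f (pt tau x s) := by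
        funext s
        exact (grad2_pt ht.ne' x s hx.ne').symm
      rw [e] at h
      rw [hG']
      exact h
  have g1 : G 1 = ∫ s in (-1 : ℝ)..1, f (pt tau 1 s) ^ 2 := by
    rw [hG]
    simp only [hm]
    ring
  have g0 : G 0 = 0 := by
    have p0 : ∀ s, pt tau 0 s = 0 := by
      intro s
      apply Complex.ext <;> simp [pt]
    rw [hG]
    simp only [p0, intervalIntegral.integral_const, smul_eq_mul]
    ring
  have e3 : MR tau f = tau * ∫ s in (-1 : ℝ)..1, f (pt tau 1 s) ^ 2 :=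
    side_integral ht (fun z => f z ^ 2)
  have e4 : ER tau f = tau * ∫ x in (0 : ℝ)..1, x * ∫ s in (-1 : ℝ)..1, grad2 f (pt tau x s) :=
    sec_integral ht (continuous_grad2 hf)
  rw [e3, e4, ← g1]
  refine mul_le_mul_of_nonneg_left ?_ ht.le
  rw [e1, g0, sub_zero] at e2
  exact e2

end Pool.Agent.NGN
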