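import Pool.Agent.NGN.B.Defs

/-!
# NGN, part B: the level inequality for the classes `m ≠ 0, ±1`

PROOF PLAN. All integrals over `[-1, 1]`.  Put `a s = ψ s - s / x * φ' s`.
Pointwise `x * a^2 ≥ 2 * φ * a - φ^2 / x`.  Integrate:
`x ∫ a^2 ≥ 2 ∫ φ ψ - (2/x) ∫ s φ φ' - (1/x) ∫ φ^2`, and `∫ 2 s φ φ' = φ(1)^2 + φ(-1)^2 - ∫ φ^2`
(derivative of `s φ(s)^2`, `intervalIntegral.integral_eq_sub_of_hasDerivAt`).
Finally `∫ φ'^2 ≥ (φ 1 - φ (-1))^2 / 2` (Cauchy-Schwarz: integrate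
`(φ' - (φ 1 - φ (-1))/2)^2 ≥ 0`).
-/

set_option autoImplicit false

noncomputable section

namespace Pool.Agent.NGN

open MeasureTheory

theorem J1 {tau x : ℝ} (ht : 0 < tau) (hx : 0 < x) {φ φ' ψ : ℝ → ℝ}
    (hφ : ∀ s, HasDerivAt φ (φ' s) s) (hφ' : Continuous φ') (hψ : Continuous ψ) :
    2 * (∫ s in (-1 : ℝ)..1, φ s * ψ s) +
        (1 / x) * ((φ 1 - φ (-1)) ^ 2 / (2 * tau ^ 2) - φ 1 ^ 2 - φ (-1) ^ 2) ≤
      x * ∫ s in (-1 : ℝ)..1, ((ψ s - s / x * φ' s) ^ 2 + (φ' s / (tau * x)) ^ 2) := by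
  have cφ : Continuous φ := continuous_iff_continuousAt.2 fun s => (hφ s).continuousAt
  have key : ∀ s, 2 * (φ s * ψ s) - (1 / x) * (φ s ^ 2 + s * (2 * φ s * φ' s))
      + (1 / (tau ^ 2 * x)) * (φ' s) ^ 2 ≤
      x * ((ψ s - s / x * φ' s) ^ 2 + (φ' s / (tau * x)) ^ 2) := by
    intro s
    have h : x * ((ψ s - s / x * φ' s) ^ 2 + (φ' s / (tau * x)) ^ 2)
        - (2 * (φ s * ψ s) - (1 / x) * (φ s ^ 2 + s * (2 * φ s * φ' s))
          + (1 / (tau ^ 2 * x)) * (φ' s) ^ 2) = x * ((ψ s - s / x * φ' s) - φ s / x) ^ 2 := by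
      field_simp
      ring
    have h2 : 0 ≤ x * ((ψ s - s / x * φ' s) - φ s / x) ^ 2 := by positivity
    linarith
  have i1 : ∫ s in (-1 : ℝ)..1, (φ s ^ 2 + s * (2 * φ s * φ' s)) = φ 1 ^ 2 + φ (-1) ^ 2 := by
    have hd : ∀ s ∈ Set.uIcc (-1 : ℝ) 1,
        HasDerivAt (fun s => s * φ s ^ 2) (φ s ^ 2 + s * (2 * φ s * φ' s)) s := by
      intro s _
      have h1 := (hasDerivAt_id s).mul ((hφ s).pow 2)
      refine h1.congr_deriv ?_
      simp only [id, Nat.cast_ofNat, Pi.pow_apply]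
      ring
    rw [intervalIntegral.integral_eq_sub_of_hasDerivAt hd
      (Continuous.intervalIntegrable (by fun_prop) _ _)]
    ring
  have i2 : ∫ s in (-1 : ℝ)..1, φ' s = φ 1 - φ (-1) :=
    intervalIntegral.integral_eq_sub_of_hasDerivAt (fun s _ => hφ s)
      (hφ'.intervalIntegrable _ _)
  have i3 : (φ 1 - φ (-1)) ^ 2 / 2 ≤ ∫ s in (-1 : ℝ)..1, φ' s ^ 2 := by
    set d := (φ 1 - φ (-1)) / 2 with hd
    have h1 : 0 ≤ ∫ s in (-1 : ℝ)..1, (φ' s - d) ^ 2 :=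
      intervalIntegral.integral_nonneg (by norm_num) fun s _ => sq_nonneg _
    have h2 : ∫ s in (-1 : ℝ)..1, (φ' s - d) ^ 2 =
        (∫ s in (-1 : ℝ)..1, φ' s ^ 2) - 2 * d * (∫ s in (-1 : ℝ)..1, φ' s) + 2 * d ^ 2 := by
      have h3 : ∀ s, (φ' s - d) ^ 2 = φ' s ^ 2 - 2 * d * φ' s + d ^ 2 := fun s => by ring
      simp_rw [h3]
      rw [intervalIntegral.integral_add, intervalIntegral.integral_sub,
        intervalIntegral.integral_const_mul, intervalIntegral.integral_const]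
      · rw [smul_eq_mul]
        ring
      all_goals exact Continuous.intervalIntegrable (by fun_prop) _ _
    rw [h2, i2] at h1
    have : φ 1 - φ (-1) = 2 * d := by rw [hd]; ring
    rw [this] at h1 ⊢
    nlinarith
  have h4 : ∫ s in (-1 : ℝ)..1, (2 * (φ s * ψ s) - (1 / x) * (φ s ^ 2 + s * (2 * φ s * φ' s))
      + (1 / (tau ^ 2 * x)) * (φ' s) ^ 2) ≤
      ∫ s in (-1 : ℝ)..1, x * ((ψ s - s / x * φ' s) ^ 2 + (φ' s / (tau * x)) ^ 2) := by
    apply intervalIntegral.integral_mono (by norm_num)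
    · exact Continuous.intervalIntegrable (by fun_prop) _ _
    · exact Continuous.intervalIntegrable (by fun_prop) _ _
    · exact key
  rw [intervalIntegral.integral_const_mul] at h4
  rw [intervalIntegral.integral_add, intervalIntegral.integral_sub,
    intervalIntegral.integral_const_mul, intervalIntegral.integral_const_mul,
    intervalIntegral.integral_const_mul, i1] at h4
  · refine le_trans ?_ h4
    have h5 : (1 / x) * ((φ 1 - φ (-1)) ^ 2 / (2 * tau ^ 2)) ≤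
        1 / (tau ^ 2 * x) * ∫ s in (-1 : ℝ)..1, φ' s ^ 2 := by
      have : (1 / x) * ((φ 1 - φ (-1)) ^ 2 / (2 * tau ^ 2)) =
          1 / (tau ^ 2 * x) * ((φ 1 - φ (-1)) ^ 2 / 2) := by field_simp
      rw [this]
      exact mul_le_mul_of_nonneg_left i3 (by positivity)
    have h6 : (1 / x) * ((φ 1 - φ (-1)) ^ 2 / (2 * tau ^ 2) - φ 1 ^ 2 - φ (-1) ^ 2) =
        (1 / x) * ((φ 1 - φ (-1)) ^ 2 / (2 * tau ^ 2)) - 1 / x * (φ 1 ^ 2 + φ (-1) ^ 2) := by ring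
    rw [h6]
    linarith
  all_goals exact Continuous.intervalIntegrable (by fun_prop) _ _

end Pool.Agent.NGN
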