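import Pool.Agent.NGN.B.Fan
import Pool.Agent.NGN.B.Par
import Pool.Agent.NGN.B.J1

/-!
# NGN, part B: the classes `m ≠ 0, ±1` (blueprint (B2))

PROOF PLAN. `ER tau f = τ ∫_0^1 x ∫ grad2 f (pt tau x s) ds dx` (`sec_integral`,
`continuous_grad2`), `MR tau f = τ ∫ f (pt tau 1 s)^2 ds` (`side_integral`),
`N f x = ∫ f (pt tau x s)^2 ds` has the derivative `2 ∫ f Dx` (`hasDerivAt_level_sq`), so
`∫_0^1 2 ∫ f Dx ds dx = N f 1 - N f 0`, `N f 0 = 0` because `pt tau 0 s = 0` and `f 0 = 0`.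
For `0 < x ≤ 1` apply `J1` to both functions (`φ s = f (pt tau x s)`, `φ' = Ds`, `ψ = Dx`,
`grad2_pt`) and add: the brackets add up to something `≥ 0` by `hb`.  Integrate over `[0, 1]`
(`intervalIntegral.integral_mono_on`, at `x = 0` use the a.e. version or check `0 ≤ 0`: the
left-hand side at `x = 0` is `2 ∫ f 0 * .. = 0`).
-/

set_option autoImplicit false

noncomputable section

namespace Pool.Agent.NGN

open MeasureTheory

private theorem Class2_pt0 (tau s : ℝ) : pt tau 0 s = 0 := by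
  apply Complex.ext <;> simp [pt]

private theorem Class2_contL {tau : ℝ} {f : ℂ → ℝ} (h : ContDiff ℝ 1 f) :
    Continuous fun x => 2 * ∫ s in (-1 : ℝ)..1, f (pt tau x s) * Dx tau f x s := by
  refine continuous_const.mul (continuous_level (h := fun x s => f (pt tau x s) * Dx tau f x s) ?_)
  exact (h.continuous.comp continuous_pt).mul (continuous_Dx h)

private theorem Class2_contG {tau : ℝ} {f : ℂ → ℝ} (h : ContDiff ℝ 1 f) :
    Continuous fun x => x * ∫ s in (-1 : ℝ)..1, grad2 f (pt tau x s) := by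
  refine continuous_id.mul (continuous_level (h := fun x s => grad2 f (pt tau x s)) ?_)
  exact (continuous_grad2 h).comp continuous_pt

private theorem Class2_intL {tau : ℝ} (ht : 0 < tau) {f : ℂ → ℝ} (h : ContDiff ℝ 1 f)
    (z : f 0 = 0) :
    tau * ∫ x in (0 : ℝ)..1, 2 * ∫ s in (-1 : ℝ)..1, f (pt tau x s) * Dx tau f x s
      = MR tau f := by
  have h1 := intervalIntegral.integral_eq_sub_of_hasDerivAt (a := 0) (b := 1)
    (f := fun x => ∫ s in (-1 : ℝ)..1, f (pt tau x s) ^ 2)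
    (f' := fun x => 2 * ∫ s in (-1 : ℝ)..1, f (pt tau x s) * Dx tau f x s)
    (fun x _ => hasDerivAt_level_sq h x) ((Class2_contL h).intervalIntegrable _ _)
  rw [h1]
  have h2 : ∫ s in (-1 : ℝ)..1, f (pt tau 0 s) ^ 2 = 0 := by
    simp [Class2_pt0, z]
  simp only [h2, sub_zero]
  exact (side_integral ht (fun z => f z ^ 2)).symm

private theorem Class2_level {tau x : ℝ} (ht : 0 < tau) (hx : 0 < x) {f : ℂ → ℝ}
    (h : ContDiff ℝ 1 f) :
    2 * (∫ s in (-1 : ℝ)..1, f (pt tau x s) * Dx tau f x s) +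
        (1 / x) * ((f (pt tau x 1) - f (pt tau x (-1))) ^ 2 / (2 * tau ^ 2)
          - f (pt tau x 1) ^ 2 - f (pt tau x (-1)) ^ 2) ≤
      x * ∫ s in (-1 : ℝ)..1, grad2 f (pt tau x s) := by
  have h1 := J1 (tau := tau) (x := x) ht hx (φ := fun s => f (pt tau x s))
    (φ' := fun s => Ds tau f x s) (ψ := fun s => Dx tau f x s)
    (fun s => hasDerivAt_pt_s h x s)
    ((continuous_Ds h).comp (Continuous.prodMk_right x))
    ((continuous_Dx h).comp (Continuous.prodMk_right x))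
  have h2 : (∫ s in (-1 : ℝ)..1, grad2 f (pt tau x s)) =
      ∫ s in (-1 : ℝ)..1, ((Dx tau f x s - s / x * Ds tau f x s) ^ 2
        + (Ds tau f x s / (tau * x)) ^ 2) := by
    apply intervalIntegral.integral_congr
    intro s _
    exact grad2_pt ht.ne' x s hx.ne'
  rw [h2]
  exact h1

theorem class_ge {tau : ℝ} (ht : 0 < tau) {f1 f2 : ℂ → ℝ} (h1 : ContDiff ℝ 1 f1)
    (h2 : ContDiff ℝ 1 f2) (z1 : f1 0 = 0) (z2 : f2 0 = 0)
    (hb : ∀ x, 0 < x → x ≤ 1 →
      2 * tau ^ 2 * (f1 (pt tau x 1) ^ 2 + f1 (pt tau x (-1)) ^ 2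
        + f2 (pt tau x 1) ^ 2 + f2 (pt tau x (-1)) ^ 2) ≤
      (f1 (pt tau x 1) - f1 (pt tau x (-1))) ^ 2 + (f2 (pt tau x 1) - f2 (pt tau x (-1))) ^ 2) :
    MR tau f1 + MR tau f2 ≤ ER tau f1 + ER tau f2 := by
  have e1 : ER tau f1 = tau * ∫ x in (0 : ℝ)..1, x * ∫ s in (-1 : ℝ)..1, grad2 f1 (pt tau x s) :=
    sec_integral ht (continuous_grad2 h1)
  have e2 : ER tau f2 = tau * ∫ x in (0 : ℝ)..1, x * ∫ s in (-1 : ℝ)..1, grad2 f2 (pt tau x s) :=
    sec_integral ht (continuous_grad2 h2)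
  rw [e1, e2, ← Class2_intL ht h1 z1, ← Class2_intL ht h2 z2, ← mul_add, ← mul_add,
    ← intervalIntegral.integral_add ((Class2_contL h1).intervalIntegrable _ _)
      ((Class2_contL h2).intervalIntegrable _ _),
    ← intervalIntegral.integral_add ((Class2_contG h1).intervalIntegrable _ _)
      ((Class2_contG h2).intervalIntegrable _ _)]
  refine mul_le_mul_of_nonneg_left ?_ ht.le
  refine intervalIntegral.integral_mono_on zero_le_one
    (((Class2_contL h1).add (Class2_contL h2)).intervalIntegrable _ _)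
    (((Class2_contG h1).add (Class2_contG h2)).intervalIntegrable _ _) ?_
  rintro x ⟨hx0, hx1⟩
  rcases hx0.eq_or_lt with rfl | hx
  · simp [Class2_pt0, z1, z2]
  · have l1 := Class2_level ht hx h1
    have l2 := Class2_level ht hx h2
    have hb' := hb x hx hx1
    set A1 := f1 (pt tau x 1) with hA1
    set B1 := f1 (pt tau x (-1)) with hB1
    set A2 := f2 (pt tau x 1) with hA2
    set B2 := f2 (pt tau x (-1)) with hB2
    have h3 : 0 ≤ (1 / x) * ((A1 - B1) ^ 2 / (2 * tau ^ 2) - A1 ^ 2 - B1 ^ 2)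
        + (1 / x) * ((A2 - B2) ^ 2 / (2 * tau ^ 2) - A2 ^ 2 - B2 ^ 2) := by
      rw [← mul_add]
      refine mul_nonneg (by positivity) ?_
      have h4 : (A1 ^ 2 + B1 ^ 2 + A2 ^ 2 + B2 ^ 2)
          ≤ ((A1 - B1) ^ 2 + (A2 - B2) ^ 2) / (2 * tau ^ 2) := by
        rw [le_div_iff₀ (by positivity)]
        linarith
      rw [add_div] at h4
      linarith
    linarith

end Pool.Agent.NGN
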