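import Pool.Agent.NGN.B.Defs

/-!
# NGN, part B: fan coordinates on the sector

`sec tau = {0 < x < 1, |y| < τ x}`, `(x, y) = pt tau x s`, `y = τ x s`.

PROOF PLAN. `sec tau` is open (measurable) and bounded (`|x|, |y| ≤ max 1 τ`), so a continuous
function is integrable on it (compare with the integrable-on-compact closed ball /
`Metric.closedBall 0 (1 + tau)`).  `∫ z in sec tau, g z`: push to `ℝ × ℝ` with
`Complex.volume_preserving_equiv_real_prod` (`.setIntegral_preimage_emb` or as in
`Pool/Agent/Stk`, `Pool/Agent/Sq4`: look there for an existing lemma), write it as the region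
between `-τ x` and `τ x` over `x ∈ (0, 1)` (`regionBetween`, or indicator + Fubini
`MeasureTheory.integral_prod`), then the substitution `y = τ x s` in the inner integral
(`intervalIntegral.integral_comp_mul_left`, for `x > 0`; the value at `x = 0` does not matter).
`side_integral`: `intervalIntegral.integral_comp_mul_left` with `y = τ s`, for every `g`.
-/

set_option autoImplicit false

noncomputable section

namespace Pool.Agent.NGN

open MeasureTheory

theorem isOpen_sec (tau : ℝ) : IsOpen (sec tau) := by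
  have h1 : IsOpen {z : ℂ | 0 < z.re} := isOpen_lt continuous_const Complex.continuous_re
  have h2 : IsOpen {z : ℂ | z.re < 1} := isOpen_lt Complex.continuous_re continuous_const
  have h3 : IsOpen {z : ℂ | |z.im| < tau * z.re} :=
    isOpen_lt (continuous_abs.comp Complex.continuous_im) (continuous_const.mul Complex.continuous_re)
  exact h1.inter (h2.inter h3)

theorem integrableOn_sec {tau : ℝ} (ht : 0 < tau) {g : ℂ → ℝ} (hg : Continuous g) :
    IntegrableOn g (sec tau) := by
  have h1 : IntegrableOn g (Metric.closedBall (0 : ℂ) (1 + tau)) :=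
    hg.continuousOn.integrableOn_compact (isCompact_closedBall _ _)
  refine h1.mono_set ?_
  rintro z ⟨hz0, hz1, hz2⟩
  rw [mem_closedBall_zero_iff]
  have h2 : ‖z‖ ≤ |z.re| + |z.im| := Complex.norm_le_abs_re_add_abs_im z
  have h3 : |z.re| ≤ 1 := by
    rw [abs_of_pos hz0]
    exact hz1.le
  have h4 : tau * z.re ≤ tau := by nlinarith
  linarith

/-- the sector in real coordinates -/
private def Fan_S (tau : ℝ) : Set (ℝ × ℝ) := {q | 0 < q.1 ∧ q.1 < 1 ∧ |q.2| < tau * q.1}

private theorem Fan_S_meas (tau : ℝ) : MeasurableSet (Fan_S tau) := by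
  have h1 : IsOpen {q : ℝ × ℝ | 0 < q.1} := isOpen_lt continuous_const continuous_fst
  have h2 : IsOpen {q : ℝ × ℝ | q.1 < 1} := isOpen_lt continuous_fst continuous_const
  have h3 : IsOpen {q : ℝ × ℝ | |q.2| < tau * q.1} :=
    isOpen_lt (continuous_abs.comp continuous_snd) (continuous_const.mul continuous_fst)
  exact (h1.inter (h2.inter h3)).measurableSet

private theorem Fan_push (tau : ℝ) (g : ℂ → ℝ) :
    ∫ z in sec tau, g z = ∫ q in Fan_S tau, g ⟨q.1, q.2⟩ := by
  have h1 : sec tau = Complex.measurableEquivRealProd ⁻¹' (Fan_S tau) := by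
    ext z
    simp [sec, Fan_S, Complex.measurableEquivRealProd_apply]
  have := Complex.volume_preserving_equiv_real_prod.setIntegral_preimage_emb
      Complex.measurableEquivRealProd.measurableEmbedding
      (fun q : ℝ × ℝ => g ⟨q.1, q.2⟩) (Fan_S tau)
  rw [← h1] at this
  rw [← this]
  rfl

private theorem Fan_int {tau : ℝ} (ht : 0 < tau) {g : ℂ → ℝ} (hg : Continuous g) :
    IntegrableOn (fun q : ℝ × ℝ => g ⟨q.1, q.2⟩) (Fan_S tau) := by
  have hc : Continuous (fun q : ℝ × ℝ => g ⟨q.1, q.2⟩) := by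
    refine hg.comp ?_
    exact Complex.equivRealProdCLM.symm.continuous
  have h1 : IntegrableOn (fun q : ℝ × ℝ => g ⟨q.1, q.2⟩) (Set.Icc (0 : ℝ) 1 ×ˢ Set.Icc (-tau) tau) :=
    hc.continuousOn.integrableOn_compact (isCompact_Icc.prod isCompact_Icc)
  refine h1.mono_set ?_
  rintro ⟨x, y⟩ ⟨hx0, hx1, hy⟩
  simp only at hx0 hx1 hy
  rw [abs_lt] at hy
  refine ⟨⟨hx0.le, hx1.le⟩, ⟨?_, ?_⟩⟩
  · show -tau ≤ y
    nlinarith [hy.1]
  · show y ≤ tau
    nlinarith [hy.2]

private theorem Fan_inner (tau x : ℝ) (g : ℂ → ℝ) :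
    ∫ y in (-(tau * x))..(tau * x), g ⟨x, y⟩ = tau * (x * ∫ s in (-1 : ℝ)..1, g (pt tau x s)) := by
  have h1 := intervalIntegral.mul_integral_comp_mul_left (a := (-1 : ℝ)) (b := 1)
    (f := fun y : ℝ => g ⟨x, y⟩) (c := tau * x)
  rw [mul_neg, mul_one] at h1
  rw [← h1, mul_assoc]
  rfl

theorem sec_integral {tau : ℝ} (ht : 0 < tau) {g : ℂ → ℝ} (hg : Continuous g) :
    ∫ z in sec tau, g z =
      tau * ∫ x in (0 : ℝ)..1, x * ∫ s in (-1 : ℝ)..1, g (pt tau x s) := by
  rw [Fan_push, ← integral_indicator (Fan_S_meas tau)]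
  have hint : Integrable ((Fan_S tau).indicator fun q : ℝ × ℝ => g ⟨q.1, q.2⟩)
      (volume : Measure (ℝ × ℝ)) := by
    rw [integrable_indicator_iff (Fan_S_meas tau)]
    exact Fan_int ht hg
  rw [show (volume : Measure (ℝ × ℝ)) = (volume : Measure ℝ).prod volume from rfl] at hint ⊢
  rw [integral_prod _ hint]
  have h1 : ∀ x : ℝ, ∫ y : ℝ, (Fan_S tau).indicator (fun q : ℝ × ℝ => g ⟨q.1, q.2⟩) (x, y) =
      (Set.Ioo (0 : ℝ) 1).indicator
        (fun x => tau * (x * ∫ s in (-1 : ℝ)..1, g (pt tau x s))) x := by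
    intro x
    by_cases hx : x ∈ Set.Ioo (0 : ℝ) 1
    · rw [Set.indicator_of_mem hx]
      have h2 : (fun y : ℝ => (Fan_S tau).indicator (fun q : ℝ × ℝ => g ⟨q.1, q.2⟩) (x, y)) =
          (Set.Ioo (-(tau * x)) (tau * x)).indicator (fun y => g ⟨x, y⟩) := by
        ext y
        by_cases hy : y ∈ Set.Ioo (-(tau * x)) (tau * x)
        · rw [Set.indicator_of_mem hy, Set.indicator_of_mem]
          exact ⟨hx.1, hx.2, abs_lt.2 hy⟩
        · rw [Set.indicator_of_notMem hy, Set.indicator_of_notMem]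
          rintro ⟨_, _, h4⟩
          exact hy (abs_lt.1 h4)
      have hle : -(tau * x) ≤ tau * x := by
        have : 0 < tau * x := mul_pos ht hx.1
        linarith
      rw [h2, integral_indicator measurableSet_Ioo, ← integral_Ioc_eq_integral_Ioo,
        ← intervalIntegral.integral_of_le hle, Fan_inner]
    · rw [Set.indicator_of_notMem hx]
      have h2 : (fun y : ℝ => (Fan_S tau).indicator (fun q : ℝ × ℝ => g ⟨q.1, q.2⟩) (x, y)) =
          fun _ => 0 := by
        ext y
        rw [Set.indicator_of_notMem]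
        rintro ⟨h3, h4, _⟩
        exact hx ⟨h3, h4⟩
      rw [h2, integral_zero]
  simp only [h1]
  rw [integral_indicator measurableSet_Ioo, ← integral_Ioc_eq_integral_Ioo,
    ← intervalIntegral.integral_of_le zero_le_one, intervalIntegral.integral_const_mul]

theorem side_integral {tau : ℝ} (ht : 0 < tau) (g : ℂ → ℝ) :
    ∫ y in (-tau)..tau, g ⟨1, y⟩ = tau * ∫ s in (-1 : ℝ)..1, g (pt tau 1 s) := by
  have h1 := Fan_inner tau 1 g
  rw [mul_one, one_mul] at h1
  exact h1

end Pool.Agent.NGN
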