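import Pool.Agent.NGN.B.Cvx
import Pool.Agent.NGN.B.Fan
import Pool.Agent.NGN.B.Par
import Pool.Agent.NGN.C.Fan

/-!
# NGN, part B: the polygon is the union of its rotated sectors

PROOF PLAN. `P = regP n` is a convex polygon (`cvx_regP`), helper44's `C/Fan.lean` gives `Cvx.disj`,
`Cvx.cover`, `Cvx.hull_sub` (`convexHull ⊆ ⋃ Tr (P i) (P (i+1))`).
`S j = {z | (ω^j)⁻¹ z ∈ sec τ}`, `j < n`: with `P_j = (1 - iτ) ω^j`, `P_(j+1) = (1 + iτ) ω^j`
(`regP_succ`) it is `{z | 0 < cr P_j z ∧ 0 < cr z P_(j+1) ∧ cr P_j z + cr z P_(j+1) < 2 τ}`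
(for `w = (ω^j)⁻¹ z = ⟨a, b⟩`: `cr (1 - iτ) w = b + τ a`, `cr w (1 + iτ) = τ a - b`), an open subset of
the triangle `(0, P_j, P_(j+1)) ⊆ convexHull`, hence `S j ⊆ regO n`; pairwise disjoint by `Cvx.disj`;
and `regO n \ ⋃ S j` is contained in the boundaries of the triangles, finitely many lines (null sets:
e.g. `{w | im w = c re w}` and `{w | re w = 1}`, rotated).
The rotation `z ↦ ω^j z` is a linear isometry, hence measure preserving
(`LinearIsometryEquiv.measurePreserving`, `rotation`).  So for a continuous `g`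
`∫_regO g = ∑_j ∫_(S j) g = ∑_j ∫_sec g (ω^j z)` (`setIntegral_congr_set`,
`integral_finset_biUnion`/`integral_iUnion_fintype`; integrability: `regO n` is bounded).
`sum_energy`: `g = grad2 u`, and `grad2 (fun z => u (ω^j z)) z = grad2 u (ω^j z)` (the gradient
is rotated: with `ω^j = a + i b`, `fderiv (u ∘ ω^j) z 1 = a u_x + b u_y`,
`fderiv (u ∘ ω^j) z I = -b u_x + a u_y`, `a² + b² = 1`).
-/

set_option autoImplicit false

noncomputable section

namespace Pool.Agent.NGN

open MeasureTheory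

private theorem Cover_null {v : ℂ} (hv : v ≠ 0) (c : ℝ) :
    volume {z : ℂ | cr v z = c} = 0 := by
  obtain ⟨L, hL⟩ : ∃ L : ℂ →ₗ[ℝ] ℝ, ∀ z, L z = cr v z :=
    ⟨{ toFun := fun z => cr v z
       map_add' := fun x y => cr_add_right v x y
       map_smul' := fun r x => by
         rw [Complex.real_smul, cr_smul_right]
         rfl }, fun _ => rfl⟩
  by_cases he : ∃ z0, cr v z0 = c
  · obtain ⟨z0, hz0⟩ := he
    have h1 : {z : ℂ | cr v z = c} = (fun z => z + (-z0)) ⁻¹' (LinearMap.ker L : Set ℂ) := by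
      ext z
      show cr v z = c ↔ L (z + -z0) = 0
      rw [hL, ← sub_eq_add_neg, cr_sub_right, hz0, sub_eq_zero]
    rw [h1, measure_preimage_add_right]
    refine Measure.addHaar_submodule volume _ fun htop => ?_
    have h2 : L (Complex.I * v) = 0 := LinearMap.mem_ker.1 (htop ▸ Submodule.mem_top)
    rw [hL] at h2
    have h3 : v.re * v.re + v.im * v.im = 0 := by
      rw [← h2]
      simp [cr]
    apply hv
    have h4 : v.re = 0 := by nlinarith [mul_self_nonneg v.re, mul_self_nonneg v.im]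
    have h5 : v.im = 0 := by nlinarith [mul_self_nonneg v.re, mul_self_nonneg v.im]
    exact Complex.ext h4 h5
  · have h1 : {z : ℂ | cr v z = c} = ∅ := by
      ext z
      simp only [Set.mem_setOf_eq, Set.mem_empty_iff_false, iff_false]
      exact fun hz => he ⟨z, hz⟩
    rw [h1, measure_empty]

private theorem Cover_cr_mul {c : ℂ} (hc : c.re ^ 2 + c.im ^ 2 = 1) (x y : ℂ) :
    cr (c * x) (c * y) = cr x y := by
  have h : cr (c * x) (c * y) = (c.re ^ 2 + c.im ^ 2) * cr x y := by
    simp only [cr, Complex.mul_re, Complex.mul_im]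
    ring
  rw [h, hc, one_mul]

private theorem Cover_om (n j : ℕ) : (omN n ^ j).re ^ 2 + (omN n ^ j).im ^ 2 = 1 := by
  have h1 : ‖omN n ^ j‖ = 1 := by rw [norm_pow, norm_omN, one_pow]
  have h2 := Complex.sq_norm (omN n ^ j)
  rw [h1, Complex.normSq_apply] at h2
  nlinarith

private theorem Cover_OTr {n : ℕ} [NeZero n] (hn : 3 ≤ n) (i : ZMod n) (w : ℂ) :
    omN n ^ i.val * w ∈ OTr (regP n i) (regP n (i + 1)) ↔ w ∈ sec (tauN n) := by
  have ht := tauN_pos' hn
  have hp : regP n i = omN n ^ i.val * (1 - tauN n * Complex.I) := by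
    rw [regP, mul_comm]
  have hq : regP n (i + 1) = omN n ^ i.val * (1 + tauN n * Complex.I) := by
    rw [regP_succ hn, mul_comm]
  show (0 < cr (regP n i) (omN n ^ i.val * w) ∧ 0 < cr (omN n ^ i.val * w) (regP n (i + 1)) ∧
    cr (regP n i) (omN n ^ i.val * w) + cr (omN n ^ i.val * w) (regP n (i + 1)) <
      cr (regP n i) (regP n (i + 1))) ↔ 0 < w.re ∧ w.re < 1 ∧ |w.im| < tauN n * w.re
  rw [hp, hq, Cover_cr_mul (Cover_om n _), Cover_cr_mul (Cover_om n _),
    Cover_cr_mul (Cover_om n _)]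
  have e1 : cr (1 - tauN n * Complex.I) w = w.im + tauN n * w.re := by
    simp [cr]
  have e2 : cr w (1 + tauN n * Complex.I) = tauN n * w.re - w.im := by
    simp [cr]
    ring
  have e3 : cr (1 - tauN n * Complex.I) (1 + tauN n * Complex.I) = 2 * tauN n := by
    simp [cr]
    ring
  rw [e1, e2, e3, abs_lt]
  constructor
  · rintro ⟨h1, h2, h3⟩
    have h4 : 0 < tauN n * w.re := by linarith
    have h5 : 0 < w.re := by
      by_contra hneg
      push Not at hneg
      nlinarith
    refine ⟨h5, ?_, by linarith, by linarith⟩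
    nlinarith
  · rintro ⟨h1, h2, h3, h4⟩
    refine ⟨by linarith, by linarith, ?_⟩
    nlinarith

private theorem Cover_sum {n : ℕ} [NeZero n] {M : Type*} [AddCommMonoid M] (f : ℕ → M) :
    ∑ i : ZMod n, f i.val = ∑ j ∈ Finset.range n, f j := by
  refine Finset.sum_bij (fun i _ => i.val) (fun i _ => Finset.mem_range.2 (ZMod.val_lt i))
    (fun i _ j _ h => ZMod.val_injective n h) (fun j hj => ?_) (fun i _ => rfl)
  exact ⟨(j : ZMod n), Finset.mem_univ _, ZMod.val_cast_of_lt (Finset.mem_range.1 hj)⟩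

private theorem Cover_zero {n : ℕ} [NeZero n] (hn : 3 ≤ n) :
    (0 : ℂ) ∈ convexHull ℝ (Set.range (regP n)) := by
  have hn0 : (0 : ℝ) < n := by
    have : 0 < n := by omega
    exact_mod_cast this
  have h1 : ∑ i : ZMod n, (1 / n : ℝ) • regP n i ∈ convexHull ℝ (Set.range (regP n)) := by
    refine (convex_convexHull ℝ _).sum_mem (fun i _ => by positivity) ?_
      (fun i _ => subset_convexHull ℝ _ ⟨i, rfl⟩)
    rw [Finset.sum_const, Finset.card_univ, ZMod.card, nsmul_eq_mul]
    field_simp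
  have h2 : ∑ i : ZMod n, (1 / n : ℝ) • regP n i = 0 := by
    rw [← Finset.smul_sum]
    have h3 : ∑ i : ZMod n, regP n i = 0 := by
      unfold regP
      rw [← Finset.mul_sum, Cover_sum (fun j => omN n ^ j),
        (omN_primitive (by omega : n ≠ 0)).geom_sum_eq_zero (by omega), mul_zero]
    rw [h3, smul_zero]
  rwa [h2] at h1

private theorem Cover_OTr_sub {n : ℕ} [NeZero n] (hn : 3 ≤ n) (i : ZMod n) :
    OTr (regP n i) (regP n (i + 1)) ⊆ convexHull ℝ (Set.range (regP n)) := by
  intro z hz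
  have hpos := (cvx_regP hn).pos i
  have hd := cr_decomp' hpos z
  obtain ⟨hz1, hz2, hz3⟩ := hz
  set P := regP n i with hP
  set Q := regP n (i + 1) with hQ
  set a := cr z Q / cr P Q with ha
  set b := cr P z / cr P Q with hb
  have ha0 : 0 ≤ a := (div_pos hz2 hpos).le
  have hb0 : 0 ≤ b := (div_pos hz1 hpos).le
  have hab : a + b ≤ 1 := by
    rw [ha, hb, ← add_div, div_le_one hpos]
    linarith
  have hc := convex_convexHull ℝ (Set.range (regP n))
  have hmP : P ∈ convexHull ℝ (Set.range (regP n)) := subset_convexHull ℝ _ ⟨i, rfl⟩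
  have hmQ : Q ∈ convexHull ℝ (Set.range (regP n)) := subset_convexHull ℝ _ ⟨i + 1, rfl⟩
  have h0 := Cover_zero hn
  have h1 : z = (1 - a - b) • (0 : ℂ) + a • P + b • Q := by
    rw [smul_zero, zero_add, Complex.real_smul, Complex.real_smul]
    exact hd
  rw [h1]
  have h2 := hc.sum_mem (t := (Finset.univ : Finset (Fin 3)))
    (w := ![1 - a - b, a, b]) (z := ![0, P, Q])
    (fun i _ => by fin_cases i <;> simp <;> linarith)
    (by simp [Fin.sum_univ_three]; ring)
    (fun i _ => by fin_cases i <;> simp [h0, hmP, hmQ])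
  simpa [Fin.sum_univ_three] using h2

theorem regO_integral {n : ℕ} [NeZero n] (hn : 3 ≤ n) {g : ℂ → ℝ} (hg : Continuous g) :
    ∫ z in regO n, g z = ∑ j ∈ Finset.range n, ∫ z in sec (tauN n), g (omN n ^ j * z) := by
  have hP := cvx_regP hn
  have hsub : (⋃ i : ZMod n, OTr (regP n i) (regP n (i + 1))) ⊆ regO n :=
    interior_maximal (Set.iUnion_subset fun i => Cover_OTr_sub hn i)
      (isOpen_iUnion fun i => isOpen_OTr _ _)
  have hnull : volume (regO n \ ⋃ i : ZMod n, OTr (regP n i) (regP n (i + 1))) = 0 := by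
    have hle : regO n \ ⋃ i : ZMod n, OTr (regP n i) (regP n (i + 1)) ⊆
        ⋃ i : ZMod n, ({z | cr (regP n i) z = 0} ∪ {z | cr (regP n (i + 1)) z = 0} ∪
          {z | cr (regP n i - regP n (i + 1)) z = cr (regP n i) (regP n (i + 1))}) := by
      rintro z ⟨hz1, hz2⟩
      obtain ⟨i, hi⟩ := Set.mem_iUnion.1 (hP.hull_sub hn (interior_subset hz1))
      refine Set.mem_iUnion.2 ⟨i, ?_⟩
      by_contra hcon
      simp only [Set.mem_union, Set.mem_setOf_eq, not_or] at hcon
      obtain ⟨⟨h1, h2⟩, h3⟩ := hcon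
      refine hz2 (Set.mem_iUnion.2 ⟨i, ?_⟩)
      refine ⟨lt_of_le_of_ne hi.1 (Ne.symm h1), lt_of_le_of_ne hi.2.1 ?_,
        lt_of_le_of_ne hi.2.2 ?_⟩
      · rw [cr_swap]
        intro h
        exact h2 (by linarith)
      · intro h
        apply h3
        rw [cr_sub_left, ← h, cr_swap z]
        ring
    refine measure_mono_null hle (measure_iUnion_null fun i => ?_)
    have hpos := hP.pos i
    refine measure_union_null (measure_union_null (Cover_null ?_ 0) (Cover_null ?_ 0))
      (Cover_null ?_ _)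
    · intro h
      rw [h, cr_zero_left] at hpos
      exact lt_irrefl _ hpos
    · intro h
      rw [h, cr_zero_right] at hpos
      exact lt_irrefl _ hpos
    · intro h
      rw [sub_eq_zero] at h
      rw [← h, cr_self] at hpos
      exact lt_irrefl _ hpos
  have hae : regO n =ᵐ[volume] ⋃ i : ZMod n, OTr (regP n i) (regP n (i + 1)) := by
    refine Filter.EventuallyLE.antisymm ?_ hsub.eventuallyLE
    exact ae_le_set.2 hnull
  have hcomp : IsCompact (convexHull ℝ (Set.range (regP n))) :=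
    (Set.finite_range (regP n)).isCompact_convexHull ℝ
  rw [setIntegral_congr_set hae, integral_iUnion_fintype
    (fun i => (isOpen_OTr _ _).measurableSet)]
  · rw [← Cover_sum (fun j => ∫ z in sec (tauN n), g (omN n ^ j * z))]
    refine Finset.sum_congr rfl fun i _ => ?_
    have hnorm : ‖omN n ^ i.val‖ = 1 := by rw [norm_pow, norm_omN, one_pow]
    obtain ⟨c, hc⟩ : ∃ c : Circle, (c : ℂ) = omN n ^ i.val :=
      ⟨⟨omN n ^ i.val, mem_sphere_zero_iff_norm.2 hnorm⟩, rfl⟩
    have him : OTr (regP n i) (regP n (i + 1)) = (rotation c) '' sec (tauN n) := by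
      ext z
      constructor
      · intro hz
        refine ⟨(rotation c).symm z, ?_, (rotation c).apply_symm_apply z⟩
        rw [← Cover_OTr hn i, ← hc, ← rotation_apply, LinearIsometryEquiv.apply_symm_apply]
        exact hz
      · rintro ⟨w, hw, rfl⟩
        rw [rotation_apply, hc, Cover_OTr hn i]
        exact hw
    rw [him, (rotation c).measurePreserving.setIntegral_image_emb
      (rotation c).toHomeomorph.measurableEmbedding]
    refine integral_congr_ae (Filter.Eventually.of_forall fun z => ?_)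
    show g (rotation c z) = g (omN n ^ i.val * z)
    rw [rotation_apply, hc]
  · intro i j hij
    refine (hP.disj hn hij).mono ?_ ?_
    · exact fun z hz => ⟨hz.1, hz.2.1⟩
    · exact fun z hz => ⟨hz.1, hz.2.1⟩
  · intro i
    exact (hg.continuousOn.integrableOn_compact hcomp).mono_set (Cover_OTr_sub hn i)

private theorem Cover_fderiv {u : ℂ → ℝ} (hu : ContDiff ℝ 1 u) (c z v : ℂ) :
    fderiv ℝ (fun z => u (c * z)) z v = fderiv ℝ u (c * z) (c * v) := by
  have h1 : HasFDerivAt u (fderiv ℝ u (c * z)) (c * z) :=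
    ((hu.differentiable one_ne_zero) (c * z)).hasFDerivAt
  have h2 : HasFDerivAt (fun z : ℂ => c * z) (ContinuousLinearMap.mul ℝ ℂ c) z :=
    (ContinuousLinearMap.mul ℝ ℂ c).hasFDerivAt
  have h3 := h1.comp z h2
  have h4 : fderiv ℝ (fun z => u (c * z)) z =
      (fderiv ℝ u (c * z)).comp (ContinuousLinearMap.mul ℝ ℂ c) := h3.fderiv
  rw [h4]
  rfl

theorem grad2_rot {n : ℕ} {u : ℂ → ℝ} (hu : ContDiff ℝ 1 u) (j : ℕ) (z : ℂ) :
    grad2 (fun z => u (omN n ^ j * z)) z = grad2 u (omN n ^ j * z) := by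
  unfold grad2
  rw [Cover_fderiv hu, Cover_fderiv hu]
  have hc := Cover_om n j
  generalize omN n ^ j = c at hc ⊢
  have h1 : c * 1 = c.re • (1 : ℂ) + c.im • Complex.I := by
    rw [mul_one, Complex.real_smul, Complex.real_smul, mul_one]
    exact (Complex.re_add_im c).symm
  have h2 : c * Complex.I = (-c.im) • (1 : ℂ) + c.re • Complex.I := by
    apply Complex.ext <;> simp
  rw [h1, h2, map_add, map_add, map_smul, map_smul, map_smul, map_smul, smul_eq_mul, smul_eq_mul,
    smul_eq_mul, smul_eq_mul]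
  generalize fderiv ℝ u (c * z) 1 = a
  generalize fderiv ℝ u (c * z) Complex.I = b
  have h3 : (c.re * a + c.im * b) ^ 2 + (-c.im * a + c.re * b) ^ 2 =
      (c.re ^ 2 + c.im ^ 2) * (a ^ 2 + b ^ 2) := by ring
  rw [h3, hc, one_mul]

theorem sum_energy {n : ℕ} [NeZero n] (hn : 3 ≤ n) {u : ℂ → ℝ} (hu : ContDiff ℝ 1 u) :
    ∫ z in regO n, grad2 u z =
      ∑ j ∈ Finset.range n, ER (tauN n) (fun z => u (omN n ^ j * z)) := by
  unfold ER
  rw [regO_integral hn (continuous_grad2 hu)]
  apply Finset.sum_congr rfl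
  intro j _
  apply integral_congr_ae
  filter_upwards with z
  exact (grad2_rot hu j z).symm

end Pool.Agent.NGN
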