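import Pool.Agent.NGN.B.Bdn

/-!
# NGN, part B: the regular polygon is strictly convex

`cr (P_i) (P_(i+1))` and `cr (P_(i+1) - P_i) (P_k - P_i)` are invariant under rotation, so it is
enough to look at `i = 0`, where the first is `cr (1 - iτ) (1 + iτ) = 2 τ` and the second is
`2 τ (1 - re P_d)`, `d = k - i`, `re P_d = cos ((2d - 1) π/n) / cos (π/n) < 1` for `d ≠ 0, 1`.
-/

set_option autoImplicit false

noncomputable section

namespace Pool.Agent.NGN


private theorem rg_tau_pos {n : ℕ} (hn : 3 ≤ n) : 0 < tauN n := by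
  unfold tauN
  have hn' : (3 : ℝ) ≤ n := by exact_mod_cast hn
  apply Real.tan_pos_of_pos_of_lt_pi_div_two (by positivity)
  rw [div_lt_div_iff₀ (by linarith) (by norm_num)]
  nlinarith [Real.pi_pos]

private theorem rg_cos_pos {n : ℕ} (hn : 3 ≤ n) : 0 < Real.cos (Real.pi / n) := by
  have hn' : (3 : ℝ) ≤ n := by exact_mod_cast hn
  apply Real.cos_pos_of_mem_Ioo
  constructor
  · have : 0 < Real.pi / n := by positivity
    linarith [Real.pi_pos]
  · rw [div_lt_div_iff₀ (by linarith) (by norm_num)]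
    nlinarith [Real.pi_pos]

/-- `ω = cos (2π/n) + i sin (2π/n)`. -/
private theorem rg_omN_eq (n : ℕ) : omN n =
    ⟨Real.cos (2 * Real.pi / n), Real.sin (2 * Real.pi / n)⟩ := by
  have h : omN n = Complex.exp (((2 * Real.pi / n : ℝ) : ℂ) * Complex.I) := by
    unfold omN
    congr 1
    push_cast
    ring
  rw [h]
  exact Complex.ext (Complex.exp_ofReal_mul_I_re _) (Complex.exp_ofReal_mul_I_im _)

private theorem rg_omN_pow (n k : ℕ) : omN n ^ k =
    ⟨Real.cos (2 * Real.pi * k / n), Real.sin (2 * Real.pi * k / n)⟩ := by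
  have h : omN n ^ k = Complex.exp (((2 * Real.pi * k / n : ℝ) : ℂ) * Complex.I) := by
    unfold omN
    rw [← Complex.exp_nat_mul]
    congr 1
    push_cast
    ring
  rw [h]
  exact Complex.ext (Complex.exp_ofReal_mul_I_re _) (Complex.exp_ofReal_mul_I_im _)

private theorem rg_omN_pow_n {n : ℕ} (hn : n ≠ 0) : omN n ^ n = 1 := by
  have hn' : (n : ℝ) ≠ 0 := by exact_mod_cast hn
  rw [rg_omN_pow, show 2 * Real.pi * n / n = 2 * Real.pi by field_simp]
  apply Complex.ext <;> simp

private theorem rg_omN_pow_mod {n : ℕ} (hn : n ≠ 0) (k : ℕ) : omN n ^ (k % n) = omN n ^ k := by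
  conv_rhs => rw [← Nat.div_add_mod k n, pow_add, pow_mul, rg_omN_pow_n hn, one_pow, one_mul]

private theorem rg_omN_ip (n : ℕ) : ip (omN n) (omN n) = 1 := by
  rw [rg_omN_eq]
  unfold ip
  have := Real.cos_sq_add_sin_sq (2 * Real.pi / n)
  nlinarith

private theorem rg_cr_rot (n : ℕ) (a b : ℂ) : cr (omN n * a) (omN n * b) = cr a b := by
  have h : cr (omN n * a) (omN n * b) = ip (omN n) (omN n) * cr a b := by
    unfold cr ip
    simp only [Complex.mul_re, Complex.mul_im]
    ring
  rw [h, rg_omN_ip, one_mul]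

private theorem rg_cr_rot_pow (n k : ℕ) (a b : ℂ) : cr (omN n ^ k * a) (omN n ^ k * b) = cr a b := by
  induction k with
  | zero => simp
  | succ k ih =>
    rw [pow_succ', mul_assoc, mul_assoc, rg_cr_rot, ih]

section reg

variable {n : ℕ} [NeZero n]

omit [NeZero n] in
private theorem rg_regP_eq (j : ZMod n) : regP n j = omN n ^ j.val * (1 - tauN n * Complex.I) := by
  unfold regP
  ring

private theorem rg_regP_add (i j : ZMod n) : regP n (i + j) = omN n ^ i.val * regP n j := by
  rw [rg_regP_eq, rg_regP_eq, ZMod.val_add, rg_omN_pow_mod (NeZero.ne n), pow_add]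
  ring

omit [NeZero n] in
/-- `ω (1 - i τ) = 1 + i τ`. -/
private theorem rg_omN_mul (hn : 3 ≤ n) : omN n * (1 - tauN n * Complex.I) = 1 + tauN n * Complex.I := by
  have hc := rg_cos_pos hn
  have e : Real.cos (2 * Real.pi / n) = 2 * Real.cos (Real.pi / n) ^ 2 - 1 := by
    rw [← Real.cos_two_mul]; congr 1; ring
  have e' : Real.sin (2 * Real.pi / n) =
      2 * Real.sin (Real.pi / n) * Real.cos (Real.pi / n) := by
    rw [← Real.sin_two_mul]; congr 1; ring
  have h1 := Real.sin_sq_add_cos_sq (Real.pi / n)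
  rw [rg_omN_eq]
  unfold tauN
  rw [Real.tan_eq_sin_div_cos]
  apply Complex.ext
  · simp only [Complex.mul_re, Complex.sub_re, Complex.sub_im, Complex.add_re, Complex.mul_im,
      Complex.one_re, Complex.one_im, Complex.ofReal_re, Complex.ofReal_im, Complex.I_re,
      Complex.I_im]
    rw [e, e']
    field_simp
    nlinarith
  · simp only [Complex.mul_re, Complex.sub_re, Complex.sub_im, Complex.add_im, Complex.mul_im,
      Complex.one_re, Complex.one_im, Complex.ofReal_re, Complex.ofReal_im, Complex.I_re,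
      Complex.I_im]
    rw [e, e']
    field_simp
    have h2 : Real.sin (Real.pi / n) ^ 2 = 1 - Real.cos (Real.pi / n) ^ 2 := by linarith
    ring_nf

omit [NeZero n] in
private theorem rg_regP_zero : regP n 0 = 1 - tauN n * Complex.I := by
  unfold regP
  simp

private theorem rg_regP_one (hn : 3 ≤ n) : regP n 1 = 1 + tauN n * Complex.I := by
  rw [← rg_omN_mul hn, rg_regP_eq]
  have : Fact (1 < n) := ⟨by omega⟩
  rw [ZMod.val_one, pow_one]

private theorem rg_regP_re (hn : 3 ≤ n) (k : ZMod n) :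
    (regP n k).re = Real.cos ((2 * k.val - 1) * Real.pi / n) / Real.cos (Real.pi / n) := by
  have hc := rg_cos_pos hn
  rw [rg_regP_eq, rg_omN_pow]
  unfold tauN
  rw [Real.tan_eq_sin_div_cos]
  simp only [Complex.mul_re, Complex.sub_re, Complex.sub_im, Complex.mul_im,
    Complex.one_re, Complex.one_im, Complex.ofReal_re, Complex.ofReal_im, Complex.I_re,
    Complex.I_im]
  rw [show (2 * (k.val : ℝ) - 1) * Real.pi / n = 2 * Real.pi * k.val / n - Real.pi / n by ring,
    Real.cos_sub]
  field_simp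
  ring

/-- All other vertices are on the left of the line `re = 1`. -/
private theorem rg_regP_re_lt (hn : 3 ≤ n) {k : ZMod n} (h0 : k ≠ 0) (h1 : k ≠ 1) : (regP n k).re < 1 := by
  have hc := rg_cos_pos hn
  have hn' : (3 : ℝ) ≤ n := by exact_mod_cast hn
  have hk : k.val < n := ZMod.val_lt k
  have hk2 : 2 ≤ k.val := by
    by_contra hcon
    have h2 : k.val = 0 ∨ k.val = 1 := by omega
    rcases h2 with h2 | h2
    · exact h0 ((ZMod.val_eq_zero k).1 h2)
    · apply h1
      have : Fact (1 < n) := ⟨by omega⟩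
      apply ZMod.val_injective n
      rw [h2, ZMod.val_one]
  rw [rg_regP_re hn, div_lt_one hc]
  have hkR : (2 : ℝ) ≤ k.val := by exact_mod_cast hk2
  have hkR' : (k.val : ℝ) + 1 ≤ n := by exact_mod_cast hk
  have hpi := Real.pi_pos
  have ha0 : 0 < Real.pi / n := by positivity
  by_cases hle : (2 * (k.val : ℝ) - 1) ≤ n
  · apply Real.cos_lt_cos_of_nonneg_of_le_pi ha0.le
    · rw [div_le_iff₀ (by linarith)]
      nlinarith
    · rw [div_lt_div_iff_of_pos_right (by linarith)]
      nlinarith
  · push Not at hle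
    have e : Real.cos ((2 * (k.val : ℝ) - 1) * Real.pi / n) =
        Real.cos ((2 * n - (2 * (k.val : ℝ) - 1)) * Real.pi / n) := by
      rw [← Real.cos_two_pi_sub]
      congr 1
      field_simp
    rw [e]
    apply Real.cos_lt_cos_of_nonneg_of_le_pi ha0.le
    · rw [div_le_iff₀ (by linarith)]
      nlinarith
    · rw [div_lt_div_iff_of_pos_right (by linarith)]
      nlinarith

private theorem rg_cr_zero_one (hn : 3 ≤ n) : cr (regP n 0) (regP n 1) = 2 * tauN n := by
  rw [rg_regP_zero, rg_regP_one hn]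
  unfold cr
  simp
  ring

end reg

theorem cr_regP {n : ℕ} [NeZero n] (hn : 3 ≤ n) (i : ZMod n) :
    cr (regP n i) (regP n (i + 1)) = 2 * tauN n := by
  have h1 : regP n i = omN n ^ i.val * regP n 0 := by rw [← rg_regP_add, add_zero]
  rw [h1, rg_regP_add, rg_cr_rot_pow, rg_cr_zero_one hn]

theorem cvx_regP {n : ℕ} [NeZero n] (hn : 3 ≤ n) : Cvx (regP n) where
  pos := by
    intro i
    rw [cr_regP hn]
    have := rg_tau_pos hn
    linarith
  left := by
    intro i k h1 h2
    have e1 : regP n i = omN n ^ i.val * regP n 0 := by rw [← rg_regP_add, add_zero]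
    have e2 : regP n k = omN n ^ i.val * regP n (k - i) := by
      rw [← rg_regP_add]; congr 1; ring
    rw [rg_regP_add i 1, e1, e2, ← mul_sub, ← mul_sub, rg_cr_rot_pow, rg_regP_zero,
      rg_regP_one hn]
    have hk0 : k - i ≠ 0 := sub_ne_zero.2 h1
    have hk1 : k - i ≠ 1 := by
      intro h3
      apply h2
      rw [← h3]; ring
    have h4 := rg_regP_re_lt hn hk0 hk1
    have h5 := rg_tau_pos hn
    have e3 : cr (1 + (tauN n : ℂ) * Complex.I - (1 - (tauN n : ℂ) * Complex.I))
        (regP n (k - i) - (1 - (tauN n : ℂ) * Complex.I)) =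
        2 * tauN n * (1 - (regP n (k - i)).re) := by
      unfold cr
      simp
      ring
    rw [e3]
    have : 0 < 1 - (regP n (k - i)).re := by linarith
    positivity

end Pool.Agent.NGN
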