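import Pool.Agent.NGN.Defs

/-!
# NGN, part B: definitions

Blueprint /team-store/NG_blueprint.md, section 3 (LEVELS).
-/

set_option autoImplicit false

noncomputable section

namespace Pool.Agent.NGN

open MeasureTheory

/-- Dirichlet energy of a real function over the sector. -/
def ER (tau : ℝ) (f : ℂ → ℝ) : ℝ := ∫ z in sec tau, grad2 f z

/-- Square integral of a real function over the side of the sector. -/
def MR (tau : ℝ) (f : ℂ → ℝ) : ℝ := ∫ y in (-tau)..tau, (f ⟨1, y⟩) ^ 2

/-- Dirichlet energy of a complex function over the sector. -/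
def EC (tau : ℝ) (f : ℂ → ℂ) : ℝ := ER tau (fun z => (f z).re) + ER tau (fun z => (f z).im)

/-- Square integral of a complex function over the side of the sector. -/
def MC (tau : ℝ) (f : ℂ → ℂ) : ℝ := MR tau (fun z => (f z).re) + MR tau (fun z => (f z).im)

/-- The point with the fan coordinates `x, s`, i.e. `(x, y)` with `y = τ x s`. -/
def pt (tau x s : ℝ) : ℂ := ⟨x, tau * x * s⟩

/-- The derivative of `x ↦ f (pt tau x s)`. -/
def Dx (tau : ℝ) (f : ℂ → ℝ) (x s : ℝ) : ℝ := fderiv ℝ f (pt tau x s) ⟨1, tau * s⟩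

/-- The derivative of `s ↦ f (pt tau x s)`. -/
def Ds (tau : ℝ) (f : ℂ → ℝ) (x s : ℝ) : ℝ := tau * x * fderiv ℝ f (pt tau x s) Complex.I

/-- The Fourier components of `u` with respect to the rotations by `2 π / n`. -/
def um (n : ℕ) (u : ℂ → ℝ) (m : ℕ) (z : ℂ) : ℂ :=
  (1 / n : ℂ) * ∑ j ∈ Finset.range n, (omN n ^ (j * m))⁻¹ * (u (omN n ^ j * z) : ℂ)

end Pool.Agent.NGN
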