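import Pool.Agent.NGN.B.Defs

/-!
# NGN, part B: the root of unity `omN n` and `tauN n`

Elementary facts on `omN n = exp (2 π i / n)` and `tauN n = tan (π / n)`: coordinates, the
rotation of one leg of the sector to the other, the bound `tauN n ≤ 0.72655` for `n ≥ 5` and the
lower bound for `|ω ^ m - 1|`.
-/

set_option autoImplicit false

noncomputable section

namespace Pool.Agent.NGN

private theorem Om_eq (n : ℕ) : omN n = Complex.exp ((2 * Real.pi / n : ℝ) * Complex.I) := by
  unfold omN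
  congr 1
  push_cast
  ring

private theorem Om_half {n : ℕ} : 2 * Real.pi / (n : ℝ) = 2 * (Real.pi / n) := by ring

private theorem Om_lt {n : ℕ} (hn : 3 ≤ n) : Real.pi / n < Real.pi / 2 := by
  have hn' : (3 : ℝ) ≤ n := by exact_mod_cast hn
  exact div_lt_div_of_pos_left Real.pi_pos (by norm_num) (by linarith)

private theorem Om_pos {n : ℕ} (hn : 3 ≤ n) : 0 < Real.pi / n := by
  have hn' : (3 : ℝ) ≤ n := by exact_mod_cast hn
  exact div_pos Real.pi_pos (by linarith)

private theorem Om_cos {n : ℕ} (hn : 3 ≤ n) : 0 < Real.cos (Real.pi / n) :=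
  Real.cos_pos_of_mem_Ioo ⟨by linarith [Om_pos hn, Real.pi_pos], Om_lt hn⟩

private theorem Om_tan (n : ℕ) :
    tauN n = Real.sin (Real.pi / n) / Real.cos (Real.pi / n) := Real.tan_eq_sin_div_cos _

theorem omN_primitive {n : ℕ} (hn : n ≠ 0) : IsPrimitiveRoot (omN n) n := by
  exact Complex.isPrimitiveRoot_exp n hn

theorem norm_omN (n : ℕ) : ‖omN n‖ = 1 := by
  rw [Om_eq, Complex.norm_exp_ofReal_mul_I]

theorem omN_ne_zero (n : ℕ) : omN n ≠ 0 := by
  exact Complex.exp_ne_zero _

theorem conj_omN (n : ℕ) : (starRingEnd ℂ) (omN n) = (omN n)⁻¹ := by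
  rw [Om_eq, ← Complex.exp_conj, ← Complex.exp_neg, map_mul, Complex.conj_ofReal, Complex.conj_I,
    mul_neg]

theorem omN_re {n : ℕ} (hn : 3 ≤ n) : (omN n).re = (1 - tauN n ^ 2) / (1 + tauN n ^ 2) := by
  have hc := Om_cos hn
  rw [Om_eq, Complex.exp_ofReal_mul_I_re, Om_half, Real.cos_two_mul, Om_tan]
  have hs := Real.sin_sq_add_cos_sq (Real.pi / n)
  have hc0 := hc.ne'
  have h1 : 1 + (Real.sin (Real.pi / n) / Real.cos (Real.pi / n)) ^ 2 =
      1 / Real.cos (Real.pi / n) ^ 2 := by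
    field_simp
    linarith
  rw [h1]
  field_simp
  linear_combination hs

theorem omN_im {n : ℕ} (hn : 3 ≤ n) : (omN n).im = 2 * tauN n / (1 + tauN n ^ 2) := by
  have hc := Om_cos hn
  rw [Om_eq, Complex.exp_ofReal_mul_I_im, Om_half, Real.sin_two_mul, Om_tan]
  have hs := Real.sin_sq_add_cos_sq (Real.pi / n)
  have hc0 := hc.ne'
  have h1 : 1 + (Real.sin (Real.pi / n) / Real.cos (Real.pi / n)) ^ 2 =
      1 / Real.cos (Real.pi / n) ^ 2 := by
    field_simp
    linarith
  rw [h1]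
  field_simp

theorem omN_mul {n : ℕ} (hn : 3 ≤ n) :
    (1 - tauN n * Complex.I) * omN n = 1 + tauN n * Complex.I := by
  have h1 := omN_re hn
  have h2 := omN_im hn
  have h3 : (1 : ℝ) + tauN n ^ 2 ≠ 0 := by positivity
  apply Complex.ext
  · simp only [Complex.mul_re, Complex.sub_re, Complex.one_re, Complex.ofReal_re, Complex.I_re,
      mul_zero, Complex.ofReal_im, Complex.I_im, mul_one, sub_zero, Complex.sub_im, Complex.one_im,
      Complex.mul_im, zero_add, add_zero, Complex.add_re, h1, h2]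
    field_simp
    ring
  · simp only [Complex.mul_re, Complex.sub_re, Complex.one_re, Complex.ofReal_re, Complex.I_re,
      mul_zero, Complex.ofReal_im, Complex.I_im, mul_one, sub_zero, Complex.sub_im, Complex.one_im,
      Complex.mul_im, zero_add, add_zero, Complex.add_im, h1, h2]
    field_simp
    ring

theorem leg_rot {n : ℕ} (hn : 3 ≤ n) (x : ℝ) :
    pt (tauN n) x 1 = omN n * pt (tauN n) x (-1) := by
  have h1 := omN_re hn
  have h2 := omN_im hn
  have h3 : (1 : ℝ) + tauN n ^ 2 ≠ 0 := by positivity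
  unfold pt
  apply Complex.ext
  · simp only [Complex.mul_re, h1, h2]
    field_simp
    ring
  · simp only [Complex.mul_im, h1, h2]
    field_simp
    ring

theorem pt_neg (tau x s : ℝ) : pt tau x (-s) = (starRingEnd ℂ) (pt tau x s) := by
  unfold pt
  apply Complex.ext
  · simp
  · simp

theorem pt_zero (tau s : ℝ) : pt tau 0 s = 0 := by
  unfold pt
  apply Complex.ext
  · simp
  · simp

theorem tauN_le5 {n : ℕ} (hn : 5 ≤ n) : tauN n ≤ 72655 / 100000 := by
  have hn' : (5 : ℝ) ≤ n := by exact_mod_cast hn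
  have h5 : Real.tan (Real.pi / n) ≤ Real.tan (Real.pi / 5) := by
    have h1 : Real.pi / n ≤ Real.pi / 5 :=
      div_le_div_of_nonneg_left Real.pi_pos.le (by norm_num) hn'
    rcases h1.eq_or_lt with h2 | h2
    · rw [h2]
    · refine (Real.tan_lt_tan_of_nonneg_of_lt_pi_div_two ?_ ?_ h2).le
      · positivity
      · linarith [Real.pi_pos]
  refine le_trans h5 ?_
  have hc : Real.cos (Real.pi / 5) = (1 + Real.sqrt 5) / 4 := Real.cos_pi_div_five
  have hs := Real.sin_sq_add_cos_sq (Real.pi / 5)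
  have hq : Real.sqrt 5 ^ 2 = 5 := Real.sq_sqrt (by norm_num)
  have hq1 : 2236065 / 1000000 ≤ Real.sqrt 5 := by
    apply Real.le_sqrt_of_sq_le
    norm_num
  have hcpos : 0 < Real.cos (Real.pi / 5) := by
    rw [hc]
    positivity
  have hspos : 0 < Real.sin (Real.pi / 5) :=
    Real.sin_pos_of_pos_of_lt_pi (by positivity) (by linarith [Real.pi_pos])
  rw [Real.tan_eq_sin_div_cos, div_le_iff₀ hcpos]
  have h3 : Real.sin (Real.pi / 5) ^ 2 ≤ (72655 / 100000 * Real.cos (Real.pi / 5)) ^ 2 := by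
    have h4 : Real.sin (Real.pi / 5) ^ 2 = 1 - ((1 + Real.sqrt 5) / 4) ^ 2 := by
      rw [← hc]
      linarith
    rw [h4, hc]
    nlinarith
  exact le_of_sq_le_sq h3 (by positivity)

theorem tauN_pos' {n : ℕ} (hn : 3 ≤ n) : 0 < tauN n := by
  exact Real.tan_pos_of_pos_of_lt_pi_div_two (Om_pos hn) (Om_lt hn)

theorem tau_sq_le_norm {n : ℕ} (hn : 4 ≤ n) {m : ℕ} (h2 : 2 ≤ m) (hm : m + 2 ≤ n) :
    4 * tauN n ^ 2 ≤ ‖omN n ^ m - 1‖ ^ 2 := by
  have hn' : (4 : ℝ) ≤ n := by exact_mod_cast hn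
  have hn0 : (0 : ℝ) < n := by linarith
  have h3 : 3 ≤ n := by omega
  have hpi := Real.pi_pos
  -- the norm
  have e1 : ‖omN n ^ m - 1‖ = 2 * |Real.sin (Real.pi * m / n)| := by
    have e2 : omN n ^ m = Complex.exp (Complex.I * ((2 * (Real.pi * m / n) : ℝ) : ℂ)) := by
      rw [Om_eq, ← Complex.exp_nat_mul]
      congr 1
      push_cast
      ring
    rw [e2, Complex.norm_exp_I_mul_ofReal_sub_one, norm_mul, Real.norm_eq_abs, Real.norm_eq_abs,
      abs_of_pos (by norm_num : (0 : ℝ) < 2)]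
    congr 3
    ring
  -- the sine is at least the one of `2 π / n`
  have hmono : ∀ x : ℝ, 2 * (Real.pi / n) ≤ x → x ≤ Real.pi / 2 →
      Real.sin (2 * (Real.pi / n)) ≤ Real.sin x := by
    intro x h1 h2
    refine Real.sin_le_sin_of_le_of_le_pi_div_two ?_ h2 h1
    have := Om_pos h3
    linarith
  have hm2 : (2 : ℝ) ≤ m := by exact_mod_cast h2
  have hmn : (m : ℝ) + 2 ≤ n := by exact_mod_cast hm
  have e3 : Real.sin (2 * (Real.pi / n)) ≤ Real.sin (Real.pi * m / n) := by
    have h4 : 2 * (Real.pi / n) ≤ Real.pi * m / n := by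
      rw [← mul_div_assoc, div_le_div_iff_of_pos_right hn0]
      nlinarith
    by_cases h5 : Real.pi * m / n ≤ Real.pi / 2
    · exact hmono _ h4 h5
    · push Not at h5
      rw [← Real.sin_pi_sub (Real.pi * m / n)]
      refine hmono _ ?_ (by linarith)
      have h6 : Real.pi - Real.pi * m / n = Real.pi * (n - m) / n := by
        field_simp
      rw [h6, ← mul_div_assoc, div_le_div_iff_of_pos_right hn0]
      nlinarith
  have hτ1 : tauN n ≤ 1 := by
    unfold tauN
    rw [← Real.tan_pi_div_four]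
    have h1 : Real.pi / n ≤ Real.pi / 4 :=
      div_le_div_of_nonneg_left hpi.le (by norm_num) hn'
    rcases h1.eq_or_lt with h7 | h7
    · rw [h7]
    · exact (Real.tan_lt_tan_of_nonneg_of_lt_pi_div_two (by positivity) (by linarith) h7).le
  have hτ0 : 0 < tauN n := tauN_pos' h3
  have e4 : tauN n ≤ Real.sin (2 * (Real.pi / n)) := by
    have h7 := omN_im h3
    rw [Om_eq, Complex.exp_ofReal_mul_I_im, Om_half] at h7
    rw [h7, le_div_iff₀ (by positivity)]
    nlinarith [mul_nonneg hτ0.le (mul_nonneg hτ0.le hτ0.le), mul_pos hτ0 hτ0]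
  have e5 : tauN n ≤ |Real.sin (Real.pi * m / n)| := (e4.trans e3).trans (le_abs_self _)
  rw [e1]
  nlinarith

end Pool.Agent.NGN
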