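import Pool.Agent.NGN.B.Fan
import Pool.Agent.NGN.B.Par
import Pool.Agent.NGN.B.Om

/-!
# NGN, part B: Fourier components with respect to the rotations (blueprint (B1))

PROOF PLAN. `dft_parseval`: expand `‖∑_j ω^(-jm) a_j‖²` (real `a_j`, `conj ω = ω⁻¹`) and use
`∑_{m<n} ω^(m(j-k)) = n` if `j = k`, `0` otherwise (`IsPrimitiveRoot.geom_sum_eq_zero`).
`um_energy`: for `e = 1, I` and fixed `z`: `fderiv (re ∘ um m) z e`, `fderiv (im ∘ um m) z e` are the
real and imaginary parts of `(1/n) ∑_j ω^(-jm) a_j`, `a_j = fderiv (fun z => u (ω^j z)) z e`; then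
`dft_parseval` pointwise and `integral_finset_sum` (integrability: `integrableOn_sec`,
`continuous_grad2`).  `um_mass`: the same with `a_j = u (ω^j z)`.
`um_rot`: shift the index `j` by one, `ω^n = 1`.
-/

set_option autoImplicit false

noncomputable section

namespace Pool.Agent.NGN

open MeasureTheory

private theorem Dft_conj (n k : ℕ) :
    (starRingEnd ℂ) ((omN n ^ k)⁻¹) = omN n ^ k := by
  rw [map_inv₀, map_pow, conj_omN, inv_pow, inv_inv]

private theorem Dft_pow (n : ℕ) (hn : n ≠ 0) : omN n ^ n = 1 := (omN_primitive hn).pow_eq_one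

private theorem Dft_orth {n : ℕ} (hn : n ≠ 0) {j k : ℕ} (hj : j < n) (hk : k < n) :
    ∑ m ∈ Finset.range n, (omN n ^ (j * m))⁻¹ * omN n ^ (k * m) = if j = k then (n : ℂ) else 0 := by
  have hprim := omN_primitive hn
  have hω := omN_ne_zero n
  have hterm : ∀ m, (omN n ^ (j * m))⁻¹ * omN n ^ (k * m) = (omN n ^ k * (omN n ^ j)⁻¹) ^ m := by
    intro m
    rw [mul_pow, inv_pow, ← pow_mul, ← pow_mul, mul_comm]
  simp only [hterm]
  split_ifs with h
  · subst h
    rw [mul_inv_cancel₀ (pow_ne_zero _ hω)]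
    simp
  · set ζ := omN n ^ k * (omN n ^ j)⁻¹ with hζ
    have h1 : ζ ≠ 1 := by
      intro h1
      apply h
      have h2 : omN n ^ k = omN n ^ j := by
        rw [hζ, mul_inv_eq_one₀ (pow_ne_zero _ hω)] at h1
        exact h1
      exact (hprim.pow_inj hk hj h2).symm
    have h2 : ζ ^ n = 1 := by
      rw [hζ, mul_pow, inv_pow, ← pow_mul, ← pow_mul, mul_comm k n, mul_comm j n, pow_mul, pow_mul,
        Dft_pow n hn, one_pow, one_pow]
      simp
    have h3 := mul_geom_sum ζ n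
    rw [h2, sub_self] at h3
    exact (mul_eq_zero.mp h3).resolve_left (sub_ne_zero.mpr h1)

theorem dft_parseval {n : ℕ} (hn : n ≠ 0) (a : ℕ → ℝ) :
    ∑ m ∈ Finset.range n,
        ‖(1 / n : ℂ) * ∑ j ∈ Finset.range n, (omN n ^ (j * m))⁻¹ * (a j : ℂ)‖ ^ 2 =
      (1 / n : ℝ) * ∑ j ∈ Finset.range n, a j ^ 2 := by
  have hn0 : (n : ℂ) ≠ 0 := by exact_mod_cast hn
  have key : ∀ m : ℕ,
      ((‖(1 / n : ℂ) * ∑ j ∈ Finset.range n, (omN n ^ (j * m))⁻¹ * (a j : ℂ)‖ ^ 2 : ℝ) : ℂ) =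
      (1 / n : ℂ) * (1 / n) * ∑ j ∈ Finset.range n, ∑ k ∈ Finset.range n,
        ((a j : ℂ) * (a k : ℂ)) * ((omN n ^ (j * m))⁻¹ * omN n ^ (k * m)) := by
    intro m
    have h1 := Complex.mul_conj' ((1 / n : ℂ) * ∑ j ∈ Finset.range n,
      (omN n ^ (j * m))⁻¹ * (a j : ℂ))
    push_cast
    rw [← h1, map_mul, map_sum]
    have h2 : (starRingEnd ℂ) (1 / n : ℂ) = 1 / n := by simp
    have h3 : ∀ k ∈ Finset.range n, (starRingEnd ℂ) ((omN n ^ (k * m))⁻¹ * (a k : ℂ)) =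
        omN n ^ (k * m) * (a k : ℂ) := by
      intro k _
      rw [map_mul, Dft_conj, Complex.conj_ofReal]
    rw [h2, Finset.sum_congr rfl h3, mul_mul_mul_comm, Finset.sum_mul_sum]
    congr 1
    refine Finset.sum_congr rfl fun j _ => Finset.sum_congr rfl fun k _ => ?_
    ring
  have h4 : ((∑ m ∈ Finset.range n,
        ‖(1 / n : ℂ) * ∑ j ∈ Finset.range n, (omN n ^ (j * m))⁻¹ * (a j : ℂ)‖ ^ 2 : ℝ) : ℂ) =
      (((1 / n : ℝ) * ∑ j ∈ Finset.range n, a j ^ 2 : ℝ) : ℂ) := by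
    rw [Complex.ofReal_sum, Finset.sum_congr rfl fun m _ => key m, ← Finset.mul_sum,
      Finset.sum_comm]
    have h5 : ∀ j ∈ Finset.range n, ∑ m ∈ Finset.range n, ∑ k ∈ Finset.range n,
        ((a j : ℂ) * (a k : ℂ)) * ((omN n ^ (j * m))⁻¹ * omN n ^ (k * m)) =
        (n : ℂ) * (a j : ℂ) ^ 2 := by
      intro j hj
      rw [Finset.sum_comm]
      have h6 : ∀ k ∈ Finset.range n, ∑ m ∈ Finset.range n,
          ((a j : ℂ) * (a k : ℂ)) * ((omN n ^ (j * m))⁻¹ * omN n ^ (k * m)) =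
          if j = k then (n : ℂ) * (a j : ℂ) ^ 2 else 0 := by
        intro k hk
        rw [← Finset.mul_sum, Dft_orth hn (Finset.mem_range.mp hj) (Finset.mem_range.mp hk)]
        split_ifs with h
        · rw [h]; ring
        · ring
      rw [Finset.sum_congr rfl h6, Finset.sum_ite_eq, if_pos hj]
    rw [Finset.sum_congr rfl h5, ← Finset.mul_sum]
    push_cast
    field_simp
  exact_mod_cast h4

private theorem Dft_F {u : ℂ → ℝ} (hu : ContDiff ℝ 1 u) (w : ℂ) :
    ContDiff ℝ 1 fun z => u (w * z) :=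
  hu.comp (contDiff_const.mul contDiff_id)

theorem um_contDiff {n : ℕ} {u : ℂ → ℝ} (hu : ContDiff ℝ 1 u) (m : ℕ) :
    ContDiff ℝ 1 (um n u m) := by
  unfold um
  refine contDiff_const.mul (ContDiff.sum fun j _ => contDiff_const.mul ?_)
  exact Complex.ofRealCLM.contDiff.comp (Dft_F hu (omN n ^ j))

theorem um_rot {n : ℕ} (hn : n ≠ 0) (u : ℂ → ℝ) (m : ℕ) (z : ℂ) :
    um n u m (omN n * z) = omN n ^ m * um n u m z := by
  unfold um
  have hω := omN_ne_zero n
  set g : ℕ → ℂ := fun j => (omN n ^ (j * m))⁻¹ * (u (omN n ^ j * z) : ℂ) with hg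
  have h1 : ∀ j ∈ Finset.range n,
      (omN n ^ (j * m))⁻¹ * (u (omN n ^ j * (omN n * z)) : ℂ) = omN n ^ m * g (j + 1) := by
    intro j _
    have e1 : omN n ^ j * (omN n * z) = omN n ^ (j + 1) * z := by ring
    have e2 : omN n ^ m * (omN n ^ ((j + 1) * m))⁻¹ = (omN n ^ (j * m))⁻¹ := by
      have h0 : omN n ^ ((j + 1) * m) = omN n ^ (j * m) * omN n ^ m := by
        rw [← pow_add]; congr 1; ring
      rw [h0, mul_inv, mul_comm (omN n ^ (j * m))⁻¹, ← mul_assoc,
        mul_inv_cancel₀ (pow_ne_zero _ hω), one_mul]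
    simp only [hg]
    rw [e1, ← mul_assoc, e2]
  have h2 : ∑ j ∈ Finset.range n, g (j + 1) = ∑ j ∈ Finset.range n, g j := by
    have h3 := Finset.sum_range_succ g n
    have h4 := Finset.sum_range_succ' g n
    have h5 : g n = g 0 := by
      simp only [hg]
      rw [pow_mul, Dft_pow n hn]
      simp
    rw [h3, h5] at h4
    exact (add_right_cancel h4).symm
  rw [Finset.sum_congr rfl h1, ← Finset.mul_sum, h2]
  ring

/-- The components `m` and `n - m` are conjugate to each other. -/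
theorem um_conj {n : ℕ} (hn : n ≠ 0) (u : ℂ → ℝ) {m : ℕ} (hm : m ≤ n) (z : ℂ) :
    um n u (n - m) z = (starRingEnd ℂ) (um n u m z) := by
  unfold um
  have hω := omN_ne_zero n
  rw [map_mul, map_sum]
  have h2 : (starRingEnd ℂ) (1 / n : ℂ) = 1 / n := by simp
  rw [h2]
  congr 1
  refine Finset.sum_congr rfl fun j _ => ?_
  rw [map_mul, Dft_conj, Complex.conj_ofReal]
  congr 1
  have h3 : omN n ^ (j * (n - m)) * omN n ^ (j * m) = 1 := by
    rw [← pow_add, ← Nat.mul_add, Nat.sub_add_cancel hm, mul_comm, pow_mul, Dft_pow n hn, one_pow]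
  exact inv_eq_of_mul_eq_one_right h3

/-- The component `0` is real. -/
theorem um_zero {n : ℕ} (u : ℂ → ℝ) (z : ℂ) :
    um n u 0 z = (((1 / n : ℝ) * ∑ j ∈ Finset.range n, u (omN n ^ j * z) : ℝ) : ℂ) := by
  unfold um
  push_cast
  simp

private theorem Dft_deriv {n : ℕ} {u : ℂ → ℝ} (hu : ContDiff ℝ 1 u) (m : ℕ) (z : ℂ) (e : ℂ) :
    fderiv ℝ (fun z => (um n u m z).re) z e =
      ((1 / n : ℂ) * ∑ j ∈ Finset.range n, (omN n ^ (j * m))⁻¹ *
        ((fderiv ℝ (fun z => u (omN n ^ j * z)) z e : ℝ) : ℂ)).re ∧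
    fderiv ℝ (fun z => (um n u m z).im) z e =
      ((1 / n : ℂ) * ∑ j ∈ Finset.range n, (omN n ^ (j * m))⁻¹ *
        ((fderiv ℝ (fun z => u (omN n ^ j * z)) z e : ℝ) : ℂ)).im := by
  have hF : ∀ j, HasFDerivAt (fun z => ((u (omN n ^ j * z) : ℝ) : ℂ))
      (Complex.ofRealCLM.comp (fderiv ℝ (fun z => u (omN n ^ j * z)) z)) z := fun j =>
    Complex.ofRealCLM.hasFDerivAt.comp z
      (((Dft_F hu (omN n ^ j)).differentiable (by norm_num)) z).hasFDerivAt
  have h1 : HasFDerivAt (um n u m) ((1 / n : ℂ) • ∑ j ∈ Finset.range n, (omN n ^ (j * m))⁻¹ •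
      (Complex.ofRealCLM.comp (fderiv ℝ (fun z => u (omN n ^ j * z)) z))) z := by
    unfold um
    exact (HasFDerivAt.fun_sum fun j _ => (hF j).const_mul ((omN n ^ (j * m))⁻¹)).const_mul _
  have hre := Complex.reCLM.hasFDerivAt.comp z h1
  have him := Complex.imCLM.hasFDerivAt.comp z h1
  have e1 : (fun z => (um n u m z).re) = Complex.reCLM ∘ (um n u m) := rfl
  have e2 : (fun z => (um n u m z).im) = Complex.imCLM ∘ (um n u m) := rfl
  constructor
  · rw [e1, hre.fderiv]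
    simp
  · rw [e2, him.fderiv]
    simp

private theorem Dft_pt {n : ℕ} (hn : n ≠ 0) {u : ℂ → ℝ} (hu : ContDiff ℝ 1 u) (z : ℂ) :
    ∑ m ∈ Finset.range n,
      (grad2 (fun z => (um n u m z).re) z + grad2 (fun z => (um n u m z).im) z) =
      (1 / n : ℝ) * ∑ j ∈ Finset.range n, grad2 (fun z => u (omN n ^ j * z)) z := by
  have hsq : ∀ w : ℂ, w.re ^ 2 + w.im ^ 2 = ‖w‖ ^ 2 := fun w => by
    rw [← Complex.normSq_eq_norm_sq, Complex.normSq_apply]; ring
  have h1 : ∀ m ∈ Finset.range n,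
      grad2 (fun z => (um n u m z).re) z + grad2 (fun z => (um n u m z).im) z =
      ‖(1 / n : ℂ) * ∑ j ∈ Finset.range n, (omN n ^ (j * m))⁻¹ *
        ((fderiv ℝ (fun z => u (omN n ^ j * z)) z 1 : ℝ) : ℂ)‖ ^ 2 +
      ‖(1 / n : ℂ) * ∑ j ∈ Finset.range n, (omN n ^ (j * m))⁻¹ *
        ((fderiv ℝ (fun z => u (omN n ^ j * z)) z Complex.I : ℝ) : ℂ)‖ ^ 2 := by
    intro m _
    unfold grad2
    rw [(Dft_deriv hu m z 1).1, (Dft_deriv hu m z 1).2, (Dft_deriv hu m z Complex.I).1,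
      (Dft_deriv hu m z Complex.I).2, ← hsq, ← hsq]
    ring
  rw [Finset.sum_congr rfl h1, Finset.sum_add_distrib,
    dft_parseval hn (fun j => fderiv ℝ (fun z => u (omN n ^ j * z)) z 1),
    dft_parseval hn (fun j => fderiv ℝ (fun z => u (omN n ^ j * z)) z Complex.I), ← mul_add,
    ← Finset.sum_add_distrib]
  rfl

theorem um_energy {n : ℕ} (hn : n ≠ 0) {tau : ℝ} (ht : 0 < tau) {u : ℂ → ℝ}
    (hu : ContDiff ℝ 1 u) :
    ∑ m ∈ Finset.range n, EC tau (um n u m) =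
      (1 / n : ℝ) * ∑ j ∈ Finset.range n, ER tau (fun z => u (omN n ^ j * z)) := by
  have hre : ∀ m, ContDiff ℝ 1 fun z => (um n u m z).re := fun m =>
    Complex.reCLM.contDiff.comp (um_contDiff hu m)
  have him : ∀ m, ContDiff ℝ 1 fun z => (um n u m z).im := fun m =>
    Complex.imCLM.contDiff.comp (um_contDiff hu m)
  have i1 : ∀ m, IntegrableOn (grad2 fun z => (um n u m z).re) (sec tau) := fun m =>
    integrableOn_sec ht (continuous_grad2 (hre m))
  have i2 : ∀ m, IntegrableOn (grad2 fun z => (um n u m z).im) (sec tau) := fun m =>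
    integrableOn_sec ht (continuous_grad2 (him m))
  have i3 : ∀ j, IntegrableOn (grad2 fun z => u (omN n ^ j * z)) (sec tau) := fun j =>
    integrableOn_sec ht (continuous_grad2 (Dft_F hu _))
  unfold EC ER
  have h1 : ∀ m ∈ Finset.range n,
      (∫ z in sec tau, grad2 (fun z => (um n u m z).re) z) +
        (∫ z in sec tau, grad2 (fun z => (um n u m z).im) z) =
      ∫ z in sec tau, (grad2 (fun z => (um n u m z).re) z +
        grad2 (fun z => (um n u m z).im) z) := fun m _ => (integral_add (i1 m) (i2 m)).symm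
  have i12 : ∀ m, IntegrableOn (fun z => grad2 (fun z => (um n u m z).re) z +
      grad2 (fun z => (um n u m z).im) z) (sec tau) := fun m => (i1 m).add (i2 m)
  rw [Finset.sum_congr rfl h1, ← integral_finsetSum _ fun m _ => i12 m,
    ← integral_finsetSum _ fun j _ => i3 j, ← integral_const_mul]
  exact integral_congr_ae (Filter.Eventually.of_forall fun z => Dft_pt hn hu z)

theorem um_mass {n : ℕ} (hn : n ≠ 0) {tau : ℝ} (ht : 0 < tau) {u : ℂ → ℝ}
    (hu : ContDiff ℝ 1 u) :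
    ∑ m ∈ Finset.range n, MC tau (um n u m) =
      (1 / n : ℝ) * ∑ j ∈ Finset.range n, MR tau (fun z => u (omN n ^ j * z)) := by
  have hside : Continuous fun y : ℝ => (⟨1, y⟩ : ℂ) := by
    have : (fun y : ℝ => (⟨1, y⟩ : ℂ)) = fun y : ℝ => (1 : ℂ) + (y : ℂ) * Complex.I := by
      funext y
      apply Complex.ext <;> simp
    rw [this]
    fun_prop
  have hsq : ∀ w : ℂ, w.re ^ 2 + w.im ^ 2 = ‖w‖ ^ 2 := fun w => by
    rw [← Complex.normSq_eq_norm_sq, Complex.normSq_apply]; ring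
  have c0 : ∀ m, Continuous fun y : ℝ => um n u m ⟨1, y⟩ := fun m =>
    (um_contDiff hu m).continuous.comp hside
  have i1 : ∀ m, IntervalIntegrable (fun y : ℝ => ((um n u m ⟨1, y⟩).re) ^ 2) volume
      (-tau) tau := fun m =>
    ((Complex.continuous_re.comp (c0 m)).pow 2).intervalIntegrable _ _
  have i2 : ∀ m, IntervalIntegrable (fun y : ℝ => ((um n u m ⟨1, y⟩).im) ^ 2) volume
      (-tau) tau := fun m =>
    ((Complex.continuous_im.comp (c0 m)).pow 2).intervalIntegrable _ _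
  have i3 : ∀ j, IntervalIntegrable (fun y : ℝ => (u (omN n ^ j * ⟨1, y⟩)) ^ 2) volume
      (-tau) tau := fun j =>
    (((Dft_F hu _).continuous.comp hside).pow 2).intervalIntegrable _ _
  unfold MC MR
  have h1 : ∀ m ∈ Finset.range n,
      (∫ y in (-tau)..tau, ((um n u m ⟨1, y⟩).re) ^ 2) +
        (∫ y in (-tau)..tau, ((um n u m ⟨1, y⟩).im) ^ 2) =
      ∫ y in (-tau)..tau, (((um n u m ⟨1, y⟩).re) ^ 2 + ((um n u m ⟨1, y⟩).im) ^ 2) :=
    fun m _ => (intervalIntegral.integral_add (i1 m) (i2 m)).symm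
  rw [Finset.sum_congr rfl h1,
    ← intervalIntegral.integral_finsetSum fun m _ => (i1 m).add (i2 m),
    ← intervalIntegral.integral_finsetSum fun j _ => i3 j,
    ← intervalIntegral.integral_const_mul]
  apply intervalIntegral.integral_congr
  intro y _
  have h2 : ∀ m ∈ Finset.range n,
      ((um n u m ⟨1, y⟩).re) ^ 2 + ((um n u m ⟨1, y⟩).im) ^ 2 =
      ‖(1 / n : ℂ) * ∑ j ∈ Finset.range n, (omN n ^ (j * m))⁻¹ *
        ((u (omN n ^ j * ⟨1, y⟩) : ℝ) : ℂ)‖ ^ 2 := fun m _ => hsq _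
  simp only
  rw [Finset.sum_congr rfl h2, dft_parseval hn (fun j => u (omN n ^ j * ⟨1, y⟩))]

end Pool.Agent.NGN
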