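import Pool.Agent.NGN.B.Fan
import Pool.Agent.NGN.B.Par

/-!
# NGN, part B: divergence theorem on the sector

PROOF PLAN. `hom_div`: a homogeneous field `(x^(N-1) A(s), x^(N-1) B(s))` at `pt tau x s`
(`y = τ x s`), integer `N ≥ 1`.  With `f_x = Dx - s/x Ds`, `f_y = Ds/(τ x)` (for `x ≠ 0`) the
integrand of `sec_integral` is
`x * x^(N-1) ∫ (A f_x + B f_y) = x^N ∫ A Dx + x^(N-1) ∫ (B/τ - s A) Ds`,
the first term is `(d/dx) (x^N ∫ A f) - N x^(N-1) ∫ A f` (`hasDerivAt_level`) and the second is
`x^(N-1) ([ (B/τ - s A) f ] - ∫ (B/τ - s A)' f)` (integration by parts in `s`,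
`hasDerivAt_pt_s`), where `N A + (B/τ - s A)' = 0` (hypothesis `hdiv`: `C = B/τ - s A`).
Result: `∫_sec = τ ∫ A(s) f(pt tau 1 s) ds + τ ∫_0^1 x^(N-1) (C(1) f(pt tau x 1) - C(-1) f(pt tau x (-1))) dx`
(the value of `x^N ∫ A f` at `0` is `0`).
`A`, `B`, `C` are polynomials in the applications.
-/

set_option autoImplicit false

noncomputable section

namespace Pool.Agent.NGN

open MeasureTheory

theorem hom_div {tau : ℝ} (ht : 0 < tau) {f : ℂ → ℝ} (hf : ContDiff ℝ 1 f) {N : ℕ}
    (hN : 1 ≤ N) {A B C : ℝ → ℝ} (hA : Continuous A) (hB : Continuous B)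
    (hC : ∀ s, C s = B s / tau - s * A s) (hdiv : ∀ s, HasDerivAt C (-(N * A s)) s)
    {Q1 Q2 : ℂ → ℝ} (c1 : Continuous Q1) (c2 : Continuous Q2)
    (hQ1 : ∀ x s, 0 < x → Q1 (pt tau x s) = x ^ (N - 1) * A s)
    (hQ2 : ∀ x s, 0 < x → Q2 (pt tau x s) = x ^ (N - 1) * B s) :
    ∫ z in sec tau, (Q1 z * fderiv ℝ f z 1 + Q2 z * fderiv ℝ f z Complex.I) =
      tau * (∫ s in (-1 : ℝ)..1, A s * f (pt tau 1 s)) +
      tau * ∫ x in (0 : ℝ)..1, x ^ (N - 1) * (C 1 * f (pt tau x 1) - C (-1) * f (pt tau x (-1))) := by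
  have hτ : tau ≠ 0 := ht.ne'
  have hfd : Continuous fun z => fderiv ℝ f z := hf.continuous_fderiv one_ne_zero
  have hg : Continuous fun z => Q1 z * fderiv ℝ f z 1 + Q2 z * fderiv ℝ f z Complex.I :=
    (c1.mul (hfd.clm_apply continuous_const)).add (c2.mul (hfd.clm_apply continuous_const))
  rw [sec_integral ht hg]
  -- continuity of the level functions
  have cAf : Continuous (Function.uncurry fun x s : ℝ => A s * f (pt tau x s)) :=
    (hA.comp continuous_snd).mul (hf.continuous.comp continuous_pt)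
  have cAD : Continuous (Function.uncurry fun x s : ℝ => A s * Dx tau f x s) :=
    (hA.comp continuous_snd).mul (continuous_Dx hf)
  have hCc : Continuous C := continuous_iff_continuousAt.2 fun s => (hdiv s).continuousAt
  have cCD : Continuous (Function.uncurry fun x s : ℝ => C s * Ds tau f x s) :=
    (hCc.comp continuous_snd).mul (continuous_Ds hf)
  have cs : ∀ x : ℝ, Continuous fun s : ℝ => (x, s) := fun x => continuous_const.prodMk continuous_id
  have cx : ∀ s : ℝ, Continuous fun x : ℝ => (x, s) := fun s => continuous_id.prodMk continuous_const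
  -- the levels
  have e1 : ∀ x : ℝ, 0 < x → x * (∫ s in (-1 : ℝ)..1, (Q1 (pt tau x s) * fderiv ℝ f (pt tau x s) 1 +
      Q2 (pt tau x s) * fderiv ℝ f (pt tau x s) Complex.I)) =
      (N * x ^ (N - 1) * (∫ s in (-1 : ℝ)..1, A s * f (pt tau x s)) +
        x ^ N * ∫ s in (-1 : ℝ)..1, A s * Dx tau f x s) +
      x ^ (N - 1) * (C 1 * f (pt tau x 1) - C (-1) * f (pt tau x (-1))) := by
    intro x hx
    have hN' : x ^ N = x * x ^ (N - 1) := by
      rw [← pow_succ', Nat.sub_add_cancel hN]
    have h1 : ∀ s : ℝ, Q1 (pt tau x s) * fderiv ℝ f (pt tau x s) 1 +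
        Q2 (pt tau x s) * fderiv ℝ f (pt tau x s) Complex.I =
        x ^ (N - 1) * (A s * Dx tau f x s) + x ^ (N - 1) * x⁻¹ * (C s * Ds tau f x s) := by
      intro s
      have h2 : Dx tau f x s = fderiv ℝ f (pt tau x s) 1 +
          tau * s * fderiv ℝ f (pt tau x s) Complex.I := by
        unfold Dx
        have h3 : (⟨1, tau * s⟩ : ℂ) = (1 : ℂ) + (tau * s) • Complex.I := by
          apply Complex.ext <;> simp
        rw [h3, map_add, map_smul, smul_eq_mul]
      rw [hQ1 x s hx, hQ2 x s hx, h2, hC s]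
      unfold Ds
      field_simp
      ring
    rw [intervalIntegral.integral_congr (fun s _ => h1 s), intervalIntegral.integral_add,
      intervalIntegral.integral_const_mul, intervalIntegral.integral_const_mul]
    · have h4 : ∫ s in (-1 : ℝ)..1, C s * Ds tau f x s =
          C 1 * f (pt tau x 1) - C (-1) * f (pt tau x (-1)) +
            N * ∫ s in (-1 : ℝ)..1, A s * f (pt tau x s) := by
        have h5 := intervalIntegral.integral_mul_deriv_eq_deriv_mul (a := -1) (b := 1)
          (u := C) (v := fun s => f (pt tau x s)) (u' := fun s => -(N * A s))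
          (v' := fun s => Ds tau f x s) (fun s _ => hdiv s) (fun s _ => hasDerivAt_pt_s hf x s)
          ((continuous_const.mul hA).neg.intervalIntegrable _ _)
          (((continuous_Ds hf).comp (cs x)).intervalIntegrable _ _)
        rw [h5, sub_eq_add_neg, ← intervalIntegral.integral_neg,
          ← intervalIntegral.integral_const_mul]
        congr 1
        refine intervalIntegral.integral_congr fun s _ => ?_
        show -(-(N * A s) * f (pt tau x s)) = N * (A s * f (pt tau x s))
        ring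
      rw [h4, hN']
      field_simp
      ring
    · exact (continuous_const.mul (cAD.comp (cs x))).intervalIntegrable _ _
    · exact (continuous_const.mul (cCD.comp (cs x))).intervalIntegrable _ _
  have e2 : ∫ x in (0 : ℝ)..1, x * (∫ s in (-1 : ℝ)..1, (Q1 (pt tau x s) *
      fderiv ℝ f (pt tau x s) 1 + Q2 (pt tau x s) * fderiv ℝ f (pt tau x s) Complex.I)) =
      ∫ x in (0 : ℝ)..1, ((N * x ^ (N - 1) * (∫ s in (-1 : ℝ)..1, A s * f (pt tau x s)) +
        x ^ N * ∫ s in (-1 : ℝ)..1, A s * Dx tau f x s) +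
      x ^ (N - 1) * (C 1 * f (pt tau x 1) - C (-1) * f (pt tau x (-1)))) := by
    refine intervalIntegral.integral_congr_ae (Filter.Eventually.of_forall fun x hx => ?_)
    rw [Set.uIoc_of_le zero_le_one] at hx
    exact e1 x hx.1
  have c3 : Continuous fun x : ℝ => N * x ^ (N - 1) * (∫ s in (-1 : ℝ)..1, A s * f (pt tau x s)) +
        x ^ N * ∫ s in (-1 : ℝ)..1, A s * Dx tau f x s :=
    ((continuous_const.mul (continuous_pow _)).mul (continuous_level cAf)).add
      ((continuous_pow _).mul (continuous_level cAD))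
  have c4 : Continuous fun x : ℝ =>
      x ^ (N - 1) * (C 1 * f (pt tau x 1) - C (-1) * f (pt tau x (-1))) := by
    refine (continuous_pow _).mul ((continuous_const.mul ?_).sub (continuous_const.mul ?_))
    · exact hf.continuous.comp (continuous_pt.comp (cx 1))
    · exact hf.continuous.comp (continuous_pt.comp (cx (-1)))
  rw [e2, intervalIntegral.integral_add (c3.intervalIntegrable _ _) (c4.intervalIntegrable _ _),
    mul_add]
  congr 2
  have h6 : ∀ x : ℝ, HasDerivAt (fun x : ℝ => x ^ N * ∫ s in (-1 : ℝ)..1, A s * f (pt tau x s))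
      (N * x ^ (N - 1) * (∫ s in (-1 : ℝ)..1, A s * f (pt tau x s)) +
        x ^ N * ∫ s in (-1 : ℝ)..1, A s * Dx tau f x s) x :=
    fun x => (hasDerivAt_pow N x).mul (hasDerivAt_level hf hA x)
  rw [intervalIntegral.integral_eq_sub_of_hasDerivAt (fun x _ => h6 x)
    (c3.intervalIntegrable _ _)]
  simp only [one_pow, one_mul]
  rw [zero_pow (by omega), zero_mul, sub_zero]

end Pool.Agent.NGN
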