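import Pool.Agent.NGN.B.Div

/-!
# NGN, part B: the estimate (F1) and the mean of the divergence

PROOF PLAN. `mean_div`: `hom_div` with `N = 1`: for `v1`: `A = 1, B = 0, C s = -s`; for `v2`:
`A = 0, B = 1, C = 1/τ`.  The boundary terms cancel because of `leg` and
`pt tau x (-1) = conj (pt tau x 1)`.
`F1`: `hom_div` with `N = n` for
`v1`: `A = k, B s = -k (n-1) τ s, C s = -k n s`, `k = -τ²/3`
      (`Q1 z = k * z.re ^ (n-1)`, `Q2 z = -k (n-1) * z.re ^ (n-2) * z.im`),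
`v2`: `A s = τ s, B s = g - (n-2)/2 τ² s², C s = g/τ - n/2 τ s²`, `g = n τ²/6`
      (`Q1 z = z.re ^ (n-2) * z.im`, `Q2 z = g * z.re ^ (n-1) - (n-2)/2 * z.re ^ (n-3) * z.im ^ 2`).
The boundary terms over `s = ± 1` cancel (`C₁(1) v1 - C₁(-1) v1 = (2 n τ²/3) v1(x,1)`,
`C₂(1) v2 - C₂(-1) v2 = -(2 n τ/3) v2(x,1)`), the side gives `τ k ∫ v1 = 0` and
`τ ∫ τ s v2 = ∫ y v2 ⟨1,y⟩` (`side_integral`).  So `l = ∫_sec Q : Dv`, Cauchy-Schwarz
(integrate `|Dv - t Q|² ≥ 0`) with `∫_sec |Q|² = τ^3/n * κ` (`sec_integral`: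
`τ/(2n) ∫ (A₁²+B₁²+A₂²+B₂²) ds`, `∫_0^1 x^(2n-1) dx = 1/(2n)`).
-/

set_option autoImplicit false

noncomputable section

namespace Pool.Agent.NGN

open MeasureTheory

private theorem F1_cont {f : ℂ → ℝ} (hf : ContDiff ℝ 1 f) (v : ℂ) :
    Continuous fun z => fderiv ℝ f z v :=
  (hf.continuous_fderiv (by norm_num)).clm_apply continuous_const

private theorem F1_pt (tau x : ℝ) : pt tau x (-1) = (starRingEnd ℂ) (pt tau x 1) := by
  apply Complex.ext
  · simp [pt]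
  · simp [pt]

private theorem F1_int (a b c : ℝ) :
    ∫ s in (-1 : ℝ)..1, (a + b * s ^ 2 + c * s ^ 4) = 2 * a + 2 / 3 * b + 2 / 5 * c := by
  have h : ∀ s ∈ Set.uIcc (-1 : ℝ) 1,
      HasDerivAt (fun s : ℝ => a * s + b * (s ^ 3 / 3) + c * (s ^ 5 / 5))
        (a + b * s ^ 2 + c * s ^ 4) s := by
    intro s _
    have h1 := (hasDerivAt_id s).const_mul a
    have h3 := ((hasDerivAt_pow 3 s).div_const 3).const_mul b
    have h5 := ((hasDerivAt_pow 5 s).div_const 5).const_mul c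
    have h6 := (h1.add h3).add h5
    refine h6.congr_deriv ?_
    push_cast
    ring
  rw [intervalIntegral.integral_eq_sub_of_hasDerivAt h
    ((by fun_prop : Continuous fun s : ℝ => a + b * s ^ 2 + c * s ^ 4).intervalIntegrable _ _)]
  ring

private theorem F1_cs {tau : ℝ} (h0 : 0 < tau) {D1 D2 D3 D4 Q1 Q2 Q3 Q4 : ℂ → ℝ}
    (d1 : Continuous D1) (d2 : Continuous D2) (d3 : Continuous D3) (d4 : Continuous D4)
    (q1 : Continuous Q1) (q2 : Continuous Q2) (q3 : Continuous Q3) (q4 : Continuous Q4)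
    {P : ℝ} (hP : 0 < P)
    (hPi : ∫ z in sec tau, (Q1 z ^ 2 + Q2 z ^ 2 + (Q3 z ^ 2 + Q4 z ^ 2)) = P) :
    (∫ z in sec tau, ((Q1 z * D1 z + Q2 z * D2 z) + (Q3 z * D3 z + Q4 z * D4 z))) ^ 2 ≤
      P * ∫ z in sec tau, (D1 z ^ 2 + D2 z ^ 2 + (D3 z ^ 2 + D4 z ^ 2)) := by
  obtain ⟨l, hl⟩ : ∃ l : ℝ, l =
    ∫ z in sec tau, ((Q1 z * D1 z + Q2 z * D2 z) + (Q3 z * D3 z + Q4 z * D4 z)) := ⟨_, rfl⟩
  obtain ⟨E, hE⟩ : ∃ E : ℝ, E =
    ∫ z in sec tau, (D1 z ^ 2 + D2 z ^ 2 + (D3 z ^ 2 + D4 z ^ 2)) := ⟨_, rfl⟩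
  rw [← hl, ← hE]
  have key : ∀ t : ℝ, 0 ≤ E + (-(2 * t)) * l + t ^ 2 * P := by
    intro t
    have i1 : IntegrableOn (fun z => D1 z ^ 2 + D2 z ^ 2 + (D3 z ^ 2 + D4 z ^ 2)) (sec tau) :=
      integrableOn_sec h0 (by fun_prop)
    have i2 : IntegrableOn (fun z => (-(2 * t)) * ((Q1 z * D1 z + Q2 z * D2 z) +
        (Q3 z * D3 z + Q4 z * D4 z))) (sec tau) :=
      integrableOn_sec h0 (by fun_prop)
    have i3 : IntegrableOn (fun z => t ^ 2 * (Q1 z ^ 2 + Q2 z ^ 2 + (Q3 z ^ 2 + Q4 z ^ 2)))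
        (sec tau) :=
      integrableOn_sec h0 (by fun_prop)
    have i4 : IntegrableOn (fun z => D1 z ^ 2 + D2 z ^ 2 + (D3 z ^ 2 + D4 z ^ 2) +
        (-(2 * t)) * ((Q1 z * D1 z + Q2 z * D2 z) + (Q3 z * D3 z + Q4 z * D4 z))) (sec tau) :=
      i1.add i2
    have e : ∫ z in sec tau, ((D1 z - t * Q1 z) ^ 2 + (D2 z - t * Q2 z) ^ 2 +
        (D3 z - t * Q3 z) ^ 2 + (D4 z - t * Q4 z) ^ 2) = E + (-(2 * t)) * l + t ^ 2 * P := by
      rw [hE, hl, ← hPi, ← integral_const_mul, ← integral_const_mul, ← integral_add i1 i2,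
        ← integral_add i4 i3]
      congr 1
      funext z
      ring
    rw [← e]
    exact integral_nonneg fun z => by positivity
  have h1 := key (l / P)
  have h2 : E + (-(2 * (l / P))) * l + (l / P) ^ 2 * P = E - l ^ 2 / P := by
    field_simp
    ring
  rw [h2] at h1
  have h3 : l ^ 2 / P ≤ E := by linarith
  rw [div_le_iff₀ hP] at h3
  linarith

theorem mean_div {tau : ℝ} (h0 : 0 < tau) {v1 v2 : ℂ → ℝ}
    (s1 : ContDiff ℝ 1 v1) (s2 : ContDiff ℝ 1 v2)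
    (ev : ∀ z, v1 ((starRingEnd ℂ) z) = v1 z) (od : ∀ z, v2 ((starRingEnd ℂ) z) = -v2 z)
    (leg : ∀ x, v2 (pt tau x 1) = tau * v1 (pt tau x 1)) :
    (∫ z in sec tau, fderiv ℝ v1 z 1) + (∫ z in sec tau, fderiv ℝ v2 z Complex.I) =
      ∫ y in (-tau)..tau, v1 ⟨1, y⟩ := by
  have h1 := hom_div h0 s1 (N := 1) le_rfl (A := fun _ => 1) (B := fun _ => 0) (C := fun s => -s)
    continuous_const continuous_const (fun s => by ring)
    (fun s => (hasDerivAt_neg s).congr_deriv (by norm_num)) (Q1 := fun _ => 1) (Q2 := fun _ => 0)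
    continuous_const continuous_const (fun x s _ => by simp) (fun x s _ => by simp)
  have h2 := hom_div h0 s2 (N := 1) le_rfl (A := fun _ => 0) (B := fun _ => 1)
    (C := fun _ => 1 / tau) continuous_const continuous_const (fun s => by ring)
    (fun s => by simpa using hasDerivAt_const s (1 / tau)) (Q1 := fun _ => 0) (Q2 := fun _ => 1)
    continuous_const continuous_const (fun x s _ => by simp) (fun x s _ => by simp)
  simp only [one_mul, zero_mul, add_zero, zero_add, Nat.sub_self, pow_zero,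
    intervalIntegral.integral_zero, mul_zero] at h1 h2
  rw [h1, h2, side_integral h0 v1]
  have e1 : ∫ x in (0 : ℝ)..1, (-1 * v1 (pt tau x 1) - -(-1) * v1 (pt tau x (-1))) =
      -2 * ∫ x in (0 : ℝ)..1, v1 (pt tau x 1) := by
    rw [← intervalIntegral.integral_const_mul]
    refine intervalIntegral.integral_congr fun x _ => ?_
    show -1 * v1 (pt tau x 1) - -(-1) * v1 (pt tau x (-1)) = -2 * v1 (pt tau x 1)
    rw [F1_pt, ev]
    ring
  have e2 : ∫ x in (0 : ℝ)..1, (1 / tau * v2 (pt tau x 1) - 1 / tau * v2 (pt tau x (-1))) =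
      2 * ∫ x in (0 : ℝ)..1, v1 (pt tau x 1) := by
    rw [← intervalIntegral.integral_const_mul]
    refine intervalIntegral.integral_congr fun x _ => ?_
    show 1 / tau * v2 (pt tau x 1) - 1 / tau * v2 (pt tau x (-1)) = 2 * v1 (pt tau x 1)
    rw [F1_pt, od, leg]
    field_simp
    ring
  rw [e1, e2]
  ring

theorem F1 {n : ℕ} (hn : 3 ≤ n) {tau : ℝ} (h0 : 0 < tau) {v1 v2 : ℂ → ℝ}
    (s1 : ContDiff ℝ 1 v1) (s2 : ContDiff ℝ 1 v2)
    (ev : ∀ z, v1 ((starRingEnd ℂ) z) = v1 z) (od : ∀ z, v2 ((starRingEnd ℂ) z) = -v2 z)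
    (leg : ∀ x, v2 (pt tau x 1) = tau * v1 (pt tau x 1))
    (hm : ∫ y in (-tau)..tau, v1 ⟨1, y⟩ = 0) :
    (∫ y in (-tau)..tau, y * v2 ⟨1, y⟩) ^ 2 ≤
      tau ^ 3 / n * (1 / 3 + tau ^ 2 * ((n : ℝ) ^ 2 - 4 * n + 14) / 45
        + tau ^ 4 * ((n : ℝ) - 1) ^ 2 / 27) * (ER tau v1 + ER tau v2) := by
  obtain ⟨m, rfl⟩ : ∃ m, n = m + 3 := ⟨n - 3, by omega⟩
  obtain ⟨N, hN⟩ : ∃ N : ℝ, N = ((m + 3 : ℕ) : ℝ) := ⟨_, rfl⟩
  have hN3 : 3 ≤ N := by rw [hN]; push_cast; linarith [(Nat.cast_nonneg m : (0 : ℝ) ≤ m)]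
  rw [← hN]
  obtain ⟨k, hk⟩ : ∃ k : ℝ, k = -(tau ^ 2 / 3) := ⟨_, rfl⟩
  obtain ⟨g, hg⟩ : ∃ g : ℝ, g = N * tau ^ 2 / 6 := ⟨_, rfl⟩
  have h1 := hom_div h0 s1 (N := m + 3) (by omega) (A := fun _ => k)
    (B := fun s => -k * (N - 1) * tau * s) (C := fun s => -k * N * s)
    continuous_const (by fun_prop) (fun s => by field_simp; ring)
    (fun s => by
      have h := (hasDerivAt_id s).const_mul (-k * N)
      refine h.congr_deriv ?_
      rw [← hN]; ring)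
    (Q1 := fun z => k * z.re ^ (m + 2)) (Q2 := fun z => -k * (N - 1) * z.re ^ (m + 1) * z.im)
    (by fun_prop) (by fun_prop)
    (fun x s _ => by
      show k * x ^ (m + 2) = x ^ (m + 2) * k
      ring)
    (fun x s _ => by
      show -k * (N - 1) * x ^ (m + 1) * (tau * x * s) = x ^ (m + 2) * (-k * (N - 1) * tau * s)
      ring)
  have h2 := hom_div h0 s2 (N := m + 3) (by omega) (A := fun s => tau * s)
    (B := fun s => g - (N - 2) / 2 * tau ^ 2 * s ^ 2) (C := fun s => g / tau - N / 2 * tau * s ^ 2)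
    (by fun_prop) (by fun_prop) (fun s => by field_simp; ring)
    (fun s => by
      have h := ((hasDerivAt_pow 2 s).const_mul (N / 2 * tau)).const_sub (g / tau)
      refine h.congr_deriv ?_
      rw [← hN]; push_cast; ring)
    (Q1 := fun z => z.re ^ (m + 1) * z.im)
    (Q2 := fun z => g * z.re ^ (m + 2) - (N - 2) / 2 * z.re ^ m * z.im ^ 2)
    (by fun_prop) (by fun_prop)
    (fun x s _ => by
      show x ^ (m + 1) * (tau * x * s) = x ^ (m + 2) * (tau * s)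
      ring)
    (fun x s _ => by
      show g * x ^ (m + 2) - (N - 2) / 2 * x ^ m * (tau * x * s) ^ 2 =
        x ^ (m + 2) * (g - (N - 2) / 2 * tau ^ 2 * s ^ 2)
      ring)
  have c1 := F1_cont s1 1
  have c2 := F1_cont s1 Complex.I
  have c3 := F1_cont s2 1
  have c4 := F1_cont s2 Complex.I
  -- the boundary terms cancel
  have b1 : ∫ x in (0 : ℝ)..1, x ^ (m + 3 - 1) *
      ((fun s : ℝ => -k * N * s) 1 * v1 (pt tau x 1) -
        (fun s : ℝ => -k * N * s) (-1) * v1 (pt tau x (-1))) =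
      ∫ x in (0 : ℝ)..1, x ^ (m + 2) * (2 * N * tau ^ 2 / 3 * v1 (pt tau x 1)) := by
    refine intervalIntegral.integral_congr fun x _ => ?_
    show x ^ (m + 2) * (-k * N * 1 * v1 (pt tau x 1) - -k * N * (-1) * v1 (pt tau x (-1))) =
      x ^ (m + 2) * (2 * N * tau ^ 2 / 3 * v1 (pt tau x 1))
    rw [F1_pt, ev, hk]
    ring
  have b2 : ∫ x in (0 : ℝ)..1, x ^ (m + 3 - 1) *
      ((fun s : ℝ => g / tau - N / 2 * tau * s ^ 2) 1 * v2 (pt tau x 1) -
        (fun s : ℝ => g / tau - N / 2 * tau * s ^ 2) (-1) * v2 (pt tau x (-1))) =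
      -∫ x in (0 : ℝ)..1, x ^ (m + 2) * (2 * N * tau ^ 2 / 3 * v1 (pt tau x 1)) := by
    rw [← intervalIntegral.integral_neg]
    refine intervalIntegral.integral_congr fun x _ => ?_
    show x ^ (m + 2) * ((g / tau - N / 2 * tau * 1 ^ 2) * v2 (pt tau x 1) -
      (g / tau - N / 2 * tau * (-1) ^ 2) * v2 (pt tau x (-1))) =
      -(x ^ (m + 2) * (2 * N * tau ^ 2 / 3 * v1 (pt tau x 1)))
    rw [F1_pt, od, leg, hg]
    field_simp
    ring
  rw [b1] at h1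
  rw [b2] at h2
  have a1 : tau * (∫ s in (-1 : ℝ)..1, (fun _ : ℝ => k) s * v1 (pt tau 1 s)) = 0 := by
    have h := side_integral h0 v1
    rw [hm] at h
    show tau * (∫ s in (-1 : ℝ)..1, k * v1 (pt tau 1 s)) = 0
    rw [intervalIntegral.integral_const_mul, mul_left_comm, ← h, mul_zero]
  have a2 : tau * (∫ s in (-1 : ℝ)..1, (fun s : ℝ => tau * s) s * v2 (pt tau 1 s)) =
      ∫ y in (-tau)..tau, y * v2 ⟨1, y⟩ := by
    have h := side_integral h0 (fun z => z.im * v2 z)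
    have h' : ∫ y in (-tau)..tau, y * v2 ⟨1, y⟩ =
        tau * ∫ s in (-1 : ℝ)..1, (pt tau 1 s).im * v2 (pt tau 1 s) := h
    rw [h']
    congr 1
    refine intervalIntegral.integral_congr fun s _ => ?_
    show tau * s * v2 (pt tau 1 s) = tau * 1 * s * v2 (pt tau 1 s)
    ring
  rw [a1] at h1
  rw [a2] at h2
  have i1 : IntegrableOn (fun z : ℂ => k * z.re ^ (m + 2) * fderiv ℝ v1 z 1 +
      -k * (N - 1) * z.re ^ (m + 1) * z.im * fderiv ℝ v1 z Complex.I) (sec tau) :=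
    integrableOn_sec h0 (by fun_prop)
  have i2 : IntegrableOn (fun z : ℂ => z.re ^ (m + 1) * z.im * fderiv ℝ v2 z 1 +
      (g * z.re ^ (m + 2) - (N - 2) / 2 * z.re ^ m * z.im ^ 2) * fderiv ℝ v2 z Complex.I)
      (sec tau) :=
    integrableOn_sec h0 (by fun_prop)
  have hl : ∫ y in (-tau)..tau, y * v2 ⟨1, y⟩ = ∫ z in sec tau,
      ((k * z.re ^ (m + 2) * fderiv ℝ v1 z 1 +
        -k * (N - 1) * z.re ^ (m + 1) * z.im * fderiv ℝ v1 z Complex.I) +
      (z.re ^ (m + 1) * z.im * fderiv ℝ v2 z 1 +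
        (g * z.re ^ (m + 2) - (N - 2) / 2 * z.re ^ m * z.im ^ 2) * fderiv ℝ v2 z Complex.I)) := by
    rw [integral_add i1 i2, h1, h2]
    ring
  -- the square integral of the test field
  have hQ : ∫ z in sec tau, ((k * z.re ^ (m + 2)) ^ 2 +
      (-k * (N - 1) * z.re ^ (m + 1) * z.im) ^ 2 + ((z.re ^ (m + 1) * z.im) ^ 2 +
      (g * z.re ^ (m + 2) - (N - 2) / 2 * z.re ^ m * z.im ^ 2) ^ 2)) =
      tau ^ 3 / N * (1 / 3 + tau ^ 2 * (N ^ 2 - 4 * N + 14) / 45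
        + tau ^ 4 * (N - 1) ^ 2 / 27) := by
    rw [sec_integral h0 (by fun_prop)]
    have e : ∀ x : ℝ, x * ∫ s in (-1 : ℝ)..1, (((k * (pt tau x s).re ^ (m + 2)) ^ 2 +
        (-k * (N - 1) * (pt tau x s).re ^ (m + 1) * (pt tau x s).im) ^ 2 +
        (((pt tau x s).re ^ (m + 1) * (pt tau x s).im) ^ 2 +
        (g * (pt tau x s).re ^ (m + 2) -
          (N - 2) / 2 * (pt tau x s).re ^ m * (pt tau x s).im ^ 2) ^ 2))) =
        x ^ (2 * m + 5) * (2 * (k ^ 2 + g ^ 2) +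
          2 / 3 * (k ^ 2 * (N - 1) ^ 2 * tau ^ 2 + tau ^ 2 - g * (N - 2) * tau ^ 2) +
          2 / 5 * ((N - 2) ^ 2 / 4 * tau ^ 4)) := by
      intro x
      rw [← F1_int, ← intervalIntegral.integral_const_mul, ← intervalIntegral.integral_const_mul]
      refine intervalIntegral.integral_congr fun s _ => ?_
      show x * ((k * x ^ (m + 2)) ^ 2 + (-k * (N - 1) * x ^ (m + 1) * (tau * x * s)) ^ 2 +
        ((x ^ (m + 1) * (tau * x * s)) ^ 2 +
          (g * x ^ (m + 2) - (N - 2) / 2 * x ^ m * (tau * x * s) ^ 2) ^ 2)) =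
        x ^ (2 * m + 5) * (k ^ 2 + g ^ 2 +
          (k ^ 2 * (N - 1) ^ 2 * tau ^ 2 + tau ^ 2 - g * (N - 2) * tau ^ 2) * s ^ 2 +
          (N - 2) ^ 2 / 4 * tau ^ 4 * s ^ 4)
      ring
    simp only [e]
    rw [intervalIntegral.integral_mul_const, integral_pow]
    have hN' : ((2 * m + 5 : ℕ) : ℝ) + 1 = 2 * N := by
      rw [hN]; push_cast; ring
    rw [hN', one_pow, zero_pow (by omega), hk, hg]
    have hN0 : N ≠ 0 := by linarith
    field_simp
    ring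
  have hP : 0 < tau ^ 3 / N * (1 / 3 + tau ^ 2 * (N ^ 2 - 4 * N + 14) / 45
        + tau ^ 4 * (N - 1) ^ 2 / 27) := by
    have h3 : 0 < N ^ 2 - 4 * N + 14 := by nlinarith [sq_nonneg (N - 2)]
    have h4 : 0 < N := by linarith
    positivity
  rw [hl]
  refine (F1_cs h0 c1 c2 c3 c4 (Q1 := fun z => k * z.re ^ (m + 2))
    (Q2 := fun z => -k * (N - 1) * z.re ^ (m + 1) * z.im) (Q3 := fun z => z.re ^ (m + 1) * z.im)
    (Q4 := fun z => g * z.re ^ (m + 2) - (N - 2) / 2 * z.re ^ m * z.im ^ 2)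
    (by fun_prop) (by fun_prop) (by fun_prop) (by fun_prop) hP hQ).trans (le_of_eq ?_)
  have j1 : IntegrableOn (fun z : ℂ => (fderiv ℝ v1 z 1) ^ 2 + (fderiv ℝ v1 z Complex.I) ^ 2)
      (sec tau) := integrableOn_sec h0 (by fun_prop)
  have j2 : IntegrableOn (fun z : ℂ => (fderiv ℝ v2 z 1) ^ 2 + (fderiv ℝ v2 z Complex.I) ^ 2)
      (sec tau) := integrableOn_sec h0 (by fun_prop)
  rw [integral_add j1 j2]
  rfl

end Pool.Agent.NGN
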