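import Pool.Agent.NGN.B.LI

/-!
# NGN, part B: the level inequality for the class `VV`
-/

set_option autoImplicit false

noncomputable section

namespace Pool.Agent.NGN

open MeasureTheory

private theorem JV_alg {tau x c c' p l W1 W2 E1 E2 SF SG N1 N2 A1 A2 : ℝ} (h0 : 0 < tau) (hx : 0 < x)
    (hl : l = SF - tau * c * (2 / 3))
    (ha : 0 ≤ A1 + 2 * (c' - p / x) ^ 2 + (11 / (5 * tau) / x) ^ 2 * W1 - 2 * (c' - p / x) * (2 * c' - 2 * p / x)
      - 2 * (11 / (5 * tau) / x) * ((E1 - 2 * c * c') - 1 / x * (p ^ 2 - W1 / 2)))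
    (hb : 0 ≤ A2 + (11 / (5 * tau) / x) ^ 2 * W2
      - 2 * (11 / (5 * tau) / x) * ((E2 - tau * c * SG) - 1 / x * (tau ^ 2 * p ^ 2 - W2 / 2 + tau * c * l)))
    (hLI : (121 / 25 - 11 / 5 * tau) * (W1 + W2) + 22 / 5 * tau * (1 + tau ^ 2) * p ^ 2
      - 22 / 5 * tau ^ 2 * p * l + 121 / 50 * tau ^ 2 * l ^ 2 ≤
        N1 + (N2 - 4 * tau ^ 2 * c * p - 2 * tau ^ 2 * c ^ 2)) :
    11 / (5 * tau) * (2 * E1 + 2 * E2 - (2 * c) * (2 * c') - tau * ((2 * c') * SF + (2 * c) * SG)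
        + tau ^ 2 / 3 * ((2 * c) * (2 * c'))) + (2 * c) * (2 * c') ≤
      x * (A1 + N1 / (tau * x) ^ 2) + x * (A2 + N2 / (tau * x) ^ 2) := by
  have h2 : 0 < tau ^ 2 * x := by positivity
  have key : x * (A1 + N1 / (tau * x) ^ 2) + x * (A2 + N2 / (tau * x) ^ 2) -
      (11 / (5 * tau) * (2 * E1 + 2 * E2 - (2 * c) * (2 * c') - tau * ((2 * c') * SF + (2 * c) * SG)
        + tau ^ 2 / 3 * ((2 * c) * (2 * c'))) + (2 * c) * (2 * c')) =
      x * (A1 + 2 * (c' - p / x) ^ 2 + (11 / (5 * tau) / x) ^ 2 * W1 - 2 * (c' - p / x) * (2 * c' - 2 * p / x)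
        - 2 * (11 / (5 * tau) / x) * ((E1 - 2 * c * c') - 1 / x * (p ^ 2 - W1 / 2))) +
      x * (A2 + (11 / (5 * tau) / x) ^ 2 * W2
        - 2 * (11 / (5 * tau) / x) * ((E2 - tau * c * SG) - 1 / x * (tau ^ 2 * p ^ 2 - W2 / 2 + tau * c * l))) +
      (N1 + (N2 - 4 * tau ^ 2 * c * p - 2 * tau ^ 2 * c ^ 2) - ((121 / 25 - 11 / 5 * tau) * (W1 + W2)
        + 22 / 5 * tau * (1 + tau ^ 2) * p ^ 2 - 22 / 5 * tau ^ 2 * p * l + 121 / 50 * tau ^ 2 * l ^ 2)) / (tau ^ 2 * x) +
      2 * (x * c' - p - c + 11 / 10 * l) ^ 2 / x := by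
    rw [hl]
    field_simp
    ring
  have k1 := mul_nonneg hx.le ha
  have k2 := mul_nonneg hx.le hb
  have k3 := div_nonneg (sub_nonneg.2 hLI) h2.le
  have k4 : 0 ≤ 2 * (x * c' - p - c + 11 / 10 * l) ^ 2 / x := by positivity
  linarith

private theorem JV_sq {a w : ℝ → ℝ} (ha : Continuous a) (hw : Continuous w) (k m : ℝ) :
    0 ≤ (∫ s in (-1 : ℝ)..1, a s ^ 2) + 2 * k ^ 2 + m ^ 2 * (∫ s in (-1 : ℝ)..1, w s ^ 2)
      - 2 * k * (∫ s in (-1 : ℝ)..1, a s) - 2 * m * (∫ s in (-1 : ℝ)..1, a s * w s)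
      + 2 * k * m * ∫ s in (-1 : ℝ)..1, w s := by
  have h1 : 0 ≤ ∫ s in (-1 : ℝ)..1, (a s - k - m * w s) ^ 2 :=
    intervalIntegral.integral_nonneg (by norm_num) fun s _ => sq_nonneg _
  have i1 : IntervalIntegrable (fun s => a s ^ 2) volume (-1 : ℝ) 1 := (ha.pow 2).intervalIntegrable _ _
  have i2 : IntervalIntegrable (fun _ : ℝ => k ^ 2) volume (-1 : ℝ) 1 := continuous_const.intervalIntegrable _ _
  have i3 : IntervalIntegrable (fun s => m ^ 2 * w s ^ 2) volume (-1 : ℝ) 1 :=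
    (continuous_const.mul (hw.pow 2)).intervalIntegrable _ _
  have i4 : IntervalIntegrable (fun s => 2 * k * a s) volume (-1 : ℝ) 1 :=
    (continuous_const.mul ha).intervalIntegrable _ _
  have i5 : IntervalIntegrable (fun s => 2 * m * (a s * w s)) volume (-1 : ℝ) 1 :=
    (continuous_const.mul (ha.mul hw)).intervalIntegrable _ _
  have i6 : IntervalIntegrable (fun s => 2 * k * m * w s) volume (-1 : ℝ) 1 :=
    (continuous_const.mul hw).intervalIntegrable _ _
  have e : (fun s => (a s - k - m * w s) ^ 2) =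
      fun s => a s ^ 2 + k ^ 2 + m ^ 2 * w s ^ 2 - 2 * k * a s - 2 * m * (a s * w s) + 2 * k * m * w s := by
    funext s
    ring
  rw [e, intervalIntegral.integral_add ((((i1.add i2).add i3).sub i4).sub i5) i6,
    intervalIntegral.integral_sub (((i1.add i2).add i3).sub i4) i5,
    intervalIntegral.integral_sub ((i1.add i2).add i3) i4, intervalIntegral.integral_add (i1.add i2) i3,
    intervalIntegral.integral_add i1 i2, intervalIntegral.integral_const, intervalIntegral.integral_const_mul,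
    intervalIntegral.integral_const_mul, intervalIntegral.integral_const_mul,
    intervalIntegral.integral_const_mul, smul_eq_mul] at h1
  linarith

/-- integration by parts -/
private theorem JV_ibp {w w' : ℝ → ℝ} (d : ∀ s, HasDerivAt w (w' s) s) (c : Continuous w') :
    (∫ s in (-1 : ℝ)..1, s * w' s * w s) = (w 1 ^ 2 + w (-1) ^ 2) / 2 - (∫ s in (-1 : ℝ)..1, w s ^ 2) / 2 := by
  have hw : Continuous w := continuous_iff_continuousAt.2 fun s => (d s).continuousAt
  have i1 : IntervalIntegrable (fun s => w s ^ 2) volume (-1 : ℝ) 1 := (hw.pow 2).intervalIntegrable _ _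
  have i2 : IntervalIntegrable (fun s => 2 * (s * w' s * w s)) volume (-1 : ℝ) 1 :=
    (continuous_const.mul ((continuous_id.mul c).mul hw)).intervalIntegrable _ _
  have h1 : ∀ s ∈ Set.uIcc (-1 : ℝ) 1, HasDerivAt (fun s => s * w s ^ 2) (w s ^ 2 + 2 * (s * w' s * w s)) s := by
    intro s _
    have h2 : HasDerivAt (fun s => s * w s ^ 2) (1 * w s ^ 2 + s * ((2 : ℕ) * w s ^ (2 - 1) * w' s)) s :=
      (hasDerivAt_id' s).mul ((d s).pow 2)
    refine h2.congr_deriv ?_
    push_cast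
    ring
  have h2 := intervalIntegral.integral_eq_sub_of_hasDerivAt h1 (i1.add i2)
  rw [intervalIntegral.integral_add i1 i2, intervalIntegral.integral_const_mul] at h2
  linarith

private theorem JV_ibp1 {w w' : ℝ → ℝ} (d : ∀ s, HasDerivAt w (w' s) s) (c : Continuous w') :
    (∫ s in (-1 : ℝ)..1, s * w' s) = w 1 + w (-1) - ∫ s in (-1 : ℝ)..1, w s := by
  have hw : Continuous w := continuous_iff_continuousAt.2 fun s => (d s).continuousAt
  have i1 : IntervalIntegrable (fun s => w s) volume (-1 : ℝ) 1 := hw.intervalIntegrable _ _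
  have i2 : IntervalIntegrable (fun s => s * w' s) volume (-1 : ℝ) 1 :=
    (continuous_id.mul c).intervalIntegrable _ _
  have h1 : ∀ s ∈ Set.uIcc (-1 : ℝ) 1, HasDerivAt (fun s => s * w s) (w s + s * w' s) s := by
    intro s _
    have h2 : HasDerivAt (fun s => s * w s) (1 * w s + s * w' s) s := (hasDerivAt_id' s).mul (d s)
    exact h2.congr_deriv (by ring)
  have h2 := intervalIntegral.integral_eq_sub_of_hasDerivAt h1 (i1.add i2)
  rw [intervalIntegral.integral_add i1 i2] at h2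
  linarith

private theorem JV_s2 : (∫ s in (-1 : ℝ)..1, s * s) = 2 / 3 := by
  have h : (fun s : ℝ => s * s) = fun s => s ^ 2 := by
    funext s
    ring
  rw [h, integral_pow]
  norm_num

theorem JV {tau x : ℝ} (h0 : 0 < tau) (h1 : tau ≤ 72655 / 100000) (hx : 0 < x)
    {φ1 φ1' ψ1 φ2 φ2' ψ2 : ℝ → ℝ}
    (d1 : ∀ s, HasDerivAt φ1 (φ1' s) s) (c1 : Continuous φ1') (k1 : Continuous ψ1)
    (d2 : ∀ s, HasDerivAt φ2 (φ2' s) s) (c2 : Continuous φ2') (k2 : Continuous ψ2)
    (ev : ∀ s, φ1 (-s) = φ1 s) (od : ∀ s, φ2 (-s) = -φ2 s) (he : φ2 1 = tau * φ1 1) :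
    11 / (5 * tau) * (2 * (∫ s in (-1 : ℝ)..1, φ1 s * ψ1 s)
          + 2 * (∫ s in (-1 : ℝ)..1, φ2 s * ψ2 s)
          - (∫ s in (-1 : ℝ)..1, φ1 s) * (∫ s in (-1 : ℝ)..1, ψ1 s)
          - tau * ((∫ s in (-1 : ℝ)..1, ψ1 s) * (∫ s in (-1 : ℝ)..1, s * φ2 s)
            + (∫ s in (-1 : ℝ)..1, φ1 s) * (∫ s in (-1 : ℝ)..1, s * ψ2 s))
          + tau ^ 2 / 3 * ((∫ s in (-1 : ℝ)..1, φ1 s) * (∫ s in (-1 : ℝ)..1, ψ1 s)))
        + (∫ s in (-1 : ℝ)..1, φ1 s) * (∫ s in (-1 : ℝ)..1, ψ1 s) ≤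
      x * (∫ s in (-1 : ℝ)..1, ((ψ1 s - s / x * φ1' s) ^ 2 + (φ1' s / (tau * x)) ^ 2))
      + x * ∫ s in (-1 : ℝ)..1, ((ψ2 s - s / x * φ2' s) ^ 2 + (φ2' s / (tau * x)) ^ 2) := by
  have k0 : Continuous φ1 := continuous_iff_continuousAt.2 fun s => (d1 s).continuousAt
  have k3 : Continuous φ2 := continuous_iff_continuousAt.2 fun s => (d2 s).continuousAt
  -- the constants
  set c : ℝ := (∫ s in (-1 : ℝ)..1, φ1 s) / 2 with hc
  set c' : ℝ := (∫ s in (-1 : ℝ)..1, ψ1 s) / 2 with hc'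
  have ec : (∫ s in (-1 : ℝ)..1, φ1 s) = 2 * c := by rw [hc]; ring
  have ec' : (∫ s in (-1 : ℝ)..1, ψ1 s) = 2 * c' := by rw [hc']; ring
  -- the functions `w₁`, `w₂`
  have dw1 : ∀ s, HasDerivAt (fun s => φ1 s - c) (φ1' s) s := fun s => (d1 s).sub_const c
  have dw2 : ∀ s, HasDerivAt (fun s => φ2 s - tau * c * s) (φ2' s - tau * c) s := fun s => by
    have h2 : HasDerivAt (fun s => φ2 s - tau * c * s) (φ2' s - tau * c * 1) s :=
      (d2 s).sub ((hasDerivAt_id' s).const_mul (tau * c))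
    exact h2.congr_deriv (by ring)
  have kw1 : Continuous (fun s => φ1 s - c) := k0.sub continuous_const
  have kw2 : Continuous (fun s => φ2 s - tau * c * s) := k3.sub (continuous_const.mul continuous_id)
  have kw2' : Continuous (fun s => φ2' s - tau * c) := c2.sub continuous_const
  have m1 : (∫ s in (-1 : ℝ)..1, (φ1 s - c)) = 0 := by
    have j1 : IntervalIntegrable (fun s => φ1 s) volume (-1 : ℝ) 1 := k0.intervalIntegrable _ _
    have j2 : IntervalIntegrable (fun _ : ℝ => c) volume (-1 : ℝ) 1 := continuous_const.intervalIntegrable _ _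
    rw [intervalIntegral.integral_sub j1 j2, intervalIntegral.integral_const, ec, smul_eq_mul]
    ring
  have e1 : φ1 (-1) = φ1 1 := ev 1
  have e2 : φ2 (-1) = - φ2 1 := od 1
  have hLI := LI h0 h1 dw1 c1 dw2 kw2' (fun s => by rw [ev]) (fun s => by rw [od]; ring) m1
    (by rw [he]; ring)
  -- `a₁`, `a₂`
  have ka1 : Continuous (fun s => ψ1 s - s / x * φ1' s) := k1.sub ((continuous_id.div_const x).mul c1)
  have ka2 : Continuous (fun s => ψ2 s - s / x * φ2' s) := k2.sub ((continuous_id.div_const x).mul c2)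
  have q1 := JV_sq ka1 kw1 (c' - (φ1 1 - c) / x) (11 / (5 * tau) / x)
  have q2 := JV_sq ka2 kw2 0 (11 / (5 * tau) / x)
  rw [m1] at q1
  -- `∫ a₁`
  have r1 : (∫ s in (-1 : ℝ)..1, (ψ1 s - s / x * φ1' s)) = 2 * c' - 2 * (φ1 1 - c) / x := by
    have h2 : (fun s => s / x * φ1' s) = fun s => 1 / x * (s * φ1' s) := by
      funext s
      ring
    have j1 : IntervalIntegrable (fun s => ψ1 s) volume (-1 : ℝ) 1 := k1.intervalIntegrable _ _
    have j2 : IntervalIntegrable (fun s => s / x * φ1' s) volume (-1 : ℝ) 1 :=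
      ((continuous_id.div_const x).mul c1).intervalIntegrable _ _
    rw [intervalIntegral.integral_sub j1 j2, ec', h2, intervalIntegral.integral_const_mul,
      JV_ibp1 d1 c1, e1, ec]
    ring
  -- `∫ a₁ w₁`
  have r2 : (∫ s in (-1 : ℝ)..1, (ψ1 s - s / x * φ1' s) * (φ1 s - c)) =
      ((∫ s in (-1 : ℝ)..1, φ1 s * ψ1 s) - 2 * c * c') -
        1 / x * ((φ1 1 - c) ^ 2 - (∫ s in (-1 : ℝ)..1, (φ1 s - c) ^ 2) / 2) := by
    have h2 : (fun s => (ψ1 s - s / x * φ1' s) * (φ1 s - c)) =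
        fun s => (φ1 s * ψ1 s - c * ψ1 s) - 1 / x * (s * φ1' s * (φ1 s - c)) := by
      funext s
      ring
    have j1 : IntervalIntegrable (fun s => φ1 s * ψ1 s) volume (-1 : ℝ) 1 := (k0.mul k1).intervalIntegrable _ _
    have j2 : IntervalIntegrable (fun s => c * ψ1 s) volume (-1 : ℝ) 1 :=
      (continuous_const.mul k1).intervalIntegrable _ _
    have j3 : IntervalIntegrable (fun s => 1 / x * (s * φ1' s * (φ1 s - c))) volume (-1 : ℝ) 1 :=
      (continuous_const.mul ((continuous_id.mul c1).mul kw1)).intervalIntegrable _ _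
    rw [h2, intervalIntegral.integral_sub (j1.sub j2) j3, intervalIntegral.integral_sub j1 j2,
      intervalIntegral.integral_const_mul, intervalIntegral.integral_const_mul, JV_ibp dw1 c1, ec', e1]
    ring
  rw [r1, r2] at q1
  -- `l`
  have r3 : (∫ s in (-1 : ℝ)..1, s * (φ2 s - tau * c * s)) =
      (∫ s in (-1 : ℝ)..1, s * φ2 s) - tau * c * (2 / 3) := by
    have h2 : (fun s => s * (φ2 s - tau * c * s)) = fun s => s * φ2 s - tau * c * (s * s) := by
      funext s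
      ring
    have j1 : IntervalIntegrable (fun s => s * φ2 s) volume (-1 : ℝ) 1 := (continuous_id.mul k3).intervalIntegrable _ _
    have j2 : IntervalIntegrable (fun s => tau * c * (s * s)) volume (-1 : ℝ) 1 :=
      (continuous_const.mul (continuous_id.mul continuous_id)).intervalIntegrable _ _
    rw [h2, intervalIntegral.integral_sub j1 j2, intervalIntegral.integral_const_mul, JV_s2]
  -- `∫ a₂ w₂`
  have r4 : (∫ s in (-1 : ℝ)..1, (ψ2 s - s / x * φ2' s) * (φ2 s - tau * c * s)) =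
      ((∫ s in (-1 : ℝ)..1, φ2 s * ψ2 s) - tau * c * (∫ s in (-1 : ℝ)..1, s * ψ2 s)) -
        1 / x * (tau ^ 2 * (φ1 1 - c) ^ 2 - (∫ s in (-1 : ℝ)..1, (φ2 s - tau * c * s) ^ 2) / 2 +
          tau * c * (∫ s in (-1 : ℝ)..1, s * (φ2 s - tau * c * s))) := by
    have h2 : (fun s => (ψ2 s - s / x * φ2' s) * (φ2 s - tau * c * s)) =
        fun s => (φ2 s * ψ2 s - tau * c * (s * ψ2 s)) -
          1 / x * (s * (φ2' s - tau * c) * (φ2 s - tau * c * s) + tau * c * (s * (φ2 s - tau * c * s))) := by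
      funext s
      ring
    have i1 : Continuous (fun s => s * (φ2' s - tau * c) * (φ2 s - tau * c * s)) :=
      (continuous_id.mul kw2').mul kw2
    have i2 : Continuous (fun s => tau * c * (s * (φ2 s - tau * c * s))) :=
      continuous_const.mul (continuous_id.mul kw2)
    have j1 : IntervalIntegrable (fun s => φ2 s * ψ2 s) volume (-1 : ℝ) 1 := (k3.mul k2).intervalIntegrable _ _
    have j2 : IntervalIntegrable (fun s => tau * c * (s * ψ2 s)) volume (-1 : ℝ) 1 :=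
      (continuous_const.mul (continuous_id.mul k2)).intervalIntegrable _ _
    have j3 : IntervalIntegrable (fun s => 1 / x * (s * (φ2' s - tau * c) * (φ2 s - tau * c * s) +
        tau * c * (s * (φ2 s - tau * c * s)))) volume (-1 : ℝ) 1 :=
      (continuous_const.mul (i1.add i2)).intervalIntegrable _ _
    rw [h2, intervalIntegral.integral_sub (j1.sub j2) j3, intervalIntegral.integral_sub j1 j2,
      intervalIntegral.integral_const_mul, intervalIntegral.integral_const_mul,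
      intervalIntegral.integral_add (i1.intervalIntegrable _ _) (i2.intervalIntegrable _ _),
      intervalIntegral.integral_const_mul, JV_ibp dw2 kw2', e2, he]
    ring
  rw [r4] at q2
  -- `∫ w₂'²`
  have r5 : (∫ s in (-1 : ℝ)..1, (φ2' s - tau * c) ^ 2) =
      (∫ s in (-1 : ℝ)..1, φ2' s ^ 2) - 4 * tau ^ 2 * c * (φ1 1 - c) - 2 * tau ^ 2 * c ^ 2 := by
    have h2 : (fun s => (φ2' s - tau * c) ^ 2) =
        fun s => φ2' s ^ 2 - 2 * (tau * c) * φ2' s + (tau * c) ^ 2 := by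
      funext s
      ring
    have h3 : (∫ s in (-1 : ℝ)..1, φ2' s) = φ2 1 - φ2 (-1) :=
      intervalIntegral.integral_eq_sub_of_hasDerivAt (fun s _ => d2 s) (c2.intervalIntegrable _ _)
    have j1 : IntervalIntegrable (fun s => φ2' s ^ 2) volume (-1 : ℝ) 1 := (c2.pow 2).intervalIntegrable _ _
    have j2 : IntervalIntegrable (fun s => 2 * (tau * c) * φ2' s) volume (-1 : ℝ) 1 :=
      (continuous_const.mul c2).intervalIntegrable _ _
    have j3 : IntervalIntegrable (fun _ : ℝ => (tau * c) ^ 2) volume (-1 : ℝ) 1 :=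
      continuous_const.intervalIntegrable _ _
    rw [h2, intervalIntegral.integral_add (j1.sub j2) j3, intervalIntegral.integral_sub j1 j2,
      intervalIntegral.integral_const_mul, intervalIntegral.integral_const, h3, e2, he, smul_eq_mul]
    ring
  rw [r5] at hLI
  -- the right hand side
  have t1 : (∫ s in (-1 : ℝ)..1, ((ψ1 s - s / x * φ1' s) ^ 2 + (φ1' s / (tau * x)) ^ 2)) =
      (∫ s in (-1 : ℝ)..1, (ψ1 s - s / x * φ1' s) ^ 2) + (∫ s in (-1 : ℝ)..1, φ1' s ^ 2) / (tau * x) ^ 2 := by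
    have h2 : (fun s => (φ1' s / (tau * x)) ^ 2) = fun s => φ1' s ^ 2 / (tau * x) ^ 2 := by
      funext s
      rw [div_pow]
    have j1 : IntervalIntegrable (fun s => (ψ1 s - s / x * φ1' s) ^ 2) volume (-1 : ℝ) 1 :=
      (ka1.pow 2).intervalIntegrable _ _
    have j2 : IntervalIntegrable (fun s => (φ1' s / (tau * x)) ^ 2) volume (-1 : ℝ) 1 :=
      ((c1.div_const (tau * x)).pow 2).intervalIntegrable _ _
    rw [intervalIntegral.integral_add j1 j2, h2, intervalIntegral.integral_div]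
  have t2 : (∫ s in (-1 : ℝ)..1, ((ψ2 s - s / x * φ2' s) ^ 2 + (φ2' s / (tau * x)) ^ 2)) =
      (∫ s in (-1 : ℝ)..1, (ψ2 s - s / x * φ2' s) ^ 2) + (∫ s in (-1 : ℝ)..1, φ2' s ^ 2) / (tau * x) ^ 2 := by
    have h2 : (fun s => (φ2' s / (tau * x)) ^ 2) = fun s => φ2' s ^ 2 / (tau * x) ^ 2 := by
      funext s
      rw [div_pow]
    have j1 : IntervalIntegrable (fun s => (ψ2 s - s / x * φ2' s) ^ 2) volume (-1 : ℝ) 1 :=
      (ka2.pow 2).intervalIntegrable _ _
    have j2 : IntervalIntegrable (fun s => (φ2' s / (tau * x)) ^ 2) volume (-1 : ℝ) 1 :=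
      ((c2.div_const (tau * x)).pow 2).intervalIntegrable _ _
    rw [intervalIntegral.integral_add j1 j2, h2, intervalIntegral.integral_div]
  rw [t1, t2, ec, ec']
  refine JV_alg (p := φ1 1 - c) (l := ∫ s in (-1 : ℝ)..1, s * (φ2 s - tau * c * s))
    (W1 := ∫ s in (-1 : ℝ)..1, (φ1 s - c) ^ 2) (W2 := ∫ s in (-1 : ℝ)..1, (φ2 s - tau * c * s) ^ 2) h0 hx r3 ?_ ?_ ?_
  · linarith
  · linarith
  · linarith

end Pool.Agent.NGN
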