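import Pool.Agent.NGN.B.Fan
import Pool.Agent.NGN.B.Par
import Pool.Agent.NGN.B.JV

/-!
# NGN, part B: the estimate (F2)

PROOF PLAN. As in `Class0.lean`, with `JV`: let `A x = ∫ v1(pt)^2 + ∫ v2(pt)^2`,
`C x = ∫ v1 (pt tau x s) ds`, `l x = ∫ s v2 (pt tau x s) ds`, `β = 11/(5 τ)` and
`G x = β (A x - C x ^ 2/2 - τ C x l x + τ^2/6 C x ^ 2) + C x ^ 2 / 2`.  Its derivative is the
left-hand side of `JV` for `φ_i s = v_i (pt tau x s)`, `ψ_i = Dx`, `φ_i' = Ds`.  So
`ER v1 + ER v2 ≥ τ (G 1 - G 0)`, `G 0 = 0` (`v_i 0 = 0`), `G 1 = β A 1` (`C 1 = 0`).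
Parity: `pt tau x (-s) = conj (pt tau x s)`.
-/

set_option autoImplicit false

noncomputable section

namespace Pool.Agent.NGN

open MeasureTheory

private theorem F2_pt_neg (tau x s : ℝ) : pt tau x (-s) = (starRingEnd ℂ) (pt tau x s) := by
  apply Complex.ext
  · simp [pt]
  · simp [pt]

private theorem F2_pt_zero (tau s : ℝ) : pt tau 0 s = 0 := by
  apply Complex.ext
  · simp [pt]
  · simp [pt]

private theorem F2_level {tau : ℝ} {f : ℂ → ℝ} (hf : ContDiff ℝ 1 f) (x : ℝ) :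
    HasDerivAt (fun x => ∫ s in (-1 : ℝ)..1, f (pt tau x s)) (∫ s in (-1 : ℝ)..1, Dx tau f x s) x := by
  have h := hasDerivAt_level (tau := tau) hf (g := fun _ => 1) continuous_const x
  simpa only [one_mul] using h

private theorem F2_grad {tau : ℝ} (ht : tau ≠ 0) {f : ℂ → ℝ} {x : ℝ} (hx : x ≠ 0) :
    ∫ s in (-1 : ℝ)..1, ((Dx tau f x s - s / x * Ds tau f x s) ^ 2 + (Ds tau f x s / (tau * x)) ^ 2) =
      ∫ s in (-1 : ℝ)..1, grad2 f (pt tau x s) := by
  refine intervalIntegral.integral_congr fun s _ => ?_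
  exact (grad2_pt ht x s hx).symm

private theorem F2_ER {tau : ℝ} (h0 : 0 < tau) {f : ℂ → ℝ} (hf : ContDiff ℝ 1 f) :
    ER tau f = tau * ∫ x in (0 : ℝ)..1, x * ∫ s in (-1 : ℝ)..1, grad2 f (pt tau x s) :=
  sec_integral h0 (continuous_grad2 hf)

private theorem F2_cont {tau : ℝ} {f : ℂ → ℝ} (hf : ContDiff ℝ 1 f) :
    Continuous fun x : ℝ => x * ∫ s in (-1 : ℝ)..1, grad2 f (pt tau x s) := by
  refine continuous_id.mul (continuous_level (h := fun x s => grad2 f (pt tau x s)) ?_)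
  exact (continuous_grad2 hf).comp continuous_pt

theorem F2 {tau : ℝ} (h0 : 0 < tau) (h1 : tau ≤ 72655 / 100000) {v1 v2 : ℂ → ℝ}
    (s1 : ContDiff ℝ 1 v1) (s2 : ContDiff ℝ 1 v2)
    (ev : ∀ z, v1 ((starRingEnd ℂ) z) = v1 z) (od : ∀ z, v2 ((starRingEnd ℂ) z) = -v2 z)
    (leg : ∀ x, v2 (pt tau x 1) = tau * v1 (pt tau x 1)) (z1 : v1 0 = 0) (z2 : v2 0 = 0)
    (hm : ∫ s in (-1 : ℝ)..1, v1 (pt tau 1 s) = 0) :
    11 / (5 * tau) * (MR tau v1 + MR tau v2) ≤ ER tau v1 + ER tau v2 := by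
  have d1 := fun x => F2_level (tau := tau) s1 x
  have dl := fun x => hasDerivAt_level (tau := tau) s2 (g := fun s => s) continuous_id x
  have q1 := fun x => hasDerivAt_level_sq (tau := tau) s1 x
  have q2 := fun x => hasDerivAt_level_sq (tau := tau) s2 x
  set C : ℝ → ℝ := fun x => ∫ s in (-1 : ℝ)..1, v1 (pt tau x s) with hC
  set l : ℝ → ℝ := fun x => ∫ s in (-1 : ℝ)..1, s * v2 (pt tau x s) with hl
  set A1 : ℝ → ℝ := fun x => ∫ s in (-1 : ℝ)..1, v1 (pt tau x s) ^ 2 with hA1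
  set A2 : ℝ → ℝ := fun x => ∫ s in (-1 : ℝ)..1, v2 (pt tau x s) ^ 2 with hA2
  set C' : ℝ → ℝ := fun x => ∫ s in (-1 : ℝ)..1, Dx tau v1 x s with hC'
  set l' : ℝ → ℝ := fun x => ∫ s in (-1 : ℝ)..1, s * Dx tau v2 x s with hl'
  set P1 : ℝ → ℝ := fun x => ∫ s in (-1 : ℝ)..1, v1 (pt tau x s) * Dx tau v1 x s with hP1
  set P2 : ℝ → ℝ := fun x => ∫ s in (-1 : ℝ)..1, v2 (pt tau x s) * Dx tau v2 x s with hP2
  let β : ℝ := 11 / (5 * tau)
  let G : ℝ → ℝ := fun x => β * (A1 x + A2 x - C x ^ 2 / 2 - tau * (C x * l x) + tau ^ 2 / 6 * C x ^ 2) +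
    C x ^ 2 / 2
  let G' : ℝ → ℝ := fun x => β * (2 * P1 x + 2 * P2 x - C x * C' x - tau * (C' x * l x + C x * l' x) +
    tau ^ 2 / 3 * (C x * C' x)) + C x * C' x
  have hG : ∀ x, HasDerivAt G (G' x) x := by
    intro x
    have e1 : HasDerivAt A1 (2 * P1 x) x := q1 x
    have e2 : HasDerivAt A2 (2 * P2 x) x := q2 x
    have e3 : HasDerivAt C (C' x) x := d1 x
    have e4 : HasDerivAt l (l' x) x := dl x
    have e5 := e3.pow 2
    have e6 := e3.mul e4
    have e7 := ((((e1.add e2).sub (e5.div_const 2)).sub (e6.const_mul tau)).add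
      (e5.const_mul (tau ^ 2 / 6))).const_mul β
    have e8 := e7.add (e5.div_const 2)
    refine (e8.congr_deriv ?_).congr_of_eventuallyEq ?_
    · simp only [G']
      push_cast
      ring
    · exact Filter.Eventually.of_forall fun _ => rfl
  have hle : ∀ x ∈ Set.Ioo (0 : ℝ) 1, G' x ≤ x * (∫ s in (-1 : ℝ)..1, grad2 v1 (pt tau x s)) +
      x * ∫ s in (-1 : ℝ)..1, grad2 v2 (pt tau x s) := by
    intro x hx
    have hx0 : x ≠ 0 := hx.1.ne'
    have h3 := JV h0 h1 hx.1 (φ1 := fun s => v1 (pt tau x s)) (φ1' := fun s => Ds tau v1 x s)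
      (ψ1 := fun s => Dx tau v1 x s) (φ2 := fun s => v2 (pt tau x s)) (φ2' := fun s => Ds tau v2 x s)
      (ψ2 := fun s => Dx tau v2 x s)
      (fun s => hasDerivAt_pt_s s1 x s)
      ((continuous_Ds s1).comp (Continuous.prodMk_right x))
      ((continuous_Dx s1).comp (Continuous.prodMk_right x))
      (fun s => hasDerivAt_pt_s s2 x s)
      ((continuous_Ds s2).comp (Continuous.prodMk_right x))
      ((continuous_Dx s2).comp (Continuous.prodMk_right x))
      (fun s => by rw [F2_pt_neg]; exact ev _)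
      (fun s => by rw [F2_pt_neg]; exact od _)
      (leg x)
    rw [F2_grad h0.ne' hx0, F2_grad h0.ne' hx0] at h3
    refine le_trans (le_of_eq ?_) h3
    rfl
  have hint : IntegrableOn (fun x => x * (∫ s in (-1 : ℝ)..1, grad2 v1 (pt tau x s)) +
      x * ∫ s in (-1 : ℝ)..1, grad2 v2 (pt tau x s)) (Set.Icc (0 : ℝ) 1) :=
    ((F2_cont s1).add (F2_cont s2)).continuousOn.integrableOn_compact isCompact_Icc
  have hmain := intervalIntegral.sub_le_integral_of_hasDeriv_right_of_le (g := G) (g' := G')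
    (a := (0 : ℝ)) (b := 1) zero_le_one (fun x _ => (hG x).continuousAt.continuousWithinAt)
    (fun x _ => (hG x).hasDerivWithinAt) hint hle
  have hG0 : G 0 = 0 := by
    simp only [G, hC, hl, hA1, hA2, F2_pt_zero, z1, z2]
    simp
  have hG1 : G 1 = β * (A1 1 + A2 1) := by
    have : C 1 = 0 := hm
    simp only [G, this]
    ring
  rw [hG0, hG1, sub_zero, intervalIntegral.integral_add
    ((F2_cont s1).intervalIntegrable _ _) ((F2_cont s2).intervalIntegrable _ _)] at hmain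
  have m1 : MR tau v1 = tau * A1 1 := side_integral h0 (fun z => v1 z ^ 2)
  have m2 : MR tau v2 = tau * A2 1 := side_integral h0 (fun z => v2 z ^ 2)
  rw [m1, m2, F2_ER h0 s1, F2_ER h0 s2]
  have h5 := mul_le_mul_of_nonneg_left hmain h0.le
  calc 11 / (5 * tau) * (tau * A1 1 + tau * A2 1) = tau * (β * (A1 1 + A2 1)) := by
        simp only [β]; ring
    _ ≤ _ := h5
    _ = _ := by ring

end Pool.Agent.NGN
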