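import Pool.Agent.NGN.B.Defs

/-!
# NGN, part B: the algebraic inequality behind (LI)

`b = 11/5`, `A = b² - b τ = 121/25 - 11/5 τ`.  In the application `p = w₁(1)`, `k = ∫ s q_a`,
`m = ∫ s² r_a`, `Ra = ∫ r_a²`, `Ra2 = ∫ r_a'²`, `Qa = ∫ q_a²`, `Qa2 = ∫ q_a'²`.

PROOF PLAN. `RHS - LHS = α p² - γ p k - 3 A p m + (Ra2 - A Ra) + (Qa2 - A Qa - 121/50 τ² k²)` with
`α = 6 - .4 b² - 1.6 b τ + (2 - 2 b²/3) τ² - (2/9) b² τ⁴`, `γ = 2 b² τ - 4 b τ² + (2/3) b² τ³`.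
`Ra2 - A Ra ≥ (1 - A/9) Ra2 ≥ (1 - A/9) (1575/8) m²`,
`Qa2 - A Qa - 121/50 τ² k² ≥ ((1 - A/9) (45/2) - 121/50 τ²) k²` (`A ≥ 0`, `1 - A/9 > 0`).
So it is enough: `α p² - γ p k - 3 A p m + M m² + K k² ≥ 0`, `M = (1 - A/9) (1575/8)`,
`K = (1 - A/9)(45/2) - 121/50 τ²`, which follows from `α ≥ 9 A²/(4 M) + γ²/(4 K)`:
`M (m - 3 A p/(2 M))² + K (k - γ p/(2 K))² + (α - 9 A²/(4M) - γ²/(4K)) p²`.  The polynomial
inequality `4 α M K ≥ 9 A² K + γ² M` for `0 ≤ τ ≤ 0.72655` has margin: at `τ = .72655`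
`.559 ≥ .251 + .188`, at `0`: `4.06 ≥ .58`; prove it by splitting the interval or by writing it in
powers of `τ` and `72655/100000 - τ` (Bernstein form), `nlinarith`/`polyrith`-free certificate.
-/

set_option autoImplicit false

noncomputable section

namespace Pool.Agent.NGN

/-- The discriminant inequality, in Bernstein form on `[0, 72655 / 100000]`. -/
theorem LIpoly_disc {t : ℝ} (h0 : 0 ≤ t) (h1 : t ≤ 72655 / 100000) :
    0 ≤ 4 * (6 - 2 / 5 * (121 / 25) - 8 / 5 * (11 / 5) * t + (2 - 2 / 3 * (121 / 25)) * t ^ 2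
        - 2 / 9 * (121 / 25) * t ^ 4) * ((1 - (121 / 25 - 11 / 5 * t) / 9) * (1575 / 8))
        * ((1 - (121 / 25 - 11 / 5 * t) / 9) * (45 / 2) - 121 / 50 * t ^ 2)
      - 9 * (121 / 25 - 11 / 5 * t) ^ 2
        * ((1 - (121 / 25 - 11 / 5 * t) / 9) * (45 / 2) - 121 / 50 * t ^ 2)
      - (2 * (121 / 25) * t - 4 * (11 / 5) * t ^ 2 + 2 / 3 * (121 / 25) * t ^ 3) ^ 2
        * ((1 - (121 / 25 - 11 / 5 * t) / 9) * (1575 / 8)) := by
  have hs : 0 ≤ 72655 / 100000 - t := by linarith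
  obtain ⟨u, hu⟩ : ∃ u, u = 72655 / 100000 - t := ⟨_, rfl⟩
  rw [← hu] at hs
  have e : 4 * (6 - 2 / 5 * (121 / 25) - 8 / 5 * (11 / 5) * t + (2 - 2 / 3 * (121 / 25)) * t ^ 2
        - 2 / 9 * (121 / 25) * t ^ 4) * ((1 - (121 / 25 - 11 / 5 * t) / 9) * (1575 / 8))
        * ((1 - (121 / 25 - 11 / 5 * t) / 9) * (45 / 2) - 121 / 50 * t ^ 2)
      - 9 * (121 / 25 - 11 / 5 * t) ^ 2
        * ((1 - (121 / 25 - 11 / 5 * t) / 9) * (45 / 2) - 121 / 50 * t ^ 2)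
      - (2 * (121 / 25) * t - 4 * (11 / 5) * t ^ 2 + 2 / 3 * (121 / 25) * t ^ 3) ^ 2
        * ((1 - (121 / 25 - 11 / 5 * t) / 9) * (1575 / 8)) =
      (16885814067200000000000000000000000 / 136794463161763166332463985611 : ℝ) * t ^ 0 * u ^ 7 +
      (121716672611481600000000000000000000 / 136794463161763166332463985611 : ℝ) * t ^ 1 * u ^ 6 +
      (1075545257509805372108800000000000000 / 410383389485289498997391956833 : ℝ) * t ^ 2 * u ^ 5 +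
      (559232733519447820542259200000000000 / 136794463161763166332463985611 : ℝ) * t ^ 3 * u ^ 4 +
      (4433271706489391210412399788800000000 / 1231150168455868496992175870499 : ℝ) * t ^ 4 * u ^ 3 +
      (2114911438240128537281037078784000000 / 1231150168455868496992175870499 : ℝ) * t ^ 5 * u ^ 2 +
      (146934267952826394444103179864737200 / 410383389485289498997391956833 : ℝ) * t ^ 6 * u ^ 1 +
      (1025168451510354212193272178912400 / 136794463161763166332463985611 : ℝ) * t ^ 7 * u ^ 0 := by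
    rw [hu]
    ring
  rw [e]
  positivity

theorem LI_poly {tau : ℝ} (h0 : 0 ≤ tau) (h1 : tau ≤ 72655 / 100000)
    {p k m Ra Ra2 Qa Qa2 : ℝ} (hRa : 0 ≤ Ra) (hQa : 0 ≤ Qa) (h9R : 9 * Ra ≤ Ra2)
    (hm : m ^ 2 ≤ 8 / 1575 * Ra2) (h9Q : 9 * Qa ≤ Qa2) (hk : k ^ 2 ≤ 2 / 45 * Qa2) :
    (121 / 25 - 11 / 5 * tau) * ((2 / 5 * p ^ 2 + 3 * p * m + Ra)
        + (2 / 3 * tau ^ 2 * p ^ 2 + 2 * tau * p * k + Qa))
      + 22 / 5 * tau * (1 + tau ^ 2) * p ^ 2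
      - 22 / 5 * tau ^ 2 * p * (2 / 3 * tau * p + k)
      + 121 / 50 * tau ^ 2 * (2 / 3 * tau * p + k) ^ 2 ≤
    (6 * p ^ 2 + Ra2) + (2 * tau ^ 2 * p ^ 2 + Qa2) := by
  have hd := LIpoly_disc h0 h1
  have hA0 : 0 ≤ 121 / 25 - 11 / 5 * tau := by linarith
  have hA1 : 0 < 1 - (121 / 25 - 11 / 5 * tau) / 9 := by linarith
  have ht2 : tau ^ 2 ≤ 53 / 100 := by nlinarith
  have hK : 0 < (1 - (121 / 25 - 11 / 5 * tau) / 9) * (45 / 2) - 121 / 50 * tau ^ 2 := by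
    nlinarith
  have hM : 0 < (1 - (121 / 25 - 11 / 5 * tau) / 9) * (1575 / 8) := by positivity
  have e1 : (1 - (121 / 25 - 11 / 5 * tau) / 9) * (1575 / 8) * m ^ 2 ≤
      Ra2 - (121 / 25 - 11 / 5 * tau) * Ra := by
    have a1 : (121 / 25 - 11 / 5 * tau) * Ra ≤ (121 / 25 - 11 / 5 * tau) * (Ra2 / 9) :=
      mul_le_mul_of_nonneg_left (by linarith) hA0
    have a2 : (1 - (121 / 25 - 11 / 5 * tau) / 9) * (1575 / 8) * m ^ 2 ≤
        (1 - (121 / 25 - 11 / 5 * tau) / 9) * (1575 / 8) * (8 / 1575 * Ra2) :=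
      mul_le_mul_of_nonneg_left hm hM.le
    linarith
  have e2 : ((1 - (121 / 25 - 11 / 5 * tau) / 9) * (45 / 2) - 121 / 50 * tau ^ 2) * k ^ 2 ≤
      Qa2 - (121 / 25 - 11 / 5 * tau) * Qa - 121 / 50 * tau ^ 2 * k ^ 2 := by
    have a1 : (121 / 25 - 11 / 5 * tau) * Qa ≤ (121 / 25 - 11 / 5 * tau) * (Qa2 / 9) :=
      mul_le_mul_of_nonneg_left (by linarith) hA0
    have a2 : (1 - (121 / 25 - 11 / 5 * tau) / 9) * (45 / 2) * k ^ 2 ≤
        (1 - (121 / 25 - 11 / 5 * tau) / 9) * (45 / 2) * (2 / 45 * Qa2) :=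
      mul_le_mul_of_nonneg_left hk (by positivity)
    linarith
  set M := (1 - (121 / 25 - 11 / 5 * tau) / 9) * (1575 / 8) with hMdef
  set K := (1 - (121 / 25 - 11 / 5 * tau) / 9) * (45 / 2) - 121 / 50 * tau ^ 2 with hKdef
  set A := 121 / 25 - 11 / 5 * tau with hAdef
  set α := 6 - 2 / 5 * (121 / 25) - 8 / 5 * (11 / 5) * tau + (2 - 2 / 3 * (121 / 25)) * tau ^ 2
        - 2 / 9 * (121 / 25) * tau ^ 4 with hα
  set γ := 2 * (121 / 25) * tau - 4 * (11 / 5) * tau ^ 2 + 2 / 3 * (121 / 25) * tau ^ 3 with hγ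
  have q : 0 ≤ α * p ^ 2 - γ * p * k - 3 * A * p * m + M * m ^ 2 + K * k ^ 2 := by
    have h4 : 4 * M * K * (α * p ^ 2 - γ * p * k - 3 * A * p * m + M * m ^ 2 + K * k ^ 2) =
        K * (2 * M * m - 3 * A * p) ^ 2 + M * (2 * K * k - γ * p) ^ 2
        + (4 * α * M * K - 9 * A ^ 2 * K - γ ^ 2 * M) * p ^ 2 := by ring
    have h5 : 0 ≤ 4 * M * K * (α * p ^ 2 - γ * p * k - 3 * A * p * m + M * m ^ 2 + K * k ^ 2) := by
      rw [h4]
      have := mul_nonneg hd (sq_nonneg p)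
      positivity
    exact nonneg_of_mul_nonneg_right h5 (by positivity)
  have e3 : (6 * p ^ 2 + Ra2) + (2 * tau ^ 2 * p ^ 2 + Qa2) -
      (A * ((2 / 5 * p ^ 2 + 3 * p * m + Ra) + (2 / 3 * tau ^ 2 * p ^ 2 + 2 * tau * p * k + Qa))
      + 22 / 5 * tau * (1 + tau ^ 2) * p ^ 2
      - 22 / 5 * tau ^ 2 * p * (2 / 3 * tau * p + k)
      + 121 / 50 * tau ^ 2 * (2 / 3 * tau * p + k) ^ 2) =
      α * p ^ 2 - γ * p * k - 3 * A * p * m + (Ra2 - A * Ra)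
        + (Qa2 - A * Qa - 121 / 50 * tau ^ 2 * k ^ 2) := by
    rw [hα, hγ, hAdef]
    ring
  linarith

end Pool.Agent.NGN
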