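import Pool.Agent.NGN.B.Poin
import Pool.Agent.NGN.B.LIpoly

/-!
# NGN, part B: the inequality (LI)

PROOF PLAN. `p = w₁ 1`, `P₂ s = (3 s² - 1)/2`, `r = w₁ - p P₂` (even, `r 1 = 0`, `∫ r = 0`,
`r' = w₁' - 3 p s`), `q = w₂ - τ p s` (odd, `q 1 = 0`, `q' = w₂' - τ p`).  Then
`∫ w₁'² = 6 p² + ∫ r'²` (`∫ s r' = [s r] - ∫ r = 0`), `∫ w₁² = 2/5 p² + 3 p ∫ s² r + ∫ r²`,
`∫ w₂'² = 2 τ² p² + ∫ q'²` (`∫ q' = 0`), `∫ w₂² = 2/3 τ² p² + 2 τ p ∫ s q + ∫ q²`,
`∫ s w₂ = 2/3 τ p + ∫ s q`; conclude with `LI_poly` and the inequalities of `Poin.lean`.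
-/

set_option autoImplicit false

noncomputable section

namespace Pool.Agent.NGN

open MeasureTheory

private theorem LI_ftc {F F' : ℝ → ℝ} {a b : ℝ} (hF : ∀ s, HasDerivAt F (F' s) s)
    (hc : Continuous F') : ∫ s in a..b, F' s = F b - F a :=
  intervalIntegral.integral_eq_sub_of_hasDerivAt (fun s _ => hF s) (hc.intervalIntegrable a b)

private theorem LI_cont {q q' : ℝ → ℝ} (hq : ∀ s, HasDerivAt q (q' s) s) : Continuous q :=
  continuous_iff_continuousAt.2 fun s => (hq s).continuousAt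

private theorem LI_add3 {f g h : ℝ → ℝ} (hf : Continuous f) (hg : Continuous g)
    (hh : Continuous h) (a b : ℝ) :
    ∫ s in (-1 : ℝ)..1, (f s + a * g s + b * h s) =
      (∫ s in (-1 : ℝ)..1, f s) + a * (∫ s in (-1 : ℝ)..1, g s) +
        b * ∫ s in (-1 : ℝ)..1, h s := by
  have i1 : IntervalIntegrable f volume (-1) 1 := hf.intervalIntegrable _ _
  have i2 : IntervalIntegrable (fun s => a * g s) volume (-1) 1 :=
    Continuous.intervalIntegrable (by fun_prop) _ _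
  have i3 : IntervalIntegrable (fun s => b * h s) volume (-1) 1 :=
    Continuous.intervalIntegrable (by fun_prop) _ _
  rw [intervalIntegral.integral_add (i1.add i2) i3, intervalIntegral.integral_add i1 i2,
    intervalIntegral.integral_const_mul, intervalIntegral.integral_const_mul]

private theorem LI_pow (n : ℕ) :
    ∫ s in (-1 : ℝ)..1, s ^ n = (1 - (-1) ^ (n + 1)) / (n + 1) := by
  rw [integral_pow]
  simp

theorem LI {tau : ℝ} (h0 : 0 < tau) (h1 : tau ≤ 72655 / 100000) {w1 w1' w2 w2' : ℝ → ℝ}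
    (d1 : ∀ s, HasDerivAt w1 (w1' s) s) (c1 : Continuous w1')
    (d2 : ∀ s, HasDerivAt w2 (w2' s) s) (c2 : Continuous w2')
    (ev : ∀ s, w1 (-s) = w1 s) (od : ∀ s, w2 (-s) = -w2 s)
    (hm : ∫ s in (-1 : ℝ)..1, w1 s = 0) (he : w2 1 = tau * w1 1) :
    (121 / 25 - 11 / 5 * tau) *
        ((∫ s in (-1 : ℝ)..1, w1 s ^ 2) + ∫ s in (-1 : ℝ)..1, w2 s ^ 2)
      + 22 / 5 * tau * (1 + tau ^ 2) * w1 1 ^ 2
      - 22 / 5 * tau ^ 2 * w1 1 * (∫ s in (-1 : ℝ)..1, s * w2 s)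
      + 121 / 50 * tau ^ 2 * (∫ s in (-1 : ℝ)..1, s * w2 s) ^ 2 ≤
    (∫ s in (-1 : ℝ)..1, w1' s ^ 2) + ∫ s in (-1 : ℝ)..1, w2' s ^ 2 := by
  obtain ⟨p, hp⟩ : ∃ p, p = w1 1 := ⟨_, rfl⟩
  rw [← hp] at he ⊢
  have cw1 := LI_cont d1
  have cw2 := LI_cont d2
  have m1 : ∫ s in (-1 : ℝ)..1, s = 0 := by
    have := LI_pow 1
    simpa using this
  have m2 : ∫ s in (-1 : ℝ)..1, s ^ 2 = 2 / 3 := by
    rw [LI_pow 2]
    norm_num
  have m0 : ∫ _ in (-1 : ℝ)..1, (1 : ℝ) = 2 := by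
    simp
    norm_num
  have m4 : ∫ s in (-1 : ℝ)..1, ((3 * s ^ 2 - 1) / 2) ^ 2 = 2 / 5 := by
    have hG : ∀ s : ℝ, HasDerivAt (fun s : ℝ => 9 * s ^ 5 / 20 - s ^ 3 / 2 + s / 4)
        (((3 * s ^ 2 - 1) / 2) ^ 2) s := by
      intro s
      have h2 := ((((hasDerivAt_pow 5 s).const_mul 9).div_const 20).sub
        ((hasDerivAt_pow 3 s).div_const 2)).add ((hasDerivAt_id s).div_const 4)
      refine h2.congr_deriv ?_
      norm_num
      ring
    rw [LI_ftc hG (by fun_prop)]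
    norm_num
  have mP : ∫ s in (-1 : ℝ)..1, ((3 * s ^ 2 - 1) / 2) = 0 := by
    have hG : ∀ s : ℝ, HasDerivAt (fun s : ℝ => s ^ 3 / 2 - s / 2)
        ((3 * s ^ 2 - 1) / 2) s := by
      intro s
      have h2 := ((hasDerivAt_pow 3 s).div_const 2).sub ((hasDerivAt_id s).div_const 2)
      refine h2.congr_deriv ?_
      norm_num
      ring
    rw [LI_ftc hG (by fun_prop)]
    norm_num
  -- the remainders
  obtain ⟨r, hr⟩ : ∃ r : ℝ → ℝ, r = fun s => w1 s - p * ((3 * s ^ 2 - 1) / 2) := ⟨_, rfl⟩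
  obtain ⟨r', hr'⟩ : ∃ r' : ℝ → ℝ, r' = fun s => w1' s - 3 * p * s := ⟨_, rfl⟩
  obtain ⟨q, hq⟩ : ∃ q : ℝ → ℝ, q = fun s => w2 s - tau * p * s := ⟨_, rfl⟩
  obtain ⟨q', hq'⟩ : ∃ q' : ℝ → ℝ, q' = fun s => w2' s - tau * p := ⟨_, rfl⟩
  have dr : ∀ s, HasDerivAt r (r' s) s := by
    intro s
    rw [hr, hr']
    have h2 := (d1 s).sub ((((((hasDerivAt_pow 2 s).const_mul 3).sub_const 1).div_const 2)).const_mul p)
    refine h2.congr_deriv ?_
    norm_num
    ring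
  have dq : ∀ s, HasDerivAt q (q' s) s := by
    intro s
    rw [hq, hq']
    have h2 := (d2 s).sub ((hasDerivAt_id s).const_mul (tau * p))
    refine h2.congr_deriv ?_
    simp
  have cr' : Continuous r' := by rw [hr']; fun_prop
  have cq' : Continuous q' := by rw [hq']; fun_prop
  have cr := LI_cont dr
  have cq := LI_cont dq
  have evr : ∀ s, r (-s) = r s := by
    intro s
    rw [hr]
    simp only [ev, neg_sq]
  have odq : ∀ s, q (-s) = -q s := by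
    intro s
    rw [hq]
    simp only [od]
    ring
  have r1 : r 1 = 0 := by
    rw [hr]
    simp only [← hp]
    norm_num
  have q1 : q 1 = 0 := by
    rw [hq]
    simp only [he]
    ring
  have r0 : ∫ s in (-1 : ℝ)..1, r s = 0 := by
    have e : ∫ s in (-1 : ℝ)..1, r s =
        ∫ s in (-1 : ℝ)..1, (w1 s + (-p) * ((3 * s ^ 2 - 1) / 2) + 0 * s) := by
      rw [hr]
      congr 1
      ext s
      ring
    rw [e, LI_add3 cw1 (by fun_prop) (by fun_prop), hm, mP]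
    ring
  -- the two vanishing integrals
  have z1 : ∫ s in (-1 : ℝ)..1, s * r' s = 0 := by
    have hF : ∀ s, HasDerivAt (fun s => s * r s) (r s + s * r' s) s := fun s =>
      ((hasDerivAt_id s).mul (dr s)).congr_deriv (by simp)
    have h2 : ∫ s in (-1 : ℝ)..1, (r s + s * r' s) = 0 := by
      rw [LI_ftc hF (by fun_prop), evr, r1]
      ring
    have i1 : IntervalIntegrable (fun s => r s) volume (-1) 1 := cr.intervalIntegrable _ _
    have i2 : IntervalIntegrable (fun s => s * r' s) volume (-1) 1 :=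
      Continuous.intervalIntegrable (by fun_prop) _ _
    rw [intervalIntegral.integral_add i1 i2, r0] at h2
    linarith
  have z2 : ∫ s in (-1 : ℝ)..1, q' s = 0 := by
    rw [LI_ftc dq cq', odq, q1]
    ring
  -- expansions
  have e1 : ∫ s in (-1 : ℝ)..1, w1' s ^ 2 = 6 * p ^ 2 + ∫ s in (-1 : ℝ)..1, r' s ^ 2 := by
    have e : ∫ s in (-1 : ℝ)..1, w1' s ^ 2 =
        ∫ s in (-1 : ℝ)..1, (r' s ^ 2 + (6 * p) * (s * r' s) + (9 * p ^ 2) * s ^ 2) := by
      rw [hr']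
      congr 1
      ext s
      ring
    rw [e, LI_add3 (f := fun s => r' s ^ 2) (g := fun s => s * r' s) (h := fun s => s ^ 2)
      (by fun_prop) (by fun_prop) (by fun_prop), z1, m2]
    ring
  have e2 : ∫ s in (-1 : ℝ)..1, w1 s ^ 2 = 2 / 5 * p ^ 2 +
      3 * p * (∫ s in (-1 : ℝ)..1, s ^ 2 * r s) + ∫ s in (-1 : ℝ)..1, r s ^ 2 := by
    have e : ∫ s in (-1 : ℝ)..1, w1 s ^ 2 =
        ∫ s in (-1 : ℝ)..1, ((r s ^ 2 + (3 * p) * (s ^ 2 * r s) + (-p) * r s) +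
          p ^ 2 * (((3 * s ^ 2 - 1) / 2) ^ 2) + 0 * s) := by
      rw [hr]
      congr 1
      ext s
      ring
    rw [e, LI_add3 (f := fun s => r s ^ 2 + (3 * p) * (s ^ 2 * r s) + (-p) * r s)
      (g := fun s => ((3 * s ^ 2 - 1) / 2) ^ 2) (h := fun s => s)
      (by fun_prop) (by fun_prop) (by fun_prop),
      LI_add3 (f := fun s => r s ^ 2) (g := fun s => s ^ 2 * r s) (h := fun s => r s)
      (by fun_prop) (by fun_prop) (by fun_prop), r0, m4]
    ring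
  have e3 : ∫ s in (-1 : ℝ)..1, w2' s ^ 2 = 2 * tau ^ 2 * p ^ 2 +
      ∫ s in (-1 : ℝ)..1, q' s ^ 2 := by
    have e : ∫ s in (-1 : ℝ)..1, w2' s ^ 2 =
        ∫ s in (-1 : ℝ)..1, (q' s ^ 2 + (2 * tau * p) * q' s + (tau ^ 2 * p ^ 2) * 1) := by
      rw [hq']
      congr 1
      ext s
      ring
    rw [e, LI_add3 (f := fun s => q' s ^ 2) (g := fun s => q' s) (h := fun _ => 1)
      (by fun_prop) (by fun_prop) (by fun_prop), z2, m0]
    ring
  have e4 : ∫ s in (-1 : ℝ)..1, w2 s ^ 2 = 2 / 3 * tau ^ 2 * p ^ 2 +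
      2 * tau * p * (∫ s in (-1 : ℝ)..1, s * q s) + ∫ s in (-1 : ℝ)..1, q s ^ 2 := by
    have e : ∫ s in (-1 : ℝ)..1, w2 s ^ 2 =
        ∫ s in (-1 : ℝ)..1, (q s ^ 2 + (2 * tau * p) * (s * q s) + (tau ^ 2 * p ^ 2) * s ^ 2) := by
      rw [hq]
      congr 1
      ext s
      ring
    rw [e, LI_add3 (f := fun s => q s ^ 2) (g := fun s => s * q s) (h := fun s => s ^ 2)
      (by fun_prop) (by fun_prop) (by fun_prop), m2]
    ring
  have e5 : ∫ s in (-1 : ℝ)..1, s * w2 s = 2 / 3 * tau * p + ∫ s in (-1 : ℝ)..1, s * q s := by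
    have e : ∫ s in (-1 : ℝ)..1, s * w2 s =
        ∫ s in (-1 : ℝ)..1, (s * q s + (tau * p) * s ^ 2 + 0 * s) := by
      rw [hq]
      congr 1
      ext s
      ring
    rw [e, LI_add3 (f := fun s => s * q s) (g := fun s => s ^ 2) (h := fun s => s)
      (by fun_prop) (by fun_prop) (by fun_prop), m2, m1]
    ring
  rw [e1, e2, e3, e4, e5]
  have nR : 0 ≤ ∫ s in (-1 : ℝ)..1, r s ^ 2 :=
    intervalIntegral.integral_nonneg (by norm_num) fun s _ => sq_nonneg _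
  have nQ : 0 ≤ ∫ s in (-1 : ℝ)..1, q s ^ 2 :=
    intervalIntegral.integral_nonneg (by norm_num) fun s _ => sq_nonneg _
  exact LI_poly h0.le h1 nR nQ (poin_even dr cr' evr r1 r0) (mom_even dr cr' evr r1 r0)
    (poin_odd dq cq' odq q1) (mom_odd dq cq' odq q1)

end Pool.Agent.NGN
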