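import Pool.Agent.NGN.B.Fan
import Pool.Agent.NGN.B.Par
import Pool.Agent.NGN.B.Om

/-!
# NGN, part B: symmetrisation with respect to the conjugation (blueprint (B1), end)

PROOF PLAN. `V z = (U z + conj (U (conj z)))/2`, `W z = -i (U z - conj (U (conj z)))/2 · (-1)…`:
put `V' z = i (U z - conj (U (conj z)))/2`.  Both satisfy `V (conj z) = conj (V z)` and
`V (ω z) = ω V z` (`U (ω⁻¹ w) = ω⁻¹ U w`), are `C¹`, and
`EC V + EC V' = EC U`, `MC V + MC V' = MC U`: pointwise
`|∂V|²(z) + |∂V'|²(z) = (|∂U|²(z) + |∂U|²(conj z))/2` for `∂ = ∂ₓ` and `∂ = ∂_y`, and `sec tau` is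
invariant under `conj` (use `sec_integral` and `s ↦ -s`, `pt_neg`, or a measure preserving map).
If both `V` and `V'` violate `EC ≤ R MC ∧ 0 < MC`, then `EC U > R MC U` (a summand with `MC = 0` has
`EC ≥ 0 = R MC`; at least one summand has `MC > 0`), contradiction.
-/

set_option autoImplicit false

noncomputable section

namespace Pool.Agent.NGN

open MeasureTheory

theorem ER_nonneg (tau : ℝ) (f : ℂ → ℝ) : 0 ≤ ER tau f := by
  unfold ER
  refine integral_nonneg fun z => ?_
  change 0 ≤ (fderiv ℝ f z 1) ^ 2 + (fderiv ℝ f z Complex.I) ^ 2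
  positivity

theorem MR_nonneg {tau : ℝ} (ht : 0 ≤ tau) (f : ℂ → ℝ) : 0 ≤ MR tau f := by
  unfold MR
  exact intervalIntegral.integral_nonneg (by linarith) fun y _ => sq_nonneg _

private theorem Symm_grad2_conj {f : ℂ → ℝ} (z : ℂ) :
    grad2 (fun z => f ((starRingEnd ℂ) z)) z = grad2 f ((starRingEnd ℂ) z) := by
  have h : fderiv ℝ (fun z => f ((starRingEnd ℂ) z)) z =
      (fderiv ℝ f (Complex.conjCLE z)).comp (Complex.conjCLE : ℂ →L[ℝ] ℂ) :=
    ContinuousLinearEquiv.comp_right_fderiv Complex.conjCLE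
  have h1 : fderiv ℝ (fun z => f ((starRingEnd ℂ) z)) z 1 = fderiv ℝ f ((starRingEnd ℂ) z) 1 := by
    rw [h]
    simp
  have h2 : fderiv ℝ (fun z => f ((starRingEnd ℂ) z)) z Complex.I =
      - fderiv ℝ f ((starRingEnd ℂ) z) Complex.I := by
    rw [h]
    simp
  unfold grad2
  rw [h1, h2]
  ring

private theorem Symm_ER_conj {tau : ℝ} (ht : 0 < tau) {f : ℂ → ℝ} (hf : ContDiff ℝ 1 f) :
    ER tau (fun z => f ((starRingEnd ℂ) z)) = ER tau f := by
  unfold ER
  simp only [Symm_grad2_conj]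
  have hc : Continuous (grad2 f) := continuous_grad2 hf
  have hc2 : Continuous fun z : ℂ => grad2 f ((starRingEnd ℂ) z) := hc.comp Complex.continuous_conj
  rw [sec_integral ht hc, sec_integral ht hc2]
  congr 1
  refine intervalIntegral.integral_congr fun x _ => ?_
  congr 1
  simp only [← pt_neg]
  rw [intervalIntegral.integral_comp_neg (fun s => grad2 f (pt tau x s)), neg_neg]

private theorem Symm_MR_conj (tau : ℝ) (f : ℂ → ℝ) :
    MR tau (fun z => f ((starRingEnd ℂ) z)) = MR tau f := by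
  unfold MR
  have h : ∀ y : ℝ, (f ((starRingEnd ℂ) ⟨1, y⟩)) ^ 2 = (fun y : ℝ => (f ⟨1, y⟩) ^ 2) (-y) := by
    intro y
    change _ = (f ⟨1, -y⟩) ^ 2
    congr 2
  simp only [h]
  rw [intervalIntegral.integral_comp_neg (fun y : ℝ => (f ⟨1, y⟩) ^ 2), neg_neg]

private theorem Symm_ER_par {tau : ℝ} (ht : 0 < tau) {f g : ℂ → ℝ} (hf : ContDiff ℝ 1 f) (hg : ContDiff ℝ 1 g) :
    ER tau (fun z => (f z + g z) / 2) + ER tau (fun z => (f z - g z) / 2) = (ER tau f + ER tau g) / 2 := by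
  have hp : ContDiff ℝ 1 (fun z => (f z + g z) / 2) := (hf.add hg).div_const 2
  have hm : ContDiff ℝ 1 (fun z => (f z - g z) / 2) := (hf.sub hg).div_const 2
  have key : ∀ z, grad2 (fun z => (f z + g z) / 2) z + grad2 (fun z => (f z - g z) / 2) z =
      (grad2 f z + grad2 g z) / 2 := by
    intro z
    have df : DifferentiableAt ℝ f z := hf.differentiable (by norm_num) z
    have dg : DifferentiableAt ℝ g z := hg.differentiable (by norm_num) z
    have h1 : HasFDerivAt (fun z => (f z + g z) / 2) ((2 : ℝ)⁻¹ • (fderiv ℝ f z + fderiv ℝ g z)) z := by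
      have := (df.hasFDerivAt.add dg.hasFDerivAt).const_mul (2 : ℝ)⁻¹
      refine this.congr_of_eventuallyEq (Filter.Eventually.of_forall fun w => ?_)
      change (f w + g w) / 2 = 2⁻¹ * (f w + g w)
      ring
    have h2 : HasFDerivAt (fun z => (f z - g z) / 2) ((2 : ℝ)⁻¹ • (fderiv ℝ f z - fderiv ℝ g z)) z := by
      have := (df.hasFDerivAt.sub dg.hasFDerivAt).const_mul (2 : ℝ)⁻¹
      refine this.congr_of_eventuallyEq (Filter.Eventually.of_forall fun w => ?_)
      change (f w - g w) / 2 = 2⁻¹ * (f w - g w)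
      ring
    unfold grad2
    rw [h1.fderiv, h2.fderiv]
    change (2⁻¹ * (fderiv ℝ f z 1 + fderiv ℝ g z 1)) ^ 2 +
        (2⁻¹ * (fderiv ℝ f z Complex.I + fderiv ℝ g z Complex.I)) ^ 2 +
      ((2⁻¹ * (fderiv ℝ f z 1 - fderiv ℝ g z 1)) ^ 2 +
        (2⁻¹ * (fderiv ℝ f z Complex.I - fderiv ℝ g z Complex.I)) ^ 2) = _
    ring
  unfold ER
  rw [← integral_add (integrableOn_sec ht (continuous_grad2 hp)) (integrableOn_sec ht (continuous_grad2 hm)),
    ← integral_add (integrableOn_sec ht (continuous_grad2 hf)) (integrableOn_sec ht (continuous_grad2 hg)),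
    ← integral_div]
  simp only [key]

private theorem Symm_cont_side {f : ℂ → ℝ} (hf : Continuous f) : Continuous fun y : ℝ => f ⟨1, y⟩ := by
  have hc : Continuous (fun y : ℝ => (1 : ℂ) + (y : ℂ) * Complex.I) := by fun_prop
  exact hf.comp (hc.congr fun y => by apply Complex.ext <;> simp)

private theorem Symm_MR_par {tau : ℝ} {f g : ℂ → ℝ} (hf : Continuous f) (hg : Continuous g) :
    MR tau (fun z => (f z + g z) / 2) + MR tau (fun z => (f z - g z) / 2) = (MR tau f + MR tau g) / 2 := by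
  have hf1 := Symm_cont_side hf
  have hg1 := Symm_cont_side hg
  unfold MR
  have hA : IntervalIntegrable (fun y : ℝ => ((f ⟨1, y⟩ + g ⟨1, y⟩) / 2) ^ 2) volume (-tau) tau :=
    Continuous.intervalIntegrable (((hf1.add hg1).div_const 2).pow 2) _ _
  have hB : IntervalIntegrable (fun y : ℝ => ((f ⟨1, y⟩ - g ⟨1, y⟩) / 2) ^ 2) volume (-tau) tau :=
    Continuous.intervalIntegrable (((hf1.sub hg1).div_const 2).pow 2) _ _
  have hC : IntervalIntegrable (fun y : ℝ => (f ⟨1, y⟩) ^ 2) volume (-tau) tau :=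
    Continuous.intervalIntegrable (hf1.pow 2) _ _
  have hD : IntervalIntegrable (fun y : ℝ => (g ⟨1, y⟩) ^ 2) volume (-tau) tau :=
    Continuous.intervalIntegrable (hg1.pow 2) _ _
  rw [← intervalIntegral.integral_add hA hB, ← intervalIntegral.integral_add hC hD,
    ← intervalIntegral.integral_div]
  refine intervalIntegral.integral_congr fun y _ => ?_
  change ((f ⟨1, y⟩ + g ⟨1, y⟩) / 2) ^ 2 + ((f ⟨1, y⟩ - g ⟨1, y⟩) / 2) ^ 2 =
    ((f ⟨1, y⟩) ^ 2 + (g ⟨1, y⟩) ^ 2) / 2
  ring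

private theorem Symm_ER_neg (tau : ℝ) (f : ℂ → ℝ) : ER tau (fun z => - f z) = ER tau f := by
  unfold ER grad2
  have h : ∀ z, fderiv ℝ (fun z => - f z) z = - fderiv ℝ f z := fun z => fderiv_fun_neg
  simp only [h]
  refine integral_congr_ae (Filter.Eventually.of_forall fun z => ?_)
  change (- fderiv ℝ f z 1) ^ 2 + (- fderiv ℝ f z Complex.I) ^ 2 = _
  ring

private theorem Symm_MR_neg (tau : ℝ) (f : ℂ → ℝ) : MR tau (fun z => - f z) = MR tau f := by
  unfold MR
  simp only [neg_sq]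

theorem exists_sym {n : ℕ} {tau R : ℝ} (ht : 0 < tau) {U : ℂ → ℂ}
    (hU : ContDiff ℝ 1 U) (hrot : ∀ z, U (omN n * z) = omN n * U z)
    (hE : EC tau U ≤ R * MC tau U) (hM : 0 < MC tau U) :
    ∃ V : ℂ → ℂ, Sym n V ∧ EC tau V ≤ R * MC tau V ∧ 0 < MC tau V := by
  have hom0 := omN_ne_zero n
  have hinv : ∀ w, U ((omN n)⁻¹ * w) = (omN n)⁻¹ * U w := by
    intro w
    have h := hrot ((omN n)⁻¹ * w)
    rw [mul_inv_cancel_left₀ hom0] at h
    rw [h, inv_mul_cancel_left₀ hom0]
  have hcinv : (starRingEnd ℂ) ((omN n)⁻¹) = omN n := by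
    rw [← conj_omN, Complex.conj_conj]
  have hcr : ∀ z, (starRingEnd ℂ) (U ((starRingEnd ℂ) (omN n * z))) =
      omN n * (starRingEnd ℂ) (U ((starRingEnd ℂ) z)) := by
    intro z
    rw [map_mul, conj_omN, hinv, map_mul, hcinv]
  have hUc : ContDiff ℝ 1 (fun z => (starRingEnd ℂ) (U ((starRingEnd ℂ) z))) :=
    (Complex.conjCLE.contDiff.comp (hU.comp Complex.conjCLE.contDiff) :)
  let V : ℂ → ℂ := fun z => (U z + (starRingEnd ℂ) (U ((starRingEnd ℂ) z))) / 2
  let W : ℂ → ℂ := fun z => Complex.I * (U z - (starRingEnd ℂ) (U ((starRingEnd ℂ) z))) / 2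
  have hV : Sym n V := by
    refine ⟨(hU.add hUc).div_const 2, fun z => ?_, fun z => ?_⟩
    · change (U (omN n * z) + (starRingEnd ℂ) (U ((starRingEnd ℂ) (omN n * z)))) / 2 =
        omN n * ((U z + (starRingEnd ℂ) (U ((starRingEnd ℂ) z))) / 2)
      rw [hcr, hrot]
      ring
    · change (U ((starRingEnd ℂ) z) + (starRingEnd ℂ) (U ((starRingEnd ℂ) ((starRingEnd ℂ) z)))) / 2 =
        (starRingEnd ℂ) ((U z + (starRingEnd ℂ) (U ((starRingEnd ℂ) z))) / 2)
      rw [map_div₀, map_add, Complex.conj_conj, Complex.conj_conj, Complex.conj_ofNat, add_comm]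
  have hW : Sym n W := by
    refine ⟨((contDiff_const.mul (hU.sub hUc)).div_const 2 :), fun z => ?_, fun z => ?_⟩
    · change Complex.I * (U (omN n * z) - (starRingEnd ℂ) (U ((starRingEnd ℂ) (omN n * z)))) / 2 =
        omN n * (Complex.I * (U z - (starRingEnd ℂ) (U ((starRingEnd ℂ) z))) / 2)
      rw [hcr, hrot]
      ring
    · change Complex.I * (U ((starRingEnd ℂ) z) - (starRingEnd ℂ) (U ((starRingEnd ℂ) ((starRingEnd ℂ) z)))) / 2 =
        (starRingEnd ℂ) (Complex.I * (U z - (starRingEnd ℂ) (U ((starRingEnd ℂ) z))) / 2)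
      rw [map_div₀, map_mul, map_sub, Complex.conj_conj, Complex.conj_conj, Complex.conj_ofNat, Complex.conj_I]
      ring
  -- real and imaginary parts
  set u1 : ℂ → ℝ := fun z => (U z).re with hu1
  set u2 : ℂ → ℝ := fun z => (U z).im with hu2
  have c1 : ContDiff ℝ 1 u1 := (Complex.reCLM.contDiff.comp hU :)
  have c2 : ContDiff ℝ 1 u2 := (Complex.imCLM.contDiff.comp hU :)
  have c1' : ContDiff ℝ 1 (fun z => u1 ((starRingEnd ℂ) z)) := (c1.comp Complex.conjCLE.contDiff :)
  have c2' : ContDiff ℝ 1 (fun z => u2 ((starRingEnd ℂ) z)) := (c2.comp Complex.conjCLE.contDiff :)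
  have eV1 : (fun z => (V z).re) = fun z => (u1 z + u1 ((starRingEnd ℂ) z)) / 2 := by
    funext z
    change ((U z + (starRingEnd ℂ) (U ((starRingEnd ℂ) z))) / 2).re = _
    simp [hu1]
  have eV2 : (fun z => (V z).im) = fun z => (u2 z - u2 ((starRingEnd ℂ) z)) / 2 := by
    funext z
    change ((U z + (starRingEnd ℂ) (U ((starRingEnd ℂ) z))) / 2).im = _
    simp [hu2, sub_eq_add_neg]
  have eW1 : (fun z => (W z).re) = fun z => - ((u2 z + u2 ((starRingEnd ℂ) z)) / 2) := by
    funext z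
    change (Complex.I * (U z - (starRingEnd ℂ) (U ((starRingEnd ℂ) z))) / 2).re = _
    simp [hu2]
    ring
  have eW2 : (fun z => (W z).im) = fun z => (u1 z - u1 ((starRingEnd ℂ) z)) / 2 := by
    funext z
    change (Complex.I * (U z - (starRingEnd ℂ) (U ((starRingEnd ℂ) z))) / 2).im = _
    simp [hu1]
  have hEs : EC tau V + EC tau W = EC tau U := by
    unfold EC
    rw [eV1, eV2, eW1, eW2, Symm_ER_neg]
    have h1 := Symm_ER_par ht c1 c1'
    have h2 := Symm_ER_par ht c2 c2'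
    rw [Symm_ER_conj ht c1] at h1
    rw [Symm_ER_conj ht c2] at h2
    linarith
  have hMs : MC tau V + MC tau W = MC tau U := by
    unfold MC
    rw [eV1, eV2, eW1, eW2, Symm_MR_neg]
    have h1 := Symm_MR_par (tau := tau) c1.continuous c1'.continuous
    have h2 := Symm_MR_par (tau := tau) c2.continuous c2'.continuous
    rw [Symm_MR_conj] at h1 h2
    linarith
  have hEV : 0 ≤ EC tau V := add_nonneg (ER_nonneg _ _) (ER_nonneg _ _)
  have hEW : 0 ≤ EC tau W := add_nonneg (ER_nonneg _ _) (ER_nonneg _ _)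
  have hMV : 0 ≤ MC tau V := add_nonneg (MR_nonneg ht.le _) (MR_nonneg ht.le _)
  have hMW : 0 ≤ MC tau W := add_nonneg (MR_nonneg ht.le _) (MR_nonneg ht.le _)
  by_contra hcon
  push Not at hcon
  have h1 : EC tau V ≤ R * MC tau V → MC tau V ≤ 0 := fun h => hcon V hV h
  have h2 : EC tau W ≤ R * MC tau W → MC tau W ≤ 0 := fun h => hcon W hW h
  rw [← hEs, ← hMs, mul_add] at hE
  rw [← hMs] at hM
  by_cases a1 : EC tau V ≤ R * MC tau V
  · have z1 : MC tau V = 0 := le_antisymm (h1 a1) hMV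
    by_cases a2 : EC tau W ≤ R * MC tau W
    · have z2 := le_antisymm (h2 a2) hMW
      rw [z1, z2] at hM
      norm_num at hM
    · rw [z1] at hE a1
      rw [mul_zero] at hE a1
      push Not at a2
      linarith
  · push Not at a1
    by_cases a2 : EC tau W ≤ R * MC tau W
    · have z2 := le_antisymm (h2 a2) hMW
      rw [z2] at hE a2
      rw [mul_zero] at hE a2
      linarith
    · push Not at a2
      linarith

end Pool.Agent.NGN
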