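import Pool.Agent.NGN.B.Norm
import Pool.Agent.NGN.B.Symm
import Pool.Agent.NGN.B.Dft
import Pool.Agent.NGN.B.Class0
import Pool.Agent.NGN.B.Class2
import Pool.Agent.NGN.B.Cover
import Pool.Agent.NGN.B.Bdn

/-!
# NGN, part B: the main theorem of part B
-/

set_option autoImplicit false

noncomputable section

namespace Pool.Agent.NGN

open MeasureTheory

/-- The class inequality for the components `2 ≤ m ≤ n - 2`. -/
theorem class_um {n : ℕ} (hn : 5 ≤ n) {u : ℂ → ℝ} (hu : ContDiff ℝ 1 u) {m : ℕ} (h2 : 2 ≤ m)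
    (hm : m + 2 ≤ n) : MC (tauN n) (um n u m) ≤ EC (tauN n) (um n u m) := by
  have hn0 : n ≠ 0 := by omega
  have hτ := tauN_pos' (n := n) (by omega)
  have hC := um_contDiff (n := n) hu m
  have hrot := um_rot hn0 u m
  have h0 : um n u m 0 = 0 := by
    have h := hrot 0
    rw [mul_zero] at h
    have h3 : omN n ^ m ≠ 1 := (omN_primitive hn0).pow_ne_one_of_pos_of_lt (by omega) (by omega)
    have h4 : (omN n ^ m - 1) * um n u m 0 = 0 := by linear_combination -h
    rcases mul_eq_zero.1 h4 with h5 | h5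
    · exact absurd (sub_eq_zero.1 h5) h3
    · exact h5
  apply class_ge hτ
  · exact Complex.reCLM.contDiff.comp hC
  · exact Complex.imCLM.contDiff.comp hC
  · simp [h0]
  · simp [h0]
  · intro x hx hx1
    have h6 : um n u m (pt (tauN n) x 1) = omN n ^ m * um n u m (pt (tauN n) x (-1)) := by
      rw [leg_rot (by omega) x, hrot]
    have h7 := tau_sq_le_norm (n := n) (by omega) h2 hm
    set a := um n u m (pt (tauN n) x (-1)) with ha
    rw [h6]
    have h8 : ‖omN n ^ m * a‖ ^ 2 = ‖a‖ ^ 2 := by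
      rw [norm_mul, norm_pow, norm_omN, one_pow, one_mul]
    have h9 : ‖omN n ^ m * a - a‖ ^ 2 = ‖omN n ^ m - 1‖ ^ 2 * ‖a‖ ^ 2 := by
      rw [← mul_pow, ← norm_mul]
      congr 2
      ring
    have e : ∀ w : ℂ, ‖w‖ ^ 2 = w.re ^ 2 + w.im ^ 2 := fun w => by
      rw [← Complex.normSq_eq_norm_sq, Complex.normSq_apply]
      ring
    have h10 : (omN n ^ m * a).re ^ 2 + (omN n ^ m * a).im ^ 2 = ‖a‖ ^ 2 := by rw [← e, h8]
    have h11 : ((omN n ^ m * a).re - a.re) ^ 2 + ((omN n ^ m * a).im - a.im) ^ 2 =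
        ‖omN n ^ m - 1‖ ^ 2 * ‖a‖ ^ 2 := by
      rw [← h9, e, Complex.sub_re, Complex.sub_im]
    have h12 : a.re ^ 2 + a.im ^ 2 = ‖a‖ ^ 2 := (e a).symm
    rw [h11]
    have h13 : 2 * tauN n ^ 2 * ((omN n ^ m * a).re ^ 2 + a.re ^ 2 + (omN n ^ m * a).im ^ 2
        + a.im ^ 2) = 4 * tauN n ^ 2 * ‖a‖ ^ 2 := by
      calc _ = 2 * tauN n ^ 2 * (((omN n ^ m * a).re ^ 2 + (omN n ^ m * a).im ^ 2)
            + (a.re ^ 2 + a.im ^ 2)) := by ring
        _ = _ := by rw [h10, h12]; ring
    rw [h13]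
    exact mul_le_mul_of_nonneg_right h7 (sq_nonneg _)

theorem continuous_side : Continuous fun y : ℝ => (⟨1, y⟩ : ℂ) := by
  have h : (fun y : ℝ => (⟨1, y⟩ : ℂ)) = fun y : ℝ => 1 + (y : ℂ) * Complex.I := by
    funext y
    apply Complex.ext <;> simp
  have h2 : Continuous fun y : ℝ => 1 + (y : ℂ) * Complex.I := by fun_prop
  rwa [← h] at h2

/-- The class inequality for the component `0`. -/
theorem class_um0 {n : ℕ} [NeZero n] (hn : 5 ≤ n) {u : ℂ → ℝ} (hu : ContDiff ℝ 1 u)
    (h0 : bdN (regP n) u = 0) : MC (tauN n) (um n u 0) ≤ EC (tauN n) (um n u 0) := by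
  have hn0 : n ≠ 0 := by omega
  have hτ := tauN_pos' (n := n) (by omega)
  have hτ1 := tauN_le5 hn
  have hC := um_contDiff (n := n) hu 0
  have him : (fun z => (um n u 0 z).im) = fun _ => 0 := by
    funext z
    rw [um_zero]
    simp
  have hre : MR (tauN n) (fun z => (um n u 0 z).re) ≤ ER (tauN n) (fun z => (um n u 0 z).re) := by
    apply class0_ge hτ (by nlinarith) (Complex.reCLM.contDiff.comp hC)
    · intro x
      show (um n u 0 (pt (tauN n) x 1)).re = (um n u 0 (pt (tauN n) x (-1))).re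
      rw [leg_rot (by omega) x, um_rot hn0, pow_zero, one_mul]
    · have h1 := side_integral hτ (fun z => (um n u 0 z).re)
      have h2 : ∫ y in (-tauN n)..(tauN n), (um n u 0 ⟨1, y⟩).re = 0 := by
        have h3 : ∀ y : ℝ, (um n u 0 ⟨1, y⟩).re =
            (1 / n : ℝ) * ∑ j ∈ Finset.range n, u (omN n ^ j * ⟨1, y⟩) := by
          intro y
          rw [um_zero, Complex.ofReal_re]
        simp_rw [h3]
        rw [intervalIntegral.integral_const_mul, intervalIntegral.integral_finsetSum,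
          ← bdN_regP (by omega), h0, mul_zero]
        intro j _
        apply Continuous.intervalIntegrable
        have : Continuous u := hu.continuous
        apply this.comp
        apply continuous_const.mul
        exact continuous_side
      rw [h2] at h1
      rcases mul_eq_zero.1 h1.symm with h3 | h3
      · exact absurd h3 hτ.ne'
      · exact h3
  unfold MC EC
  rw [him]
  have e1 : MR (tauN n) (fun _ => 0) = 0 := by unfold MR; simp
  have e2 : ER (tauN n) (fun _ => 0) = 0 := by unfold ER grad2; simp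
  rw [e1, e2, add_zero, add_zero]
  exact hre

theorem EC_conj {tau : ℝ} {U V : ℂ → ℂ} (h : ∀ z, V z = (starRingEnd ℂ) (U z)) :
    EC tau V = EC tau U ∧ MC tau V = MC tau U := by
  have h1 : (fun z => (V z).re) = fun z => (U z).re := by funext z; rw [h]; simp
  have h2 : (fun z => (V z).im) = fun z => -(U z).im := by funext z; rw [h]; simp
  constructor
  · unfold EC
    rw [h1, h2]
    congr 1
    unfold ER grad2
    apply integral_congr_ae
    filter_upwards with z
    rw [fderiv_fun_neg]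
    simp
  · unfold MC
    rw [h1, h2]
    congr 1
    unfold MR
    simp

theorem B_main {n : ℕ} [NeZero n] (hn : 5 ≤ n) {u : ℂ → ℝ} (hu : ContDiff ℝ 1 u)
    (h0 : bdN (regP n) u = 0) (h1 : bdN (regP n) (fun z => u z ^ 2) ≠ 0) {R : ℝ}
    (hR : R = (∫ z in regO n, grad2 u z) / bdN (regP n) (fun z => u z ^ 2))
    (hR1 : R < 1 / delN n) :
    0 < R ∧ ∃ v : ℂ → ℂ, VV n v ∧
      R * (datOf (tauN n) v).l = 2 * tauN n * (1 - R * delN n) ∧
      (datOf (tauN n) v).E - R * (datOf (tauN n) v).M ≤ 2 * tauN n * (1 - R * delN n) ∧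
      (datOf (tauN n) v).l ^ 2 ≤ tauN n ^ 3 / n * kapN n * (datOf (tauN n) v).E ∧
      11 / (5 * tauN n) * (datOf (tauN n) v).M ≤ (datOf (tauN n) v).E := by
  have hn0 : n ≠ 0 := by omega
  have hτ := tauN_pos' (n := n) (by omega)
  have hδ : 1 ≤ delN n := by unfold delN; nlinarith [sq_nonneg (tauN n)]
  have hR1' : R < 1 := lt_of_lt_of_le hR1 (by rw [div_le_one (by linarith)]; exact hδ)
  have hnR : (0 : ℝ) < n := by exact_mod_cast Nat.pos_of_ne_zero hn0
  -- energies
  have eE := sum_energy (n := n) (by omega) hu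
  have eM : bdN (regP n) (fun z => u z ^ 2) =
      ∑ j ∈ Finset.range n, MR (tauN n) (fun z => u (omN n ^ j * z)) := by
    rw [bdN_regP (by omega)]
    rfl
  have sE := um_energy hn0 hτ hu
  have sM := um_mass hn0 hτ hu
  rw [← eE] at sE
  rw [← eM] at sM
  set Et : ℝ := ∫ z in regO n, grad2 u z with hEt
  set Mt : ℝ := bdN (regP n) (fun z => u z ^ 2) with hMt
  have hMt0 : 0 < Mt := by
    refine lt_of_le_of_ne ?_ (Ne.symm h1)
    rw [eM]
    exact Finset.sum_nonneg fun j _ => MR_nonneg hτ.le _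
  have hERM : Et = R * Mt := by rw [hR]; field_simp
  -- the function `F m = EC - R MC` of the components
  set F : ℕ → ℝ := fun m => EC (tauN n) (um n u m) - R * MC (tauN n) (um n u m) with hF
  have hMC0 : ∀ m, 0 ≤ MC (tauN n) (um n u m) := fun m =>
    add_nonneg (MR_nonneg hτ.le _) (MR_nonneg hτ.le _)
  have hEC0 : ∀ m, 0 ≤ EC (tauN n) (um n u m) := fun m =>
    add_nonneg (ER_nonneg _ _) (ER_nonneg _ _)
  have hsumF : ∑ m ∈ Finset.range n, F m = 0 := by
    simp only [hF]
    rw [Finset.sum_sub_distrib, ← Finset.mul_sum, sE, sM, hERM]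
    ring
  have hmid : ∀ m ∈ Finset.range n, m ≠ 1 → m ≠ n - 1 →
      (1 - R) * MC (tauN n) (um n u m) ≤ F m := by
    intro m hm hm1 hm2
    rw [Finset.mem_range] at hm
    have : MC (tauN n) (um n u m) ≤ EC (tauN n) (um n u m) := by
      rcases Nat.eq_zero_or_pos m with h | h
      · subst h
        exact class_um0 hn hu h0
      · exact class_um hn hu (by omega) (by omega)
    simp only [hF]
    linarith
  have hcj := EC_conj (tau := tauN n) (U := um n u 1) (V := um n u (n - 1))
    (fun z => um_conj hn0 u (by omega) z)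
  have hFc : F (n - 1) = F 1 := by simp only [hF]; rw [hcj.1, hcj.2]
  -- separate the components `1` and `n - 1`
  have split : ∀ g : ℕ → ℝ, ∑ m ∈ Finset.range n, g m =
      g 1 + g (n - 1) + ∑ m ∈ ((Finset.range n).erase 1).erase (n - 1), g m := by
    intro g
    have a1 : 1 ∈ Finset.range n := Finset.mem_range.2 (by omega)
    have a2 : n - 1 ∈ (Finset.range n).erase 1 :=
      Finset.mem_erase.2 ⟨by omega, Finset.mem_range.2 (by omega)⟩
    rw [← Finset.add_sum_erase _ g a1, ← Finset.add_sum_erase _ g a2]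
    ring
  set S := ((Finset.range n).erase 1).erase (n - 1) with hS
  have hrest : (1 - R) * ∑ m ∈ S, MC (tauN n) (um n u m) ≤ ∑ m ∈ S, F m := by
    rw [Finset.mul_sum]
    apply Finset.sum_le_sum
    intro m hm
    have hm' := Finset.mem_erase.1 hm
    have hm'' := Finset.mem_erase.1 hm'.2
    exact hmid m hm''.2 hm''.1 hm'.1
  have hMS : 0 ≤ ∑ m ∈ S, MC (tauN n) (um n u m) := Finset.sum_nonneg fun m _ => hMC0 m
  have hF2 : 2 * F 1 + ∑ m ∈ S, F m = 0 := by
    have := split F
    rw [hsumF, hFc] at this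
    linarith
  have hM2 : 2 * MC (tauN n) (um n u 1) + ∑ m ∈ S, MC (tauN n) (um n u m) = 1 / n * Mt := by
    have := split (fun m => MC (tauN n) (um n u m))
    rw [sM, hcj.2] at this
    linarith
  have hF1 : F 1 ≤ 0 := by
    have : 0 ≤ (1 - R) * ∑ m ∈ S, MC (tauN n) (um n u m) := mul_nonneg (by linarith) hMS
    linarith
  have hM1 : 0 < MC (tauN n) (um n u 1) := by
    by_contra hneg
    have hz : MC (tauN n) (um n u 1) = 0 := le_antisymm (not_lt.1 hneg) (hMC0 1)
    have h3 : 0 < ∑ m ∈ S, MC (tauN n) (um n u m) := by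
      have : 0 < 1 / (n : ℝ) * Mt := by positivity
      linarith
    have h4 : 0 < (1 - R) * ∑ m ∈ S, MC (tauN n) (um n u m) := mul_pos (by linarith) h3
    have h5 : 0 ≤ F 1 := by
      simp only [hF]
      rw [hz]
      have := hEC0 1
      linarith
    linarith
  obtain ⟨V, hV, hVE, hVM⟩ := exists_sym (n := n) (R := R) hτ (um_contDiff (n := n) hu 1)
    (fun z => by rw [um_rot hn0, pow_one]) (by simp only [hF] at hF1; linarith) hM1
  exact norm_main hn hR1 hV hVE hVM

end Pool.Agent.NGN
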