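import Pool.Agent.NGN.B.F1
import Pool.Agent.NGN.B.F2
import Pool.Agent.NGN.B.Om

/-!
# NGN, part B: normalisation (blueprint (B4))
-/

set_option autoImplicit false

noncomputable section

namespace Pool.Agent.NGN

open MeasureTheory

private theorem nrm_fd {v : ℂ → ℂ} (hv : ContDiff ℝ 1 v) (z w : ℂ) :
    fderiv ℝ (fun z => (v z).re) z w = (fderiv ℝ v z w).re ∧
      fderiv ℝ (fun z => (v z).im) z w = (fderiv ℝ v z w).im := by
  have hd : HasFDerivAt v (fderiv ℝ v z) z :=
    (hv.differentiable one_ne_zero z).hasFDerivAt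
  have h1 : HasFDerivAt (fun z => (v z).re) (Complex.reCLM.comp (fderiv ℝ v z)) z :=
    Complex.reCLM.hasFDerivAt.comp z hd
  have h2 : HasFDerivAt (fun z => (v z).im) (Complex.imCLM.comp (fderiv ℝ v z)) z :=
    Complex.imCLM.hasFDerivAt.comp z hd
  rw [h1.fderiv, h2.fderiv]
  exact ⟨rfl, rfl⟩

private theorem nrm_cfd {v : ℂ → ℂ} (hv : ContDiff ℝ 1 v) (w : ℂ) :
    Continuous fun z => fderiv ℝ v z w :=
  (hv.continuous_fderiv one_ne_zero).clm_apply continuous_const

private theorem nrm_cfdR {v : ℂ → ℝ} (hv : ContDiff ℝ 1 v) (w : ℂ) :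
    Continuous fun z => fderiv ℝ v z w :=
  (hv.continuous_fderiv one_ne_zero).clm_apply continuous_const

theorem datOf_E {tau : ℝ} (ht : 0 < tau) {v : ℂ → ℂ} (hv : ContDiff ℝ 1 v) :
    (datOf tau v).E = EC tau v := by
  have c1 := nrm_cfd hv 1
  have c2 := nrm_cfd hv Complex.I
  have i1 : IntegrableOn (fun z => ((fderiv ℝ v z 1).re) ^ 2) (sec tau) :=
    integrableOn_sec ht ((Complex.continuous_re.comp c1).pow 2)
  have i2 : IntegrableOn (fun z => ((fderiv ℝ v z Complex.I).im) ^ 2) (sec tau) :=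
    integrableOn_sec ht ((Complex.continuous_im.comp c2).pow 2)
  have i3 : IntegrableOn (fun z => ((fderiv ℝ v z Complex.I).re) ^ 2) (sec tau) :=
    integrableOn_sec ht ((Complex.continuous_re.comp c2).pow 2)
  have i4 : IntegrableOn (fun z => ((fderiv ℝ v z 1).im) ^ 2) (sec tau) :=
    integrableOn_sec ht ((Complex.continuous_im.comp c1).pow 2)
  have e1 : ER tau (fun z => (v z).re) =
      (∫ z in sec tau, ((fderiv ℝ v z 1).re) ^ 2) +
        ∫ z in sec tau, ((fderiv ℝ v z Complex.I).re) ^ 2 := by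
    unfold ER
    rw [← integral_add i1 i3]
    apply integral_congr_ae
    filter_upwards with z
    unfold grad2
    rw [(nrm_fd hv z 1).1, (nrm_fd hv z Complex.I).1]
  have e2 : ER tau (fun z => (v z).im) =
      (∫ z in sec tau, ((fderiv ℝ v z 1).im) ^ 2) +
        ∫ z in sec tau, ((fderiv ℝ v z Complex.I).im) ^ 2 := by
    unfold ER
    rw [← integral_add i4 i2]
    apply integral_congr_ae
    filter_upwards with z
    unfold grad2
    rw [(nrm_fd hv z 1).2, (nrm_fd hv z Complex.I).2]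
  unfold EC EDat.E
  rw [e1, e2]
  simp only [datOf]
  ring

theorem datOf_M (tau : ℝ) (v : ℂ → ℂ) : (datOf tau v).M = MC tau v := rfl

private theorem nrm_pt1 (tau x : ℝ) : pt tau x (-1) = (starRingEnd ℂ) (pt tau x 1) :=
  pt_neg tau x 1

theorem leg_of_sym {n : ℕ} (hn : 3 ≤ n) {v : ℂ → ℂ} (h : Sym n v) (x : ℝ) :
    (v (pt (tauN n) x 1)).im = tauN n * (v (pt (tauN n) x 1)).re := by
  have h1 := leg_rot hn x
  rw [nrm_pt1] at h1
  have h2 : v (pt (tauN n) x 1) = omN n * (starRingEnd ℂ) (v (pt (tauN n) x 1)) := by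
    conv_lhs => rw [h1, h.rot, h.conj]
  have h3 := omN_mul hn
  have h4 : (1 - tauN n * Complex.I) * v (pt (tauN n) x 1) =
      (1 + tauN n * Complex.I) * (starRingEnd ℂ) (v (pt (tauN n) x 1)) := by
    rw [← h3, mul_assoc, ← h2]
  have h5 := congrArg Complex.im h4
  simp only [Complex.mul_im, Complex.sub_re, Complex.sub_im, Complex.add_re, Complex.add_im,
    Complex.mul_re, Complex.one_re, Complex.one_im, Complex.ofReal_re, Complex.ofReal_im,
    Complex.I_re, Complex.I_im, Complex.conj_re, Complex.conj_im] at h5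
  linarith

private theorem nrm_om_ne {n : ℕ} (hn : 3 ≤ n) : omN n ≠ 1 := by
  intro h
  have h1 := omN_im hn
  rw [h, Complex.one_im] at h1
  have h2 := tauN_pos' hn
  have h3 : 0 < 2 * tauN n / (1 + tauN n ^ 2) := by positivity
  linarith

private theorem nrm_zero {n : ℕ} (hn : 3 ≤ n) {v : ℂ → ℂ} (h : Sym n v) : v 0 = 0 := by
  have h1 := h.rot 0
  rw [mul_zero] at h1
  have h2 : (omN n - 1) * v 0 = 0 := by
    rw [sub_mul, one_mul, ← h1, sub_self]
  rcases mul_eq_zero.1 h2 with h3 | h3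
  · exact absurd (sub_eq_zero.1 h3) (nrm_om_ne hn)
  · exact h3

private theorem nrm_cre {v : ℂ → ℂ} (hv : ContDiff ℝ 1 v) : ContDiff ℝ 1 fun z => (v z).re :=
  Complex.reCLM.contDiff.comp hv

private theorem nrm_cim {v : ℂ → ℂ} (hv : ContDiff ℝ 1 v) : ContDiff ℝ 1 fun z => (v z).im :=
  Complex.imCLM.contDiff.comp hv

private theorem nrm_ev {n : ℕ} {v : ℂ → ℂ} (h : Sym n v) (z : ℂ) :
    (v ((starRingEnd ℂ) z)).re = (v z).re := by
  rw [h.conj, Complex.conj_re]

private theorem nrm_od {n : ℕ} {v : ℂ → ℂ} (h : Sym n v) (z : ℂ) :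
    (v ((starRingEnd ℂ) z)).im = -(v z).im := by
  rw [h.conj, Complex.conj_im]

private theorem nrm_F1 {n : ℕ} (hn : 3 ≤ n) {v : ℂ → ℂ} (h : VV n v) :
    (datOf (tauN n) v).l ^ 2 ≤ tauN n ^ 3 / n * kapN n * (datOf (tauN n) v).E := by
  have ht := tauN_pos' hn
  rw [datOf_E ht h.sym.smooth]
  exact F1 hn ht (nrm_cre h.sym.smooth) (nrm_cim h.sym.smooth) (nrm_ev h.sym) (nrm_od h.sym)
    (leg_of_sym hn h.sym) h.mean

private theorem nrm_F2 {n : ℕ} (hn : 5 ≤ n) {v : ℂ → ℂ} (h : VV n v) :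
    11 / (5 * tauN n) * MC (tauN n) v ≤ EC (tauN n) v := by
  have hn3 : 3 ≤ n := by omega
  have ht := tauN_pos' hn3
  have h0 := nrm_zero hn3 h.sym
  refine F2 ht (tauN_le5 hn) (nrm_cre h.sym.smooth) (nrm_cim h.sym.smooth) (nrm_ev h.sym)
    (nrm_od h.sym) (leg_of_sym hn3 h.sym) ?_ ?_ ?_
  · show (v 0).re = 0
    rw [h0, Complex.zero_re]
  · show (v 0).im = 0
    rw [h0, Complex.zero_im]
  · have h1 : ∫ y in (-tauN n)..(tauN n), (v ⟨1, y⟩).re =
        tauN n * ∫ s in (-1 : ℝ)..1, (v (pt (tauN n) 1 s)).re :=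
      side_integral ht (fun z => (v z).re)
    rw [h.mean] at h1
    rcases mul_eq_zero.1 h1.symm with h3 | h3
    · exact absurd h3 ht.ne'
    · exact h3

private theorem nrm_MR_nonneg {tau : ℝ} (ht : 0 ≤ tau) (f : ℂ → ℝ) : 0 ≤ MR tau f := by
  unfold MR
  apply intervalIntegral.integral_nonneg (by linarith)
  intro y _
  positivity

private theorem nrm_ER_nonneg (tau : ℝ) (f : ℂ → ℝ) : 0 ≤ ER tau f := by
  unfold ER
  apply integral_nonneg
  intro z
  unfold grad2
  positivity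

private theorem nrm_ER_smul {tau : ℝ} {f : ℂ → ℝ} (hf : ContDiff ℝ 1 f) (a : ℝ) :
    ER tau (fun z => a * f z) = a ^ 2 * ER tau f := by
  unfold ER
  rw [← integral_const_mul]
  apply integral_congr_ae
  filter_upwards with z
  unfold grad2
  have hd : DifferentiableAt ℝ f z := hf.differentiable one_ne_zero z
  have h1 : fderiv ℝ (fun z => a * f z) z = a • fderiv ℝ f z := fderiv_const_mul hd a
  have e : ∀ w, (a • fderiv ℝ f z) w = a * fderiv ℝ f z w := fun w => rfl
  rw [h1, e, e]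
  ring

private theorem nrm_MR_smul {tau : ℝ} (f : ℂ → ℝ) (a : ℝ) :
    MR tau (fun z => a * f z) = a ^ 2 * MR tau f := by
  unfold MR
  rw [← intervalIntegral.integral_const_mul]
  congr 1
  funext y
  ring

private theorem nrm_sub_smooth {v : ℂ → ℂ} (hv : ContDiff ℝ 1 v) (c : ℝ) :
    ContDiff ℝ 1 fun z => v z - (c : ℂ) * z :=
  hv.sub (contDiff_const.mul contDiff_id)

private theorem nrm_vol {tau : ℝ} (ht : 0 < tau) (k : ℝ) : ∫ _z in sec tau, k = k * tau := by
  rw [sec_integral ht (g := fun _ => k) continuous_const]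
  simp only [intervalIntegral.integral_const, smul_eq_mul]
  rw [intervalIntegral.integral_mul_const, integral_id]
  ring

private theorem nrm_ER_add {tau : ℝ} (ht : 0 < tau) {f : ℂ → ℝ} (hf : ContDiff ℝ 1 f)
    (L : ℂ →L[ℝ] ℝ) (c : ℝ) (w : ℂ)
    (hw : ∀ M : ℂ →L[ℝ] ℝ, L 1 * M 1 + L Complex.I * M Complex.I = M w)
    (hL : L 1 ^ 2 + L Complex.I ^ 2 = 1) :
    ER tau (fun z => c * L z + f z) =
      c ^ 2 * tau + 2 * c * (∫ z in sec tau, fderiv ℝ f z w) + ER tau f := by
  have i1 : IntegrableOn (fun z => 2 * c * fderiv ℝ f z w) (sec tau) :=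
    integrableOn_sec ht (continuous_const.mul (nrm_cfdR hf w))
  have i2 : IntegrableOn (grad2 f) (sec tau) := integrableOn_sec ht (continuous_grad2 hf)
  have i3 : IntegrableOn (fun _ : ℂ => c ^ 2) (sec tau) := integrableOn_sec ht continuous_const
  have i4 : IntegrableOn (fun z => c ^ 2 + 2 * c * fderiv ℝ f z w) (sec tau) := i3.add i1
  have e0 : c ^ 2 * tau + 2 * c * (∫ z in sec tau, fderiv ℝ f z w) + ER tau f =
      ∫ z in sec tau, (c ^ 2 + 2 * c * fderiv ℝ f z w + grad2 f z) := by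
    rw [integral_add i4 i2, integral_add i3 i1, nrm_vol ht, integral_const_mul]
    rfl
  rw [e0]
  unfold ER
  apply integral_congr_ae
  filter_upwards with z
  have hd : HasFDerivAt f (fderiv ℝ f z) z := (hf.differentiable one_ne_zero z).hasFDerivAt
  have h1 : HasFDerivAt (fun z => c * L z + f z) (c • L + fderiv ℝ f z) z :=
    (L.hasFDerivAt.const_mul c).add hd
  have h2 := hw (fderiv ℝ f z)
  unfold grad2
  have e : ∀ w, (c • L + fderiv ℝ f z) w = c * L w + fderiv ℝ f z w := fun w => rfl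
  rw [h1.fderiv, e, e, ← h2]
  linear_combination c ^ 2 * hL

private theorem nrm_line : Continuous fun y : ℝ => (⟨1, y⟩ : ℂ) := by
  have h : (fun y : ℝ => (⟨1, y⟩ : ℂ)) = fun y : ℝ => (1 : ℂ) + (y : ℂ) * Complex.I := by
    funext y
    apply Complex.ext
    · simp
    · simp
  rw [h]
  exact continuous_const.add (Complex.continuous_ofReal.mul continuous_const)

private theorem nrm_MR_add {tau : ℝ} {f : ℂ → ℝ} (hf : Continuous f) {g : ℝ → ℝ}
    (hg : Continuous g) (F : ℂ → ℝ) (hF : ∀ y, F ⟨1, y⟩ = g y + f ⟨1, y⟩) :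
    MR tau F = (∫ y in (-tau)..tau, g y ^ 2) + 2 * (∫ y in (-tau)..tau, g y * f ⟨1, y⟩)
      + MR tau f := by
  have hc : Continuous fun y : ℝ => f ⟨1, y⟩ := hf.comp nrm_line
  have i1 : IntervalIntegrable (fun y => g y ^ 2) volume (-tau) tau :=
    (hg.pow 2).intervalIntegrable _ _
  have i2 : IntervalIntegrable (fun y => 2 * (g y * f ⟨1, y⟩)) volume (-tau) tau :=
    (continuous_const.mul (hg.mul hc)).intervalIntegrable _ _
  have i3 : IntervalIntegrable (fun y => f ⟨1, y⟩ ^ 2) volume (-tau) tau :=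
    (hc.pow 2).intervalIntegrable _ _
  unfold MR
  rw [← intervalIntegral.integral_const_mul, ← intervalIntegral.integral_add i1 i2,
    ← intervalIntegral.integral_add (i1.add i2) i3]
  apply intervalIntegral.integral_congr
  intro y _
  simp only [hF]
  ring

theorem norm_main {n : ℕ} (hn : 5 ≤ n) {R : ℝ} (hR1 : R < 1 / delN n) {V : ℂ → ℂ}
    (hV : Sym n V) (hE : EC (tauN n) V ≤ R * MC (tauN n) V) (hM : 0 < MC (tauN n) V) :
    0 < R ∧ ∃ v : ℂ → ℂ, VV n v ∧
      R * (datOf (tauN n) v).l = 2 * tauN n * (1 - R * delN n) ∧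
      (datOf (tauN n) v).E - R * (datOf (tauN n) v).M ≤ 2 * tauN n * (1 - R * delN n) ∧
      (datOf (tauN n) v).l ^ 2 ≤ tauN n ^ 3 / n * kapN n * (datOf (tauN n) v).E ∧
      11 / (5 * tauN n) * (datOf (tauN n) v).M ≤ (datOf (tauN n) v).E := by
  have hn3 : 3 ≤ n := by omega
  have ht := tauN_pos' hn3
  have ht5 := tauN_le5 hn
  set τ := tauN n with hτ
  have hdel : delN n = 1 + τ ^ 2 / 3 := rfl
  have hd1 : 1 < delN n := by rw [hdel]; nlinarith
  have hR2 : R * delN n < 1 := by rwa [lt_div_iff₀ (by linarith)] at hR1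
  have hRlt : R < 1 := by
    by_contra hcon
    push Not at hcon
    nlinarith
  -- the constant
  set c : ℝ := (1 / (2 * τ)) * ∫ y in (-τ)..τ, (V ⟨1, y⟩).re with hc
  set v0 : ℂ → ℂ := fun z => V z - (c : ℂ) * z with hv0
  have hs0 : ContDiff ℝ 1 v0 := nrm_sub_smooth hV.smooth c
  have hsym : Sym n v0 := by
    refine ⟨hs0, fun z => ?_, fun z => ?_⟩
    · simp only [hv0]
      rw [hV.rot]
      ring
    · simp only [hv0]
      rw [hV.conj, map_sub, map_mul, Complex.conj_ofReal]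
  have hre : ∀ z, (V z).re = c * z.re + (v0 z).re := by
    intro z
    simp only [hv0, Complex.sub_re, Complex.re_ofReal_mul]
    ring
  have him : ∀ z, (V z).im = c * z.im + (v0 z).im := by
    intro z
    simp only [hv0, Complex.sub_im, Complex.im_ofReal_mul]
    ring
  have hcV : Continuous fun y : ℝ => (V ⟨1, y⟩).re :=
    Complex.continuous_re.comp (hV.smooth.continuous.comp nrm_line)
  have hmean : ∫ y in (-τ)..τ, (v0 ⟨1, y⟩).re = 0 := by
    have h1 : ∀ y : ℝ, (v0 ⟨1, y⟩).re = (V ⟨1, y⟩).re - c := by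
      intro y
      have := hre ⟨1, y⟩
      simp only [mul_one] at this
      linarith
    simp only [h1]
    rw [intervalIntegral.integral_sub (hcV.intervalIntegrable _ _)
      (continuous_const.intervalIntegrable _ _), intervalIntegral.integral_const]
    have h2 : ∫ y in (-τ)..τ, (V ⟨1, y⟩).re = 2 * τ * c := by
      rw [hc]
      field_simp
    rw [h2, smul_eq_mul]
    ring
  have hVV : VV n v0 := ⟨hsym, hmean⟩
  have sre := nrm_cre hs0
  have sim := nrm_cim hs0
  set l0 : ℝ := ∫ y in (-τ)..τ, y * (v0 ⟨1, y⟩).im with hl0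
  -- the energy
  have hdiv : (∫ z in sec τ, fderiv ℝ (fun z => (v0 z).re) z 1) +
      (∫ z in sec τ, fderiv ℝ (fun z => (v0 z).im) z Complex.I) = 0 := by
    rw [mean_div ht sre sim (nrm_ev hsym) (nrm_od hsym) (leg_of_sym hn3 hsym)]
    exact hmean
  have hEV : EC τ V = 2 * τ * c ^ 2 + EC τ v0 := by
    have e1 : (fun z => (V z).re) = fun z => c * Complex.reCLM z + (v0 z).re := by
      funext z
      rw [hre z]
      rfl
    have e2 : (fun z => (V z).im) = fun z => c * Complex.imCLM z + (v0 z).im := by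
      funext z
      rw [him z]
      rfl
    have h1 := nrm_ER_add ht sre Complex.reCLM c 1 (by
      intro M
      simp) (by simp)
    have h2 := nrm_ER_add ht sim Complex.imCLM c Complex.I (by
      intro M
      simp) (by simp)
    unfold EC
    rw [e1, e2, h1, h2]
    linear_combination 2 * c * hdiv
  have hMV : MC τ V = 2 * τ * delN n * c ^ 2 + 2 * c * l0 + MC τ v0 := by
    have h1 := nrm_MR_add (tau := τ) sre.continuous (g := fun _ => c) continuous_const
      (fun z => (V z).re) (by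
        intro y
        have := hre ⟨1, y⟩
        simp only [mul_one] at this
        exact this)
    have h2 := nrm_MR_add (tau := τ) sim.continuous (g := fun y => c * y)
      (continuous_const.mul continuous_id) (fun z => (V z).im) (fun y => him ⟨1, y⟩)
    have h3 : ∫ y in (-τ)..τ, c * (v0 ⟨1, y⟩).re = 0 := by
      rw [intervalIntegral.integral_const_mul, hmean, mul_zero]
    have h4 : ∫ y in (-τ)..τ, (c * y) * (v0 ⟨1, y⟩).im = c * l0 := by
      rw [hl0, ← intervalIntegral.integral_const_mul]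
      congr 1
      funext y
      ring
    have h5 : ∫ _y in (-τ)..τ, c ^ 2 = 2 * τ * c ^ 2 := by
      rw [intervalIntegral.integral_const, smul_eq_mul]
      ring
    have h6 : ∫ y in (-τ)..τ, (c * y) ^ 2 = 2 * τ ^ 3 / 3 * c ^ 2 := by
      have h7 : ∀ y : ℝ, (c * y) ^ 2 = c ^ 2 * y ^ 2 := fun y => by ring
      simp only [h7]
      rw [intervalIntegral.integral_const_mul, integral_pow]
      push_cast
      ring
    unfold MC
    rw [h1, h2, h3, h4, h5, h6, hdel]
    ring
  -- the estimate F2 for v0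
  have hF2 := nrm_F2 hn hVV
  have hM0 : 0 ≤ MC τ v0 := add_nonneg (nrm_MR_nonneg ht.le _) (nrm_MR_nonneg ht.le _)
  have hE0 : 0 ≤ EC τ v0 := add_nonneg (nrm_ER_nonneg _ _) (nrm_ER_nonneg _ _)
  have hbig : 1 < 11 / (5 * τ) := by
    rw [lt_div_iff₀ (by linarith)]
    linarith
  rw [hEV, hMV] at hE
  rw [hMV] at hM
  have hc0 : c ≠ 0 := by
    intro h0
    rw [h0] at hE hM
    simp only [ne_eq, OfNat.ofNat_ne_zero, not_false_eq_true, zero_pow, mul_zero, zero_mul,
      zero_add] at hE hM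
    have h1 : 11 / (5 * τ) * MC τ v0 ≤ R * MC τ v0 := hF2.trans hE
    have h2 : 11 / (5 * τ) ≤ R := le_of_mul_le_mul_right h1 hM
    linarith
  have hcc : 0 < c ^ 2 := by positivity
  have hR0 : 0 < R := by
    by_contra hcon
    push Not at hcon
    have h1 : R * (2 * τ * delN n * c ^ 2 + 2 * c * l0 + MC τ v0) ≤ 0 :=
      mul_nonpos_of_nonpos_of_nonneg hcon hM.le
    have h2 : 0 < 2 * τ * c ^ 2 := by positivity
    linarith
  refine ⟨hR0, ?_⟩
  -- normalisation
  set E0 := EC τ v0 with hE0'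
  set M0 := MC τ v0 with hM0'
  set ep : ℝ := 1 - R * delN n with hep
  have hep0 : 0 < ep := by rw [hep]; linarith
  set F : ℝ := E0 - R * M0 with hF
  have hF0 : 0 ≤ F := by
    have h1 : R * M0 ≤ 11 / (5 * τ) * M0 := by
      apply mul_le_mul_of_nonneg_right _ hM0
      linarith
    rw [hF]
    linarith
  set y : ℝ := R * l0 / c with hy
  have hyc : c ^ 2 * y = c * (R * l0) := by
    rw [hy]
    field_simp
  have hkey : c ^ 2 * (2 * τ * ep) + F ≤ c ^ 2 * (2 * y) := by
    have h1 : c ^ 2 * (2 * y) = 2 * (c * (R * l0)) := by rw [← hyc]; ring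
    rw [h1, hF, hep]
    linarith
  have hy0 : 0 < y := by
    by_contra hcon
    push Not at hcon
    have h1 : c ^ 2 * (2 * y) ≤ 0 := by nlinarith
    have h2 : 0 < c ^ 2 * (2 * τ * ep) := by positivity
    linarith
  set t : ℝ := 2 * τ * ep / y with htdef
  have hty : t * y = 2 * τ * ep := by
    rw [htdef]
    field_simp
  set a : ℝ := t / c with ha
  have hac : a * c = t := by
    rw [ha]
    field_simp
  set v : ℂ → ℂ := fun z => (a : ℂ) * v0 z with hv
  have hvre : (fun z => (v z).re) = fun z => a * (v0 z).re := by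
    funext z
    simp only [hv, Complex.re_ofReal_mul]
  have hvim : (fun z => (v z).im) = fun z => a * (v0 z).im := by
    funext z
    simp only [hv, Complex.im_ofReal_mul]
  have hvs : ContDiff ℝ 1 v := contDiff_const.mul hs0
  have hvsym : Sym n v := by
    refine ⟨hvs, fun z => ?_, fun z => ?_⟩
    · simp only [hv]
      rw [hsym.rot]
      ring
    · simp only [hv]
      rw [hsym.conj, map_mul, Complex.conj_ofReal]
  have hvV : VV n v := by
    refine ⟨hvsym, ?_⟩
    have h1 : ∀ y : ℝ, (v ⟨1, y⟩).re = a * (v0 ⟨1, y⟩).re := fun y => congrFun hvre ⟨1, y⟩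
    simp only [h1]
    rw [intervalIntegral.integral_const_mul]
    have h2 : ∫ y in (-tauN n)..(tauN n), (v0 ⟨1, y⟩).re = 0 := hmean
    rw [h2, mul_zero]
  have hvE : EC τ v = a ^ 2 * E0 := by
    rw [hE0']
    unfold EC
    rw [hvre, hvim, nrm_ER_smul sre, nrm_ER_smul sim]
    ring
  have hvM : MC τ v = a ^ 2 * M0 := by
    rw [hM0']
    unfold MC
    rw [hvre, hvim, nrm_MR_smul, nrm_MR_smul]
    ring
  have hvl : (datOf τ v).l = a * l0 := by
    change ∫ y in (-τ)..τ, y * (v ⟨1, y⟩).im = a * l0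
    rw [hl0, ← intervalIntegral.integral_const_mul]
    congr 1
    funext y
    have h1 : (v ⟨1, y⟩).im = a * (v0 ⟨1, y⟩).im := congrFun hvim ⟨1, y⟩
    rw [h1]
    ring
  have g1 : R * (datOf τ v).l = 2 * τ * ep := by
    rw [hvl, ← hty, hy, ha]
    ring
  refine ⟨v, hvV, g1, ?_, nrm_F1 hn3 hvV, ?_⟩
  · rw [datOf_E ht hvs, datOf_M, hvE, hvM]
    have h1 : a ^ 2 * E0 - R * (a ^ 2 * M0) = a ^ 2 * F := by rw [hF]; ring
    rw [h1]
    have h2 : a ^ 2 * F ≤ a ^ 2 * (c ^ 2 * (2 * y) - c ^ 2 * (2 * τ * ep)) := by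
      apply mul_le_mul_of_nonneg_left _ (by positivity)
      linarith
    have h3 : a ^ 2 * (c ^ 2 * (2 * y) - c ^ 2 * (2 * τ * ep)) =
        t ^ 2 * (2 * y - 2 * τ * ep) := by
      rw [← hac]
      ring
    have h4 : t ^ 2 * (2 * y - 2 * τ * ep) = 2 * t * (2 * τ * ep) - t ^ 2 * (2 * τ * ep) := by
      rw [← hty]
      ring
    have h5 : 2 * t * (2 * τ * ep) - t ^ 2 * (2 * τ * ep) ≤ 2 * τ * ep := by
      have h6 : 0 ≤ (t - 1) ^ 2 * (2 * τ * ep) := by positivity
      linarith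
    linarith
  · rw [datOf_E ht hvs, datOf_M]
    exact nrm_F2 hn hvV

end Pool.Agent.NGN
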