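import Pool.Agent.NGN.B.Defs

/-!
# NGN, part B: one-dimensional inequalities on `[-1, 1]`

PROOF PLAN.
`poin01`: Picone with `ψ s = cos (3 (s - 1/2))`, positive on `[0, 1]` because `3/2 < π/2`:
`q'^2 ≥ 9 q^2 + (d/ds) (q^2 ψ'/ψ)`, i.e. with `T s = -3 tan (3 (s - 1/2))`:
`q'^2 - 9 q^2 - (q^2 T)' = (q' - q T)^2` (use `T' = -9 - T^2`); the boundary terms vanish.
`poin_even`: `r` even, `∫ r = 0`, so `R s = ∫ t in 0..s, r t` has `R 0 = R 1 = 0`;
`∫_0^1 r^2 = - ∫_0^1 R r' ≤ (∫_0^1 R^2)^(1/2) (∫_0^1 r'^2)^(1/2)` (integration by parts, `R = 0` at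
both ends) and `9 ∫_0^1 R^2 ≤ ∫_0^1 r^2` by `poin01`; hence `9 ∫_0^1 r^2 ≤ ∫_0^1 r'^2`; double it
by symmetry (`r'` is odd: the derivative of an even function, or uniqueness of derivatives).
  [without square roots: `∫ (r' + 9 R)^2 ≥ 0` gives `∫ r'^2 + 18 ∫ R r' + 81 ∫ R^2 ≥ 0`, i.e.
   `∫ r'^2 - 18 ∫ r^2 + 81 ∫ R^2 ≥ 0`, and `81 ∫ R^2 ≤ 9 ∫ r^2`.]
`poin_odd`: `q 0 = 0` because `q` is odd; `poin01` and symmetry.
`mom_even`: `∫ s^2 r = ∫ (s^2 - 1/5) r = - ∫ (s^3/3 - s/5) r'` (`r (±1) = 0`) and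
`∫ (s^3/3 - s/5)^2 = 8/1575`; Cauchy-Schwarz.  `mom_odd`: `∫ s q = - ∫ (s^2/2 - 1/6) q'`
(`∫ q' = 0`), `∫ (s^2/2 - 1/6)^2 = 2/45`.  [Cauchy-Schwarz without roots: `∫ (r' + t S)^2 ≥ 0` for
all real `t`, `discrim_le_zero`, or choose `t`.]
-/

set_option autoImplicit false

noncomputable section

namespace Pool.Agent.NGN

open MeasureTheory

private theorem Poin_ftc {F F' : ℝ → ℝ} {a b : ℝ} (hF : ∀ s, HasDerivAt F (F' s) s)
    (hc : Continuous F') : ∫ s in a..b, F' s = F b - F a :=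
  intervalIntegral.integral_eq_sub_of_hasDerivAt (fun s _ => hF s) (hc.intervalIntegrable a b)

private theorem Poin_cs {f g : ℝ → ℝ} (hf : Continuous f) (hg : Continuous g) :
    (∫ s in (-1 : ℝ)..1, f s * g s) ^ 2 ≤
      (∫ s in (-1 : ℝ)..1, f s ^ 2) * ∫ s in (-1 : ℝ)..1, g s ^ 2 := by
  have key : ∀ t : ℝ, 0 ≤ (∫ s in (-1 : ℝ)..1, g s ^ 2) * (t * t) +
      (2 * ∫ s in (-1 : ℝ)..1, f s * g s) * t + ∫ s in (-1 : ℝ)..1, f s ^ 2 := by
    intro t
    have h0 : 0 ≤ ∫ s in (-1 : ℝ)..1, (f s + t * g s) ^ 2 :=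
      intervalIntegral.integral_nonneg (by norm_num) fun s _ => sq_nonneg _
    have h1 : ∫ s in (-1 : ℝ)..1, (f s + t * g s) ^ 2 =
        ∫ s in (-1 : ℝ)..1, ((t * t) * g s ^ 2 + (2 * t) * (f s * g s) + f s ^ 2) := by
      congr 1
      ext s
      ring
    rw [h1, intervalIntegral.integral_add, intervalIntegral.integral_add,
      intervalIntegral.integral_const_mul, intervalIntegral.integral_const_mul] at h0
    · linarith
    · exact Continuous.intervalIntegrable (by fun_prop) _ _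
    · exact Continuous.intervalIntegrable (by fun_prop) _ _
    · exact Continuous.intervalIntegrable (by fun_prop) _ _
    · exact Continuous.intervalIntegrable (by fun_prop) _ _
  have h2 := discrim_le_zero key
  unfold discrim at h2
  nlinarith

private theorem Poin_double {f : ℝ → ℝ} (hf : Continuous f) (ev : ∀ s, f (-s) = f s) :
    ∫ s in (-1 : ℝ)..1, f s = 2 * ∫ s in (0 : ℝ)..1, f s := by
  have h1 : ∫ s in (-1 : ℝ)..0, f s = ∫ s in (0 : ℝ)..1, f s := by
    have h2 := intervalIntegral.integral_comp_neg (a := 0) (b := 1) f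
    rw [neg_zero] at h2
    rw [← h2]
    congr 1
    ext s
    exact ev s
  rw [← intervalIntegral.integral_add_adjacent_intervals (b := 0)
    (hf.intervalIntegrable _ _) (hf.intervalIntegrable _ _), h1]
  ring

private theorem Poin_deriv_even {r r' : ℝ → ℝ} (hr : ∀ s, HasDerivAt r (r' s) s)
    (ev : ∀ s, r (-s) = r s) (s : ℝ) : r' (-s) = -r' s := by
  have h1 : HasDerivAt (fun x => r (-x)) (r' (-s) * (-1)) s :=
    HasDerivAt.comp s (hr (-s)) (hasDerivAt_neg s)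
  have h2 : (fun x => r (-x)) = r := funext ev
  rw [h2] at h1
  have h3 := h1.unique (hr s)
  linarith

private theorem Poin_deriv_odd {q q' : ℝ → ℝ} (hq : ∀ s, HasDerivAt q (q' s) s)
    (od : ∀ s, q (-s) = -q s) (s : ℝ) : q' (-s) = q' s := by
  have h1 : HasDerivAt (fun x => q (-x)) (q' (-s) * (-1)) s :=
    HasDerivAt.comp s (hq (-s)) (hasDerivAt_neg s)
  have h2 : (fun x => q (-x)) = fun x => -q x := funext od
  rw [h2] at h1
  have h3 := h1.unique (hq s).neg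
  linarith

private theorem Poin_cont {q q' : ℝ → ℝ} (hq : ∀ s, HasDerivAt q (q' s) s) : Continuous q :=
  continuous_iff_continuousAt.2 fun s => (hq s).continuousAt

theorem poin01 {q q' : ℝ → ℝ} (hq : ∀ s, HasDerivAt q (q' s) s) (hc : Continuous q')
    (h0 : q 0 = 0) (h1 : q 1 = 0) :
    9 * ∫ s in (0 : ℝ)..1, q s ^ 2 ≤ ∫ s in (0 : ℝ)..1, q' s ^ 2 := by
  have hqc := Poin_cont hq
  have hcos : ∀ s ∈ Set.Icc (0 : ℝ) 1, Real.cos (3 * (s - 1 / 2)) ≠ 0 := by
    intro s hs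
    have hpi := Real.pi_gt_three
    refine (Real.cos_pos_of_mem_Ioo ⟨?_, ?_⟩).ne'
    · linarith [hs.1]
    · linarith [hs.2]
  set T : ℝ → ℝ := fun s => -3 * Real.tan (3 * (s - 1 / 2)) with hTdef
  have hT : ∀ s ∈ Set.Icc (0 : ℝ) 1, HasDerivAt T (-9 - T s ^ 2) s := by
    intro s hs
    have h2 : HasDerivAt (fun x : ℝ => 3 * (x - 1 / 2)) 3 s := by
      have := ((hasDerivAt_id s).sub_const (1 / 2)).const_mul 3
      simpa using this
    have h3 := ((Real.hasDerivAt_tan (hcos s hs)).comp s h2).const_mul (-3)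
    refine h3.congr_deriv ?_
    have h4 := hcos s hs
    rw [hTdef]
    simp only
    rw [Real.tan_eq_sin_div_cos]
    have h5 := Real.sin_sq_add_cos_sq (3 * (s - 1 / 2))
    generalize Real.cos (3 * (s - 1 / 2)) = c at h4 h5 ⊢
    generalize Real.sin (3 * (s - 1 / 2)) = d at h5 ⊢
    field_simp
    linear_combination (9 : ℝ) * h5
  have hTc : ContinuousOn T (Set.Icc 0 1) := fun s hs => (hT s hs).continuousAt.continuousWithinAt
  have huIcc : Set.uIcc (0 : ℝ) 1 = Set.Icc 0 1 := Set.uIcc_of_le zero_le_one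
  have hF : ∀ s ∈ Set.uIcc (0 : ℝ) 1, HasDerivAt (fun s => q s ^ 2 * T s)
      (2 * (q s * q' s) * T s + q s ^ 2 * (-9 - T s ^ 2)) s := by
    intro s hs
    rw [huIcc] at hs
    have h2 := ((hq s).pow 2).mul (hT s hs)
    refine h2.congr_deriv ?_
    simp only [Nat.cast_ofNat, Pi.pow_apply]
    ring
  have hFc : ContinuousOn (fun s => 2 * (q s * q' s) * T s + q s ^ 2 * (-9 - T s ^ 2))
      (Set.uIcc (0 : ℝ) 1) := by
    rw [huIcc]
    fun_prop
  have hint := intervalIntegral.integral_eq_sub_of_hasDerivAt hF hFc.intervalIntegrable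
  have hz : (∫ s in (0 : ℝ)..1, (2 * (q s * q' s) * T s + q s ^ 2 * (-9 - T s ^ 2))) = 0 := by
    rw [hint, h0, h1]
    ring
  have hnn : 0 ≤ ∫ s in (0 : ℝ)..1, (q' s - q s * T s) ^ 2 :=
    intervalIntegral.integral_nonneg zero_le_one fun s _ => sq_nonneg _
  have he : ∫ s in (0 : ℝ)..1, (q' s - q s * T s) ^ 2 =
      ∫ s in (0 : ℝ)..1, (q' s ^ 2 - 9 * q s ^ 2 -
        (2 * (q s * q' s) * T s + q s ^ 2 * (-9 - T s ^ 2))) := by
    congr 1
    ext s
    ring
  have i1 : IntervalIntegrable (fun s => q' s ^ 2) volume 0 1 :=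
    Continuous.intervalIntegrable (by fun_prop) _ _
  have i2 : IntervalIntegrable (fun s => 9 * q s ^ 2) volume 0 1 :=
    Continuous.intervalIntegrable (by fun_prop) _ _
  rw [he, intervalIntegral.integral_sub (i1.sub i2) hFc.intervalIntegrable,
    intervalIntegral.integral_sub i1 i2, intervalIntegral.integral_const_mul, hz] at hnn
  linarith

theorem poin_even {r r' : ℝ → ℝ} (hr : ∀ s, HasDerivAt r (r' s) s) (hc : Continuous r')
    (ev : ∀ s, r (-s) = r s) (h1 : r 1 = 0) (h0 : ∫ s in (-1 : ℝ)..1, r s = 0) :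
    9 * ∫ s in (-1 : ℝ)..1, r s ^ 2 ≤ ∫ s in (-1 : ℝ)..1, r' s ^ 2 := by
  have hrc := Poin_cont hr
  have hr'o := Poin_deriv_even hr ev
  rw [Poin_double hrc ev] at h0
  set R : ℝ → ℝ := fun s => ∫ t in (0 : ℝ)..s, r t with hR
  have hRd : ∀ s, HasDerivAt R (r s) s := fun s =>
    intervalIntegral.integral_hasDerivAt_right (hrc.intervalIntegrable _ _)
      hrc.aestronglyMeasurable.stronglyMeasurableAtFilter hrc.continuousAt
  have hRc := Poin_cont hRd
  have hR0 : R 0 = 0 := by simp [hR]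
  have hR1 : R 1 = 0 := by
    simp only [hR]
    linarith
  have hp := poin01 hRd hrc hR0 hR1
  have hF : ∀ s, HasDerivAt (fun s => R s * r s) (r s ^ 2 + R s * r' s) s := fun s =>
    ((hRd s).mul (hr s)).congr_deriv (by ring)
  have hz : (∫ s in (0 : ℝ)..1, (r s ^ 2 + R s * r' s)) = 0 := by
    rw [Poin_ftc hF (by fun_prop), hR0, hR1]
    ring
  have i1 : IntervalIntegrable (fun s => r s ^ 2) volume 0 1 :=
    Continuous.intervalIntegrable (by fun_prop) _ _
  have i2 : IntervalIntegrable (fun s => R s * r' s) volume 0 1 :=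
    Continuous.intervalIntegrable (by fun_prop) _ _
  have i3 : IntervalIntegrable (fun s => r' s ^ 2) volume 0 1 :=
    Continuous.intervalIntegrable (by fun_prop) _ _
  have i4 : IntervalIntegrable (fun s => 18 * (R s * r' s)) volume 0 1 :=
    Continuous.intervalIntegrable (by fun_prop) _ _
  have i5 : IntervalIntegrable (fun s => 81 * R s ^ 2) volume 0 1 :=
    Continuous.intervalIntegrable (by fun_prop) _ _
  rw [intervalIntegral.integral_add i1 i2] at hz
  have hnn : 0 ≤ ∫ s in (0 : ℝ)..1, (r' s + 9 * R s) ^ 2 :=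
    intervalIntegral.integral_nonneg zero_le_one fun s _ => sq_nonneg _
  have he : ∫ s in (0 : ℝ)..1, (r' s + 9 * R s) ^ 2 =
      ∫ s in (0 : ℝ)..1, (r' s ^ 2 + 18 * (R s * r' s) + 81 * R s ^ 2) := by
    congr 1
    ext s
    ring
  rw [he, intervalIntegral.integral_add (i3.add i4) i5, intervalIntegral.integral_add i3 i4,
    intervalIntegral.integral_const_mul, intervalIntegral.integral_const_mul] at hnn
  rw [Poin_double (f := fun s => r s ^ 2) (by fun_prop) (fun s => by simp only [ev]),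
    Poin_double (f := fun s => r' s ^ 2) (by fun_prop) (fun s => by simp only [hr'o, neg_sq])]
  linarith

theorem mom_even {r r' : ℝ → ℝ} (hr : ∀ s, HasDerivAt r (r' s) s) (hc : Continuous r')
    (ev : ∀ s, r (-s) = r s) (h1 : r 1 = 0) (h0 : ∫ s in (-1 : ℝ)..1, r s = 0) :
    (∫ s in (-1 : ℝ)..1, s ^ 2 * r s) ^ 2 ≤ 8 / 1575 * ∫ s in (-1 : ℝ)..1, r' s ^ 2 := by
  have hrc := Poin_cont hr
  have hm : r (-1) = 0 := by rw [ev, h1]
  have hS : ∀ s : ℝ, HasDerivAt (fun s : ℝ => s ^ 3 / 3 - s / 5) (s ^ 2 - 1 / 5) s := by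
    intro s
    have h2 := ((hasDerivAt_pow 3 s).div_const 3).sub ((hasDerivAt_id s).div_const 5)
    refine h2.congr_deriv ?_
    norm_num
  have hF : ∀ s, HasDerivAt (fun s => (s ^ 3 / 3 - s / 5) * r s)
      ((s ^ 2 * r s - 1 / 5 * r s) + (s ^ 3 / 3 - s / 5) * r' s) s := fun s =>
    ((hS s).mul (hr s)).congr_deriv (by ring)
  have hz : (∫ s in (-1 : ℝ)..1,
      ((s ^ 2 * r s - 1 / 5 * r s) + (s ^ 3 / 3 - s / 5) * r' s)) = 0 := by
    rw [Poin_ftc hF (by fun_prop), h1, hm]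
    ring
  have i1 : IntervalIntegrable (fun s => s ^ 2 * r s) volume (-1) 1 :=
    Continuous.intervalIntegrable (by fun_prop) _ _
  have i2 : IntervalIntegrable (fun s => 1 / 5 * r s) volume (-1) 1 :=
    Continuous.intervalIntegrable (by fun_prop) _ _
  have i3 : IntervalIntegrable (fun s => (s ^ 3 / 3 - s / 5) * r' s) volume (-1) 1 :=
    Continuous.intervalIntegrable (by fun_prop) _ _
  rw [intervalIntegral.integral_add (i1.sub i2) i3, intervalIntegral.integral_sub i1 i2,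
    intervalIntegral.integral_const_mul, h0] at hz
  have hcs := Poin_cs (f := fun s : ℝ => s ^ 3 / 3 - s / 5) (g := r') (by fun_prop) hc
  have hS2 : ∫ s in (-1 : ℝ)..1, (s ^ 3 / 3 - s / 5) ^ 2 = 8 / 1575 := by
    have hG : ∀ s : ℝ, HasDerivAt (fun s : ℝ => s ^ 7 / 63 - 2 * s ^ 5 / 75 + s ^ 3 / 75)
        ((s ^ 3 / 3 - s / 5) ^ 2) s := by
      intro s
      have h2 := (((hasDerivAt_pow 7 s).div_const 63).sub
        (((hasDerivAt_pow 5 s).const_mul 2).div_const 75)).add ((hasDerivAt_pow 3 s).div_const 75)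
      refine h2.congr_deriv ?_
      norm_num
      ring
    rw [Poin_ftc hG (by fun_prop)]
    norm_num
  rw [hS2] at hcs
  have h3 : (∫ s in (-1 : ℝ)..1, s ^ 2 * r s) =
      -∫ s in (-1 : ℝ)..1, (s ^ 3 / 3 - s / 5) * r' s := by linarith
  rw [h3, neg_sq]
  exact hcs

theorem poin_odd {q q' : ℝ → ℝ} (hq : ∀ s, HasDerivAt q (q' s) s) (hc : Continuous q')
    (od : ∀ s, q (-s) = -q s) (h1 : q 1 = 0) :
    9 * ∫ s in (-1 : ℝ)..1, q s ^ 2 ≤ ∫ s in (-1 : ℝ)..1, q' s ^ 2 := by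
  have hqc := Poin_cont hq
  have hq'e := Poin_deriv_odd hq od
  have h0 : q 0 = 0 := by
    have := od 0
    rw [neg_zero] at this
    linarith
  have hp := poin01 hq hc h0 h1
  rw [Poin_double (f := fun s => q s ^ 2) (by fun_prop) (fun s => by simp only [od, neg_sq]),
    Poin_double (f := fun s => q' s ^ 2) (by fun_prop) (fun s => by simp only [hq'e])]
  linarith

theorem mom_odd {q q' : ℝ → ℝ} (hq : ∀ s, HasDerivAt q (q' s) s) (hc : Continuous q')
    (od : ∀ s, q (-s) = -q s) (h1 : q 1 = 0) :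
    (∫ s in (-1 : ℝ)..1, s * q s) ^ 2 ≤ 2 / 45 * ∫ s in (-1 : ℝ)..1, q' s ^ 2 := by
  have hqc := Poin_cont hq
  have hm : q (-1) = 0 := by rw [od, h1, neg_zero]
  have hS : ∀ s : ℝ, HasDerivAt (fun s : ℝ => s ^ 2 / 2 - 1 / 6) s s := by
    intro s
    have h2 := ((hasDerivAt_pow 2 s).div_const 2).sub_const (1 / 6)
    refine h2.congr_deriv ?_
    norm_num
  have hF : ∀ s, HasDerivAt (fun s => (s ^ 2 / 2 - 1 / 6) * q s)
      (s * q s + (s ^ 2 / 2 - 1 / 6) * q' s) s := fun s =>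
    ((hS s).mul (hq s)).congr_deriv (by ring)
  have hz : (∫ s in (-1 : ℝ)..1, (s * q s + (s ^ 2 / 2 - 1 / 6) * q' s)) = 0 := by
    rw [Poin_ftc hF (by fun_prop), h1, hm]
    ring
  have i1 : IntervalIntegrable (fun s => s * q s) volume (-1) 1 :=
    Continuous.intervalIntegrable (by fun_prop) _ _
  have i3 : IntervalIntegrable (fun s => (s ^ 2 / 2 - 1 / 6) * q' s) volume (-1) 1 :=
    Continuous.intervalIntegrable (by fun_prop) _ _
  rw [intervalIntegral.integral_add i1 i3] at hz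
  have hcs := Poin_cs (f := fun s : ℝ => s ^ 2 / 2 - 1 / 6) (g := q') (by fun_prop) hc
  have hS2 : ∫ s in (-1 : ℝ)..1, (s ^ 2 / 2 - 1 / 6) ^ 2 = 2 / 45 := by
    have hG : ∀ s : ℝ, HasDerivAt (fun s : ℝ => s ^ 5 / 20 - s ^ 3 / 18 + s / 36)
        ((s ^ 2 / 2 - 1 / 6) ^ 2) s := by
      intro s
      have h2 := (((hasDerivAt_pow 5 s).div_const 20).sub
        ((hasDerivAt_pow 3 s).div_const 18)).add ((hasDerivAt_id s).div_const 36)
      refine h2.congr_deriv ?_
      norm_num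
      ring
    rw [Poin_ftc hG (by fun_prop)]
    norm_num
  rw [hS2] at hcs
  have h3 : (∫ s in (-1 : ℝ)..1, s * q s) =
      -∫ s in (-1 : ℝ)..1, (s ^ 2 / 2 - 1 / 6) * q' s := by linarith
  rw [h3, neg_sq]
  exact hcs

end Pool.Agent.NGN
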