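import Pool.Agent.NGN.Hull
import Pool.Agent.NGN.B.Cvx

/-!
# The regular polygon: the interface theorems `B_poly` and `B_vol`
-/

set_option autoImplicit false

noncomputable section

namespace Pool.Agent.NGN

open MeasureTheory Pool.Agent.Stk

/-- The regular polygon is a polygon with `n` sides. -/
theorem B_poly {n : ℕ} [NeZero n] (hn : 3 ≤ n) : PolyN (regO n) (regP n) :=
  polyN_of_cvx hn (cvx_regP hn)

/-- The area of the regular polygon. -/
theorem B_vol {n : ℕ} [NeZero n] (hn : 3 ≤ n) : volume.real (regO n) = n * tauN n := by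
  unfold regO
  rw [volume_interior_hull hn (cvx_regP hn)]
  have h : ∀ i : ZMod n, cr (regP n i) (regP n (i + 1)) / 2 = tauN n := by
    intro i
    rw [cr_regP hn]
    ring
  rw [Finset.sum_congr rfl fun i _ => h i, Finset.sum_const, Finset.card_univ, ZMod.card,
    nsmul_eq_mul]

end Pool.Agent.NGN
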